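import Mathlib

set_option autoImplicit false

/-!
The basic semidefinite relaxation together with all valid constraints on few vertices.
-/

namespace Pool.Agent.KS6_6.UG

open Finset

/-- Solutions of the semidefinite relaxation of level `R` for labelings of the vertices `W` with
labels from `A`. The number `μ (u, a) (v, b)` stands for the probability that `u` has the label `a`
and `v` has the label `b`. The matrix `μ` is positive semidefinite, and for every set `S` of at most
`R` vertices there is a probability distribution `P` on the labelings such that for all `u` and `v`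
in `S` the pair of their labels is distributed according to `μ`. -/
structure LocalSdp {W A : Type} [Fintype W] [DecidableEq W] [Fintype A] [DecidableEq A] (R : ℕ)
    (μ : W × A → W × A → ℝ) : Prop where
  psd : ∀ f : W × A → ℝ, 0 ≤ ∑ x, ∑ y, f x * f y * μ x y
  loc : ∀ S : Finset W, S.card ≤ R → ∃ P : (W → A) → ℝ, (∀ l, 0 ≤ P l) ∧ ∑ l, P l = 1 ∧
    ∀ u ∈ S, ∀ v ∈ S, ∀ a b, μ (u, a) (v, b) = ∑ l, if l u = a ∧ l v = b then P l else 0

end Pool.Agent.KS6_6.UG
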