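import Pool.Agent.KS6_6.UG.Dist

set_option autoImplicit false

/-!
Local distributions with the pair marginals of the orthogonalized kernel.
-/

namespace Pool.Agent.KS6_6.UG

open Finset

section

variable {h k : ℕ} (φ : (Fin h → Bool) → (Fin k → Bool))
  (hφ : ∀ a b, φ (a + b) = φ a + φ b)
variable [Nonempty (Fin h ⊕ Fin k)]
variable (α a : ℝ) (hα0 : 0 ≤ α) (hcode : ∀ d, d ≠ 0 → |rho (pt φ 0 d)| ≤ α) (ha0 : 0 ≤ a)
  (ha : 4 * a + α < 1) (m j : ℕ) (hj : 16 * j ≤ m) (ξ : ℝ)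
  (hξ : 2 ^ h * α ^ (4 * j) ≤ ξ) (hξ1 : ξ < 1)

include hφ in
omit [Nonempty (Fin h ⊕ Fin k)] in
theorem hd_add (b b' : Fin h → Bool) : pt φ 0 (b + b') = pt φ 0 b + pt φ 0 b' := by
  rw [pt_add φ hφ, add_zero]

include hcode hα0 hj hξ in
theorem code_mass : ∑ d ∈ (Finset.univ : Finset (Fin h → Bool)).erase 0,
    |kx m (2 * j) (pt φ 0 d)| ≤ ξ := by
  have h1 : ∀ d ∈ (Finset.univ : Finset (Fin h → Bool)).erase 0,
      |kx m (2 * j) (pt φ 0 d)| ≤ α ^ (4 * j) := by
    intro d hd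
    rw [abs_of_nonneg (kx_nonneg _ _ _)]
    unfold kx
    refine (kt_le_pow m (2 * j) (by omega) _ (sq_nonneg _) (rho_sq_le _)).trans ?_
    rw [← sq_abs, ← pow_mul]
    have e : 2 * (2 * j) = 4 * j := by ring
    rw [e]
    exact pow_le_pow_left₀ (abs_nonneg _) (hcode d (Finset.ne_of_mem_erase hd)) _
  refine (Finset.sum_le_sum h1).trans (le_trans ?_ hξ)
  rw [Finset.sum_const, nsmul_eq_mul]
  apply mul_le_mul_of_nonneg_right _ (by positivity)
  have h3 : ((Finset.univ : Finset (Fin h → Bool)).erase 0).card ≤ 2 ^ h := by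
    refine (Finset.card_erase_le).trans ?_
    rw [Finset.card_univ, Fintype.card_fun, Fintype.card_bool, Fintype.card_fin]
  exact_mod_cast h3

/-- Pair weights. -/
noncomputable def pairw (u v : Fin k → Bool) (b b' : Fin h → Bool) : ℝ :=
  kap (pt φ 0) (kx m (2 * j)) (pt φ (u + v) (b + b')) / 2 ^ h

include hφ in
omit [Nonempty (Fin h ⊕ Fin k)] in
theorem pt_hd (z : Fin k → Bool) (e d : Fin h → Bool) :
    pt φ z e + pt φ 0 d = pt φ z (e + d) := by
  rw [pt_add φ hφ, add_zero]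

include hφ in
omit [Nonempty (Fin h ⊕ Fin k)] in
theorem pairw_sum (u v : Fin k → Bool) (b : Fin h → Bool) :
    ∑ b', pairw φ m j u v b b' = 1 / 2 ^ h := by
  unfold pairw
  rw [← Finset.sum_div]
  congr 1
  rw [← kap_sum (pt φ 0) (hd_add φ hφ) (kx m (2 * j)) (pt φ (u + v) b)]
  refine Finset.sum_congr rfl fun d _ => ?_
  rw [pt_hd φ hφ]

omit [Nonempty (Fin h ⊕ Fin k)] in
theorem pairw_symm (u v : Fin k → Bool) (b b' : Fin h → Bool) :
    pairw φ m j u v b b' = pairw φ m j v u b' b := by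
  unfold pairw
  rw [add_comm u v, add_comm b b']

include hφ in
omit [Nonempty (Fin h ⊕ Fin k)] in
theorem coset_eq (z : Fin k → Bool) (e : Fin h → Bool) :
    cosetSum (pt φ 0) (kx m (2 * j)) (pt φ z e) = ∑ d, kx m (2 * j) (pt φ z d) := by
  unfold cosetSum
  simp only [pt_hd φ hφ]
  exact Equiv.sum_comp (Equiv.addLeft e) (fun d => kx m (2 * j) (pt φ z d))

include hφ hcode hα0 ha0 ha hj in
theorem rest_bound (z : Fin k → Bool) (s : Finset (Fin h → Bool))
    (hs : ∀ d ∈ s, a ≤ far φ z d) :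
    ∑ d ∈ s, kx m (2 * j) (pt φ z d) ≤ (1 - a) ^ (2 * j) * (1 + 2 ^ h * α ^ j) := by
  have h1 := rest_le (pt φ 0) (hd_add φ hφ) α hα0 hcode m j (by omega) (pt φ z 0) s (1 - a)
    (by linarith) (by
      intro d hd
      rw [pt_hd φ hφ, zero_add]
      have := hs d hd
      unfold far at this
      linarith)
  refine le_trans (le_of_eq ?_) h1
  refine Finset.sum_congr rfl fun d _ => ?_
  rw [pt_hd φ hφ, zero_add]

include hφ hcode hα0 ha0 ha hj hξ hξ1 in
theorem local_dist (τ lam : ℝ) (hτ0 : 0 ≤ τ) (hτ1 : τ ≤ 1) (hl0 : 0 ≤ lam) (hl1 : lam ≤ 1)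
    (hτ : (3 / 4 : ℝ) ^ m ≤ τ * (1 - a) ^ m) (hlow : (3 / 4 : ℝ) ^ m ≤ 1 / 2) (R : ℕ)
    (hcond : 2 * (3 / 4 : ℝ) ^ m + (R : ℝ) ^ 2 * (1 - a / 2) ^ m + τ +
      (1 - a) ^ (2 * j) * (1 + 2 ^ h * α ^ j) + 2 ^ h * ξ ≤ lam / (R : ℝ) ^ 2)
    (S : Finset (Fin k → Bool)) (hS : S.card ≤ R) :
    ∃ P' : ((Fin k → Bool) → (Fin h → Bool)) → ℝ, (∀ x, 0 ≤ P' x) ∧ ∑ x, P' x = 1 ∧
      (∀ u ∈ S, ∀ v ∈ S, u ≠ v → ∀ b b',
        marg P' u v b b' = (1 - lam) * pairw φ m j u v b b' + lam / (2 ^ h) ^ 2) ∧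
      (∀ u ∈ S, ∀ b, ∑ x, (if x u = b then P' x else 0) = 1 / 2 ^ h) := by
  obtain ⟨P, hP0, hP1, hP2, hP3⟩ := base_dist φ hφ α a hcode ha0 ha m S τ hτ0 hτ1
  have hcardA : (2 : ℝ) ^ h = Fintype.card (Fin h → Bool) := by
    rw [Fintype.card_fun, Fintype.card_bool, Fintype.card_fin]; push_cast; rfl
  apply smoothing S P hP0 hP1 (2 ^ h) hcardA (fun u _ b => hP2 u b) (pairw φ m j)
    (pairw_sum φ hφ m j) (pairw_symm φ m j) lam hl0 hl1
  intro u hu v hv huv b b'
  rw [hP3 u v huv b b']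
  have hq : (0 : ℝ) < 2 ^ h := by positivity
  have ha1 : a ≤ 1 := by linarith
  set p : ℝ := (1 - τ) * pRel φ a m S u v with hp
  set q : ℝ := 2 ^ h with hqdef
  set z := u + v with hz
  set s : ℝ := ∑ d, kx m (2 * j) (pt φ z d) with hs
  set rest : ℝ := (1 - a) ^ (2 * j) * (1 + q * α ^ j) with hrest
  -- lower bound for the kernel
  have hk := kap_close (pt φ 0) (hd_add φ hφ) (kx m (2 * j)) (kx_psd m (2 * j))
    (kx_zero m (2 * j) (by omega)) ξ (code_mass φ α hα0 hcode m j hj ξ hξ) hξ1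
    (pt φ z (b + b'))
  rw [coset_eq φ hφ] at hk
  have hk1 := (abs_le.mp hk).1
  have hpr0 : 0 ≤ pRel φ a m S u v := prT_nonneg m _
  have hcard2 : (2 : ℝ) ≤ S.card := by
    have : 1 < S.card := Finset.one_lt_card.mpr ⟨u, hu, v, hv, huv⟩
    exact_mod_cast this
  have hSR : (S.card : ℝ) ≤ R := by exact_mod_cast hS
  have hSpos : (0 : ℝ) < S.card := by linarith
  have hlamS : lam / (R : ℝ) ^ 2 ≤ lam / (S.card : ℝ) ^ 2 := by
    apply div_le_div_of_nonneg_left hl0 (by positivity)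
    exact pow_le_pow_left₀ hSpos.le hSR 2
  have hbadR : (S.card : ℝ) ^ 2 * (1 - a / 2) ^ m ≤ (R : ℝ) ^ 2 * (1 - a / 2) ^ m := by
    apply mul_le_mul_of_nonneg_right
    · exact pow_le_pow_left₀ hSpos.le hSR 2
    · apply pow_nonneg; linarith
  have h34 : (0 : ℝ) ≤ (3 / 4) ^ m := by positivity
  have hbad0 : 0 ≤ (S.card : ℝ) ^ 2 * (1 - a / 2) ^ m := by
    apply mul_nonneg (by positivity)
    apply pow_nonneg; linarith
  have key : s - p ≤ lam / (R : ℝ) ^ 2 - q * ξ ∧
      (b = b' + shift φ a u v → p ≤ kx m (2 * j) (pt φ z (b + b'))) := by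
    by_cases hx : ∃ d, far φ z d ≤ a
    · obtain ⟨d, hd⟩ := hx
      have h1 := pRel_le φ hφ α a hcode ha0 ha m S u v huv d hd
      have h2 := pRel_ge φ hφ α a hcode ha0 ha m ha1 S u v hu hv d hd
      have h3 := rest_bound φ hφ α a hα0 hcode ha0 ha m j hj z
        ((Finset.univ : Finset (Fin h → Bool)).erase d) (by
          intro d' hd'
          by_contra hcon
          push Not at hcon
          apply Finset.ne_of_mem_erase hd'
          exact far_unique φ hφ α a hcode ha z d' d (by linarith) (by linarith))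
      have h4 : s = kx m (2 * j) (pt φ z d) +
          ∑ d' ∈ (Finset.univ : Finset (Fin h → Bool)).erase d, kx m (2 * j) (pt φ z d') :=
        (Finset.add_sum_erase _ _ (Finset.mem_univ d)).symm
      have hsq0 : 0 ≤ rho (pt φ z d) ^ 2 := sq_nonneg _
      have hsq1 : rho (pt φ z d) ^ 2 ≤ 1 := rho_sq_le _
      have h5 := kt_le m (2 * j) (by omega) _ hsq0 hsq1 hlow
      have h6 := kt_ge m (2 * j) (by omega) _ hsq0 hsq1
      have h5' : kx m (2 * j) (pt φ z d) ≤ ((1 + rho (pt φ z d) ^ 2) / 2) ^ m +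
          2 * (3 / 4) ^ m := h5
      have h6' : ((1 + rho (pt φ z d) ^ 2) / 2) ^ m - (3 / 4) ^ m ≤
          kx m (2 * j) (pt φ z d) := h6
      set F : ℝ := ((1 + rho (pt φ z d) ^ 2) / 2) ^ m with hF
      have hF1 : F ≤ 1 := pow_le_one₀ (by linarith) (by linarith)
      have hF0 : (1 - a) ^ m ≤ F := by
        apply pow_le_pow_left₀ (by linarith)
        unfold far at hd
        have h7 : 1 - a ≤ |rho (pt φ z d)| := by linarith
        have h8 : (1 - a) ^ 2 ≤ rho (pt φ z d) ^ 2 := by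
          rw [← sq_abs (rho _)]
          exact pow_le_pow_left₀ (by linarith) h7 2
        nlinarith
      have hF00 : 0 ≤ F := le_trans (pow_nonneg (by linarith) m) hF0
      constructor
      · have h9 : (1 - τ) * (F - (S.card : ℝ) ^ 2 * (1 - a / 2) ^ m) ≤ p := by
          rw [hp]
          exact mul_le_mul_of_nonneg_left h2 (by linarith)
        have h10 : (1 - τ) * (F - (S.card : ℝ) ^ 2 * (1 - a / 2) ^ m) =
            F - τ * F - (S.card : ℝ) ^ 2 * (1 - a / 2) ^ m +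
              τ * ((S.card : ℝ) ^ 2 * (1 - a / 2) ^ m) := by ring
        have h11 : τ * F ≤ τ := mul_le_of_le_one_right hτ0 hF1
        have h12 : 0 ≤ τ * ((S.card : ℝ) ^ 2 * (1 - a / 2) ^ m) := mul_nonneg hτ0 hbad0
        linarith
      · intro hb
        have e1 : b + b' = d := by
          rw [hb, shift_eq φ hφ α a hcode ha0 ha u v d hd]
          calc b' + d + b' = d + (b' + b') := by abel
            _ = d := by rw [pi_add_self, add_zero]
        rw [e1]
        have h9 : p ≤ (1 - τ) * F := by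
          rw [hp]
          exact mul_le_mul_of_nonneg_left h1 (by linarith)
        have h10 : τ * (1 - a) ^ m ≤ τ * F := mul_le_mul_of_nonneg_left hF0 hτ0
        linarith
    · have h1 := pRel_zero φ a m S u v huv hx
      have hp0 : p = 0 := by rw [hp, h1, mul_zero]
      have h3 := rest_bound φ hφ α a hα0 hcode ha0 ha m j hj z
        (Finset.univ : Finset (Fin h → Bool)) (by
          intro d' _
          by_contra hcon
          push Not at hcon
          exact hx ⟨d', hcon.le⟩)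
      constructor
      · rw [hp0]
        have h4 : s ≤ rest := h3
        linarith
      · intro _
        rw [hp0]
        exact kx_nonneg _ _ _
  obtain ⟨hk2, hk3⟩ := key
  have hind : p * (if b = b' + shift φ a u v then 1 / q else 0) ≤
      kx m (2 * j) (pt φ z (b + b')) / q := by
    by_cases hb : b = b' + shift φ a u v
    · rw [if_pos hb, mul_one_div]
      exact div_le_div_of_nonneg_right (hk3 hb) hq.le
    · rw [if_neg hb, mul_zero]
      exact div_nonneg (kx_nonneg _ _ _) hq.le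
  have hfin : (kx m (2 * j) (pt φ z (b + b')) + (1 - s) / q - ξ) / q ≤ pairw φ m j u v b b' := by
    unfold pairw
    apply div_le_div_of_nonneg_right _ hq.le
    linarith
  have hfin2 : (kx m (2 * j) (pt φ z (b + b')) + (1 - s) / q - ξ) / q =
      kx m (2 * j) (pt φ z (b + b')) / q + (1 - p) / q ^ 2 - (s - p + q * ξ) / q ^ 2 := by
    field_simp
    ring
  have hfin3 : (s - p + q * ξ) / q ^ 2 ≤ lam / (q ^ 2 * (S.card : ℝ) ^ 2) := by
    have e : lam / (q ^ 2 * (S.card : ℝ) ^ 2) = lam / (S.card : ℝ) ^ 2 / q ^ 2 := by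
      rw [div_div, mul_comm]
    rw [e]
    apply div_le_div_of_nonneg_right _ (by positivity)
    linarith
  linarith

end

end Pool.Agent.KS6_6.UG
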