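import Pool.Agent.KS6_6.UG.Defs
import Pool.Agent.KS6_6.UG.Dist2

set_option autoImplicit false

/-!
The solution of the semidefinite relaxation.
-/

namespace Pool.Agent.KS6_6.UG

open Finset

section

variable {V A : Type} [Fintype V] [DecidableEq V] [Fintype A] [DecidableEq A]

/-- Pair marginals of a distribution are positive semidefinite. -/
theorem marg_psd (P : (V → A) → ℝ) (hP : ∀ x, 0 ≤ P x) {ι : Type} [Fintype ι] (f : ι → ℝ)
    (g : ι → V × A) :
    0 ≤ ∑ i, ∑ j, f i * f j * marg P (g i).1 (g j).1 (g i).2 (g j).2 := by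
  have h1 : ∑ i, ∑ j, f i * f j * marg P (g i).1 (g j).1 (g i).2 (g j).2 =
      ∑ l : V → A, P l * (∑ i, f i * if l (g i).1 = (g i).2 then 1 else 0) ^ 2 := by
    unfold marg
    simp only [Finset.mul_sum]
    have h2 : ∀ i : ι, ∑ j : ι, ∑ l : V → A, f i * f j *
        (if l (g i).1 = (g i).2 ∧ l (g j).1 = (g j).2 then P l else 0) =
        ∑ l : V → A, ∑ j : ι, f i * f j *
        (if l (g i).1 = (g i).2 ∧ l (g j).1 = (g j).2 then P l else 0) :=
      fun i => Finset.sum_comm
    simp only [h2]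
    rw [Finset.sum_comm]
    refine Finset.sum_congr rfl fun l _ => ?_
    rw [sq, Finset.sum_mul, Finset.mul_sum]
    refine Finset.sum_congr rfl fun i _ => ?_
    rw [Finset.mul_sum, Finset.mul_sum]
    refine Finset.sum_congr rfl fun j _ => ?_
    by_cases h3 : l (g i).1 = (g i).2 <;> by_cases h4 : l (g j).1 = (g j).2 <;>
      simp [h3, h4] <;> ring
  rw [h1]
  exact Finset.sum_nonneg fun l _ => mul_nonneg (hP l) (sq_nonneg _)

end

section

variable {h k : ℕ} (φ : (Fin h → Bool) → (Fin k → Bool))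
  (hφ : ∀ a b, φ (a + b) = φ a + φ b)
variable (m j : ℕ) (lam : ℝ)

/-- Matrix of the relaxation for one copy of the vertices. -/
noncomputable def mu0 (x y : (Fin k → Bool) × (Fin h → Bool)) : ℝ :=
  (1 - lam) * pairw φ m j x.1 y.1 x.2 y.2 +
    lam * (if x.1 = y.1 then (if x.2 = y.2 then 1 / 2 ^ h else 0) else 1 / (2 ^ h) ^ 2)

/-- Projection of the two copies. -/
def prj {V : Type} (w : V ⊕ V) : V := Sum.elim id id w

/-- Matrix of the relaxation. -/
noncomputable def mu (x y : ((Fin k → Bool) ⊕ (Fin k → Bool)) × (Fin h → Bool)) : ℝ :=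
  mu0 φ m j lam (prj x.1, x.2) (prj y.1, y.2)

variable [Nonempty (Fin h ⊕ Fin k)]
variable (α a : ℝ) (hα0 : 0 ≤ α) (hcode : ∀ d, d ≠ 0 → |rho (pt φ 0 d)| ≤ α) (ha0 : 0 ≤ a)
  (ha : 4 * a + α < 1) (hj : 16 * j ≤ m) (ξ : ℝ)
  (hξ : 2 ^ h * α ^ (4 * j) ≤ ξ) (hξ1 : ξ < 1)
  (hl0 : 0 ≤ lam) (hl1 : lam ≤ 1)

include hφ hcode hα0 hj hξ hξ1 hl0 hl1 in
theorem mu0_psd {ι : Type} [Fintype ι] (f : ι → ℝ) (g : ι → (Fin k → Bool) × (Fin h → Bool)) :
    0 ≤ ∑ i, ∑ i', f i * f i' * mu0 φ m j lam (g i) (g i') := by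
  have h1 := kap_psd (pt φ 0) (hd_add φ hφ) (kx m (2 * j)) (kx_psd m (2 * j))
    (kx_zero m (2 * j) (by omega)) ξ (code_mass φ α hα0 hcode m j hj ξ hξ) hξ1
    ι f (fun i => pt φ (g i).1 (g i).2)
  have h2 := marg_psd (law (⊥ : Setoid (Fin k → Bool)) (fun _ _ => (0 : Fin h → Bool)))
    (law_nonneg _ _) f g
  have hcardA : (Fintype.card (Fin h → Bool) : ℝ) = 2 ^ h := by
    rw [Fintype.card_fun, Fintype.card_bool, Fintype.card_fin]; push_cast; rfl
  have h3 : ∀ u v b b', marg (law (⊥ : Setoid (Fin k → Bool)) (fun _ _ => (0 : Fin h → Bool)))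
      u v b b' = if u = v then (if b = b' then 1 / 2 ^ h else 0) else 1 / (2 ^ h) ^ 2 := by
    intro u v b b'
    rw [law_two _ _ (by intros; simp) u v b b', hcardA]
    have : (⊥ : Setoid (Fin k → Bool)) u v ↔ u = v := Iff.rfl
    simp only [this, add_zero]
  simp only [h3] at h2
  have h4 : ∑ i, ∑ i', f i * f i' * mu0 φ m j lam (g i) (g i') =
      (1 - lam) / 2 ^ h * ∑ i, ∑ i', f i * f i' * kap (pt φ 0) (kx m (2 * j))
        (pt φ (g i).1 (g i).2 + pt φ (g i').1 (g i').2) +
      lam * ∑ i, ∑ i', f i * f i' * (if (g i).1 = (g i').1 then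
        (if (g i).2 = (g i').2 then 1 / 2 ^ h else 0) else 1 / (2 ^ h) ^ 2) := by
    simp only [Finset.mul_sum]
    rw [← Finset.sum_add_distrib]
    refine Finset.sum_congr rfl fun i _ => ?_
    rw [← Finset.sum_add_distrib]
    refine Finset.sum_congr rfl fun i' _ => ?_
    rw [pt_add φ hφ]
    unfold mu0 pairw
    ring
  rw [h4]
  apply add_nonneg
  · apply mul_nonneg _ h1
    apply div_nonneg (by linarith) (by positivity)
  · exact mul_nonneg hl0 h2

include hφ hcode hα0 ha0 ha hj hξ hξ1 hl0 hl1 in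
theorem mu_sdp (τ : ℝ) (hτ0 : 0 ≤ τ) (hτ1 : τ ≤ 1)
    (hτ : (3 / 4 : ℝ) ^ m ≤ τ * (1 - a) ^ m) (hlow : (3 / 4 : ℝ) ^ m ≤ 1 / 2) (R : ℕ)
    (hcond : 2 * (3 / 4 : ℝ) ^ m + (R : ℝ) ^ 2 * (1 - a / 2) ^ m + τ +
      (1 - a) ^ (2 * j) * (1 + 2 ^ h * α ^ j) + 2 ^ h * ξ ≤ lam / (R : ℝ) ^ 2) :
    LocalSdp R (mu φ m j lam) := by
  constructor
  · intro f
    exact mu0_psd φ hφ m j lam α hα0 hcode hj ξ hξ hξ1 hl0 hl1 f
      (fun x => (prj x.1, x.2))
  · intro S hS
    obtain ⟨P, hP0, hP1, hP2, hP3⟩ := local_dist φ hφ α a hα0 hcode ha0 ha m j hj ξ hξ hξ1 τ lam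
      hτ0 hτ1 hl0 hl1 hτ hlow R hcond (S.image prj) (Finset.card_image_le.trans hS)
    have hq : (0 : ℝ) < 2 ^ h := by positivity
    have hmarg : ∀ u ∈ S.image prj, ∀ v ∈ S.image prj, ∀ b b',
        mu0 φ m j lam (u, b) (v, b') = marg P u v b b' := by
      intro u hu v hv b b'
      by_cases huv : u = v
      · subst huv
        rw [marg_self, hP3 u hu b]
        unfold mu0 pairw
        simp only [if_true]
        have h1 := kap_code (pt φ 0) (hd_add φ hφ) (kx m (2 * j))
          (kx_zero m (2 * j) (by omega)) ξ (code_mass φ α hα0 hcode m j hj ξ hξ) hξ1 (b + b')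
        rw [pi_add_self, h1]
        by_cases hb : b = b'
        · subst hb
          rw [if_pos rfl, if_pos (pi_add_self b)]
          ring
        · have hb2 : b + b' ≠ 0 := by
            intro h5
            apply hb
            calc b = (b + b') + b' := by
                  calc b = b + (b' + b') := by rw [pi_add_self, add_zero]
                    _ = (b + b') + b' := by abel
              _ = b' := by rw [h5, zero_add]
          rw [if_neg hb, if_neg hb2]
          ring
      · rw [hP2 u hu v hv huv b b']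
        unfold mu0
        simp only [if_neg huv]
        ring
    refine ⟨fun y => ∑ x : (Fin k → Bool) → (Fin h → Bool),
      if (fun w => x (prj w)) = y then P x else 0, ?_, ?_, ?_⟩
    · intro y
      apply Finset.sum_nonneg
      intro x _
      split_ifs
      · exact hP0 x
      · exact le_rfl
    · rw [Finset.sum_comm]
      simp only [Finset.sum_ite_eq, Finset.mem_univ, if_true]
      exact hP1
    · intro u hu v hv b b'
      unfold mu
      simp only
      rw [hmarg (prj u) (Finset.mem_image_of_mem _ hu) (prj v) (Finset.mem_image_of_mem _ hv) b b']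
      unfold marg
      have h1 : ∀ y : (Fin k → Bool) ⊕ (Fin k → Bool) → (Fin h → Bool),
          (if y u = b ∧ y v = b' then (∑ x : (Fin k → Bool) → (Fin h → Bool),
            if (fun w => x (prj w)) = y then P x else 0) else 0) =
          ∑ x : (Fin k → Bool) → (Fin h → Bool), if (fun w => x (prj w)) = y then
            (if y u = b ∧ y v = b' then P x else 0) else 0 := by
        intro y
        by_cases h2 : y u = b ∧ y v = b'
        · simp only [if_pos h2]
        · simp only [if_neg h2]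
          simp
      simp only [h1]
      rw [Finset.sum_comm]
      refine Finset.sum_congr rfl fun x _ => ?_
      rw [Finset.sum_ite_eq]
      simp

end

end Pool.Agent.KS6_6.UG
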