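import Pool.Agent.KS6_6.UG.Comp

set_option autoImplicit false

/-!
Choice of the parameters.
-/

namespace Pool.Agent.KS6_6.UG

open Finset

theorem pow_le_exp (x : ℝ) (hx : 0 ≤ 1 - x) (n : ℕ) : (1 - x) ^ n ≤ Real.exp (-(n * x)) := by
  have h1 : 1 - x ≤ Real.exp (-x) := by
    have := Real.add_one_le_exp (-x)
    linarith
  calc (1 - x) ^ n ≤ Real.exp (-x) ^ n := pow_le_pow_left₀ hx h1 n
    _ = Real.exp (-(n * x)) := by rw [← Real.exp_nat_mul]; congr 1; ring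

/-- The estimate which allows local distributions on sets of `R` vertices. -/
theorem cond_holds (ε : ℝ) (h m j R : ℕ) (x : ℝ) (hmh : m ≤ h) (hj : m < 16 * j + 16)
    (hx1 : x ≤ 1) (hR1 : 1 ≤ R) (hR : (R : ℝ) ≤ Real.exp (m / 2048))
    (hε : Real.exp (-(m / 256)) ≤ ε / 1024) :
    2 * (3 / 4 : ℝ) ^ m + (R : ℝ) ^ 2 * (1 - (1 / 16 : ℝ) / 2) ^ m + (4 / 5 : ℝ) ^ m +
      (1 - 1 / 16 : ℝ) ^ (2 * j) * (1 + x) + 2 ^ h * (1 / 8 : ℝ) ^ h ≤ (ε / 4) / (R : ℝ) ^ 2 := by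
  have hR0 : (0 : ℝ) < R := by exact_mod_cast hR1
  have hM0 : (0 : ℝ) ≤ m := by positivity
  rw [le_div_iff₀ (by positivity)]
  have hR2 : (R : ℝ) ^ 2 ≤ Real.exp (m / 1024) := by
    calc (R : ℝ) ^ 2 ≤ Real.exp (m / 2048) ^ 2 := pow_le_pow_left₀ hR0.le hR 2
      _ = Real.exp (m / 1024) := by rw [← Real.exp_nat_mul]; congr 1; push_cast; ring
  have hR4 : (R : ℝ) ^ 2 * (R : ℝ) ^ 2 ≤ Real.exp (m / 512) := by
    calc (R : ℝ) ^ 2 * (R : ℝ) ^ 2 ≤ Real.exp (m / 1024) * Real.exp (m / 1024) := by gcongr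
      _ = Real.exp (m / 512) := by rw [← Real.exp_add]; congr 1; ring
  have b1 : (3 / 4 : ℝ) ^ m ≤ Real.exp (-(m * (1 / 4))) := by
    have := pow_le_exp (1 / 4) (by norm_num) m
    norm_num at this ⊢
    exact this
  have b2 : (1 - (1 / 16 : ℝ) / 2) ^ m ≤ Real.exp (-(m * ((1 / 16 : ℝ) / 2))) :=
    pow_le_exp ((1 / 16) / 2) (by norm_num) m
  have b3 : (4 / 5 : ℝ) ^ m ≤ Real.exp (-(m * (1 / 5))) := by
    have := pow_le_exp (1 / 5) (by norm_num) m
    norm_num at this ⊢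
    exact this
  have b4 : (1 - 1 / 16 : ℝ) ^ (2 * j) ≤ Real.exp (-((2 * j : ℕ) * (1 / 16))) :=
    pow_le_exp (1 / 16) (by norm_num) (2 * j)
  have b4' : Real.exp (-((2 * j : ℕ) * (1 / 16 : ℝ))) ≤ Real.exp 1 * Real.exp (-(m / 128)) := by
    rw [← Real.exp_add, Real.exp_le_exp]
    push_cast
    have : (m : ℝ) ≤ 16 * j + 16 := by exact_mod_cast hj.le
    linarith
  have b5 : (2 : ℝ) ^ h * (1 / 8 : ℝ) ^ h ≤ Real.exp (-(m * (3 / 4))) := by
    rw [← mul_pow]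
    have e : (2 * (1 / 8) : ℝ) = 1 - 3 / 4 := by norm_num
    rw [e]
    refine (pow_le_exp (3 / 4) (by norm_num) h).trans ?_
    rw [Real.exp_le_exp]
    have : (m : ℝ) ≤ h := by exact_mod_cast hmh
    linarith
  have he1 : Real.exp 1 ≤ 3 := by
    have := Real.exp_one_lt_d9
    linarith
  set Z := Real.exp (-(m / 256)) with hZ
  have hZ0 : 0 < Z := Real.exp_pos _
  have c1 : (3 / 4 : ℝ) ^ m * (R : ℝ) ^ 2 ≤ Z := by
    calc (3 / 4 : ℝ) ^ m * (R : ℝ) ^ 2 ≤ Real.exp (-(m * (1 / 4))) * Real.exp (m / 1024) := by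
          gcongr
      _ ≤ Z := by rw [← Real.exp_add, hZ, Real.exp_le_exp]; linarith
  have c2 : (R : ℝ) ^ 2 * (1 - (1 / 16 : ℝ) / 2) ^ m * (R : ℝ) ^ 2 ≤ Z := by
    calc (R : ℝ) ^ 2 * (1 - (1 / 16 : ℝ) / 2) ^ m * (R : ℝ) ^ 2
        = (1 - (1 / 16 : ℝ) / 2) ^ m * ((R : ℝ) ^ 2 * (R : ℝ) ^ 2) := by ring
      _ ≤ Real.exp (-(m * ((1 / 16 : ℝ) / 2))) * Real.exp (m / 512) := by
          apply mul_le_mul b2 hR4 (by positivity) (by positivity)
      _ ≤ Z := by rw [← Real.exp_add, hZ, Real.exp_le_exp]; linarith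
  have c3 : (4 / 5 : ℝ) ^ m * (R : ℝ) ^ 2 ≤ Z := by
    calc (4 / 5 : ℝ) ^ m * (R : ℝ) ^ 2 ≤ Real.exp (-(m * (1 / 5))) * Real.exp (m / 1024) := by
          gcongr
      _ ≤ Z := by rw [← Real.exp_add, hZ, Real.exp_le_exp]; linarith
  have c4 : (1 - 1 / 16 : ℝ) ^ (2 * j) * (1 + x) * (R : ℝ) ^ 2 ≤ 6 * Z := by
    have d1 : (1 - 1 / 16 : ℝ) ^ (2 * j) ≤ 3 * Real.exp (-(m / 128)) := by
      refine b4.trans (b4'.trans ?_)
      gcongr
    have d0 : (0 : ℝ) ≤ (1 - 1 / 16 : ℝ) ^ (2 * j) := by positivity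
    calc (1 - 1 / 16 : ℝ) ^ (2 * j) * (1 + x) * (R : ℝ) ^ 2
        ≤ (1 - 1 / 16 : ℝ) ^ (2 * j) * 2 * (R : ℝ) ^ 2 := by
          apply mul_le_mul_of_nonneg_right _ (by positivity)
          apply mul_le_mul_of_nonneg_left _ d0
          linarith
      _ ≤ (3 * Real.exp (-(m / 128))) * 2 * Real.exp (m / 1024) := by gcongr
      _ = 6 * (Real.exp (-(m / 128)) * Real.exp (m / 1024)) := by ring
      _ ≤ 6 * Z := by
          rw [← Real.exp_add, hZ]
          apply mul_le_mul_of_nonneg_left _ (by norm_num)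
          rw [Real.exp_le_exp]; linarith
  have c5 : (2 : ℝ) ^ h * (1 / 8 : ℝ) ^ h * (R : ℝ) ^ 2 ≤ Z := by
    calc (2 : ℝ) ^ h * (1 / 8 : ℝ) ^ h * (R : ℝ) ^ 2
        ≤ Real.exp (-(m * (3 / 4))) * Real.exp (m / 1024) := by
          apply mul_le_mul b5 hR2 (by positivity) (by positivity)
      _ ≤ Z := by rw [← Real.exp_add, hZ, Real.exp_le_exp]; linarith
  have e : (2 * (3 / 4 : ℝ) ^ m + (R : ℝ) ^ 2 * (1 - (1 / 16 : ℝ) / 2) ^ m + (4 / 5 : ℝ) ^ m +
      (1 - 1 / 16 : ℝ) ^ (2 * j) * (1 + x) + 2 ^ h * (1 / 8 : ℝ) ^ h) * (R : ℝ) ^ 2 =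
      2 * ((3 / 4 : ℝ) ^ m * (R : ℝ) ^ 2) +
      (R : ℝ) ^ 2 * (1 - (1 / 16 : ℝ) / 2) ^ m * (R : ℝ) ^ 2 + (4 / 5 : ℝ) ^ m * (R : ℝ) ^ 2 +
      (1 - 1 / 16 : ℝ) ^ (2 * j) * (1 + x) * (R : ℝ) ^ 2 +
      2 ^ h * (1 / 8 : ℝ) ^ h * (R : ℝ) ^ 2 := by ring
  rw [e]
  linarith

/-- The main theorem in terms of the internal definitions. -/
theorem main (ε δ : ℝ) (h k : ℕ) (hε0 : 0 < ε) (hε1 : ε < 1) (hδ0 : 0 < δ) (hδ1 : δ < 1)
    (hh : 2 ^ 20 * (Real.log (2 / δ) * Real.log (2 / ε)) / ε ≤ h)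
    (hk : h * (2 : ℝ) ^ (2 ^ 20 * Real.log (2 / δ) / ε) ≤ k) :
    ∃ (φ : (Fin h → Bool) → (Fin k → Bool)) (t : ℕ)
      (μ : ((Fin k → Bool) ⊕ (Fin k → Bool)) × (Fin h → Bool) →
        ((Fin k → Bool) ⊕ (Fin k → Bool)) × (Fin h → Bool) → ℝ),
      (∀ L M : (Fin k → Bool) → (Fin h → Bool),
        ((Finset.univ.filter fun e : Edg h k t => prm e (L e.1) = M (tgt φ e)).card : ℝ) ≤
          δ * Fintype.card (Edg h k t)) ∧
      (∀ R : ℕ, (R : ℝ) ≤ ((2 : ℝ) ^ h) ^ (ε / (2 ^ 20 * Real.log (2 / δ))) → LocalSdp R μ) ∧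
      (1 - ε) * Fintype.card (Edg h k t) ≤
        ∑ e : Edg h k t, ∑ b, μ (Sum.inl e.1, b) (Sum.inr (tgt φ e), prm e b) := by
  obtain ⟨L, hL⟩ : ∃ L, L = Real.log (2 / δ) := ⟨_, rfl⟩
  obtain ⟨E, hE⟩ : ∃ E, E = Real.log (2 / ε) := ⟨_, rfl⟩
  rw [← hL, ← hE] at hh
  rw [← hL] at hk
  rw [← hL]
  have hlog2 := Real.log_two_gt_d9
  have hlog2' := Real.log_two_lt_d9
  have hL2 : Real.log 2 ≤ L := by
    rw [hL]
    apply Real.log_le_log (by norm_num)
    rw [le_div_iff₀ hδ0]; linarith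
  have hE2 : Real.log 2 ≤ E := by
    rw [hE]
    apply Real.log_le_log (by norm_num)
    rw [le_div_iff₀ hε0]; linarith
  have hL0 : 0.69 ≤ L := by linarith
  have hE0 : 0.69 ≤ E := by linarith
  have hLp : 0 < L := by linarith
  have hEp : 0 < E := by linarith
  have hexpL : Real.exp (-L) = δ / 2 := by
    rw [hL, ← Real.log_inv, Real.exp_log (by positivity), inv_div]
  have hexpE : Real.exp (-E) = ε / 2 := by
    rw [hE, ← Real.log_inv, Real.exp_log (by positivity), inv_div]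
  -- the number `m0`
  obtain ⟨m0, hm0⟩ : ∃ m0, m0 = ε * h / (240 * L) := ⟨_, rfl⟩
  have hm0h : ε * h = 240 * L * m0 := by rw [hm0]; field_simp
  have hm0E : 2 ^ 20 * E ≤ 240 * m0 := by
    rw [div_le_iff₀ hε0] at hh
    have h1 : L * (2 ^ 20 * E) ≤ L * (240 * m0) := by
      calc L * (2 ^ 20 * E) = 2 ^ 20 * (L * E) := by ring
        _ ≤ h * ε := hh
        _ = L * (240 * m0) := by rw [mul_comm, hm0h]; ring
    exact le_of_mul_le_mul_left h1 hLp
  have hm0p : 0 ≤ m0 := by rw [hm0]; positivity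
  obtain ⟨m, hm⟩ : ∃ m, m = ⌊m0⌋₊ := ⟨_, rfl⟩
  have hmle : (m : ℝ) ≤ m0 := by rw [hm]; exact Nat.floor_le hm0p
  have hmlt : m0 < m + 1 := by rw [hm]; exact Nat.lt_floor_add_one m0
  have hmE : 2560 * E ≤ m := by linarith
  have hm1000 : (1000 : ℝ) ≤ m := by linarith
  have hh0 : (0 : ℝ) < h := by
    by_contra hcon
    push Not at hcon
    have h1 : ε * h ≤ 0 := mul_nonpos_of_nonneg_of_nonpos hε0.le hcon
    rw [hm0h] at h1
    have h2 : 0 < 240 * L * m0 := by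
      have : 0 < m0 := by linarith
      positivity
    linarith
  have hm0leh : m0 ≤ h := by
    have h1 : 240 * L * m0 ≤ 1 * h := by
      rw [← hm0h]
      exact mul_le_mul_of_nonneg_right hε1.le hh0.le
    nlinarith
  have hmhr : (m : ℝ) ≤ h := hmle.trans hm0leh
  have hmh : m ≤ h := by exact_mod_cast hmhr
  have hh1000 : (1000 : ℝ) ≤ h := hm1000.trans hmhr
  have hh1000n : 1000 ≤ h := by exact_mod_cast hh1000
  have hh1 : 1 ≤ h := by omega
  haveI : Nonempty (Fin h ⊕ Fin k) := ⟨Sum.inl ⟨0, by omega⟩⟩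
  obtain ⟨j, hj⟩ : ∃ j, j = m / 16 := ⟨_, rfl⟩
  have hj1 : 16 * j ≤ m := by omega
  have hj2 : m < 16 * j + 16 := by omega
  obtain ⟨l, hl⟩ : ∃ l, l = h / 4 := ⟨_, rfl⟩
  have hl1 : 4 * l ≤ h := by omega
  have hl2 : h ≤ 5 * l := by omega
  have hl1r : (4 * l : ℝ) ≤ h := by exact_mod_cast hl1
  have hl2r : (h : ℝ) ≤ 5 * l := by exact_mod_cast hl2
  have hlp : (0 : ℝ) < l := by linarith
  have hyL : L ≤ L / ε := by
    rw [le_div_iff₀ hε0]; nlinarith
  have hy : 0.69 ≤ L / ε := hL0.trans hyL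
  -- the code
  obtain ⟨α, hα⟩ : ∃ α, α = Real.exp (-(7680 * (L / ε))) := ⟨_, rfl⟩
  have hα0 : 0 < α := by rw [hα]; exact Real.exp_pos _
  have hαhalf : α ≤ 1 / 2 := by
    rw [hα, Real.exp_neg, inv_le_comm₀ (Real.exp_pos _) (by norm_num)]
    have := Real.add_one_le_exp (7680 * (L / ε))
    norm_num
    linarith
  have hcodecond : 16 * (h : ℝ) ≤ α ^ 2 * k := by
    have h1 : α ^ 2 = Real.exp (-(15360 * (L / ε))) := by
      rw [hα, ← Real.exp_nat_mul]; congr 1; push_cast; ring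
    have h2 : (2 : ℝ) ^ (2 ^ 20 * L / ε) = Real.exp (Real.log 2 * (2 ^ 20 * (L / ε))) := by
      rw [Real.rpow_def_of_pos (by norm_num)]
      congr 1; ring
    have h3 : 16 ≤ α ^ 2 * (2 : ℝ) ^ (2 ^ 20 * L / ε) := by
      rw [h1, h2, ← Real.exp_add]
      have h4 := Real.add_one_le_exp (-(15360 * (L / ε)) + Real.log 2 * (2 ^ 20 * (L / ε)))
      have h5 : 0.69 * (2 ^ 20 * (L / ε)) ≤ Real.log 2 * (2 ^ 20 * (L / ε)) := by
        apply mul_le_mul_of_nonneg_right (by linarith) (by positivity)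
      linarith
    calc 16 * (h : ℝ) ≤ (α ^ 2 * (2 : ℝ) ^ (2 ^ 20 * L / ε)) * h :=
          mul_le_mul_of_nonneg_right h3 hh0.le
      _ = α ^ 2 * (h * (2 : ℝ) ^ (2 ^ 20 * L / ε)) := by ring
      _ ≤ α ^ 2 * k := mul_le_mul_of_nonneg_left hk (by positivity)
  obtain ⟨φ, hφ, hcode⟩ := exists_code h k hh1 α hα0 (by linarith) hcodecond
  have hαj : α ^ j ≤ (1 / 2) ^ h := by
    have h1 : α ^ j = Real.exp (-(7680 * j * (L / ε))) := by
      rw [hα, ← Real.exp_nat_mul]; congr 1; ring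
    have h2 : (1 / 2 : ℝ) ^ h = Real.exp (-(h * Real.log 2)) := by
      rw [← mul_neg, ← Real.log_inv, Real.exp_nat_mul, Real.exp_log (by norm_num)]
      norm_num
    rw [h1, h2, Real.exp_le_exp, neg_le_neg_iff]
    have h3 : (h : ℝ) = 240 * (L / ε) * m0 := by
      have : (h : ℝ) = ε * h / ε := by field_simp
      rw [this, hm0h]; ring
    have h4 : (m : ℝ) < 16 * j + 16 := by exact_mod_cast hj2
    have h5 : 0 < L / ε := by positivity
    have h6 : (h : ℝ) * Real.log 2 ≤ h * 0.7 := by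
      apply mul_le_mul_of_nonneg_left (by linarith) hh0.le
    have h7 : h * 0.7 ≤ 7680 * j * (L / ε) := by
      rw [h3]
      have h8 : 240 * m0 * 0.7 ≤ 7680 * (j : ℝ) := by linarith
      calc 240 * (L / ε) * m0 * 0.7 = (240 * m0 * 0.7) * (L / ε) := by ring
        _ ≤ (7680 * j) * (L / ε) := mul_le_mul_of_nonneg_right h8 h5.le
    linarith
  have hξ : 2 ^ h * α ^ (4 * j) ≤ (1 / 8 : ℝ) ^ h := by
    have h1 : α ^ (4 * j) ≤ ((1 / 2) ^ h) ^ 4 := by
      rw [mul_comm, pow_mul]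
      exact pow_le_pow_left₀ (by positivity) hαj 4
    calc (2 : ℝ) ^ h * α ^ (4 * j) ≤ 2 ^ h * ((1 / 2) ^ h) ^ 4 := by gcongr
      _ = (1 / 8) ^ h := by
          rw [← pow_mul, mul_comm h 4, pow_mul, ← mul_pow]; norm_num
  have hξ1 : (1 / 8 : ℝ) ^ h < 1 := pow_lt_one₀ (by norm_num) (by norm_num) (by omega)
  have hx1 : 2 ^ h * α ^ j ≤ 1 := by
    calc (2 : ℝ) ^ h * α ^ j ≤ 2 ^ h * (1 / 2) ^ h := by gcongr
      _ = 1 := by rw [← mul_pow]; norm_num
  have hZ : Real.exp (-((m : ℝ) / 256)) ≤ ε / 1024 := by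
    have h1 : Real.exp (-((m : ℝ) / 256)) ≤ Real.exp (-E) ^ 10 := by
      rw [← Real.exp_nat_mul, Real.exp_le_exp]
      push_cast
      linarith
    refine h1.trans ?_
    rw [hexpE]
    have h2 : (ε / 2) ^ 10 = ε * (ε ^ 9) / 1024 := by ring
    rw [h2]
    have h3 : ε ^ 9 ≤ 1 := pow_le_one₀ hε0.le hε1.le
    have h4 : ε * ε ^ 9 ≤ ε := mul_le_of_le_one_right hε0.le h3
    linarith
  -- the level
  obtain ⟨R1, hR1⟩ : ∃ R1, R1 = ⌊Real.exp ((m : ℝ) / 2048)⌋₊ := ⟨_, rfl⟩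
  have hR1le : (R1 : ℝ) ≤ Real.exp ((m : ℝ) / 2048) := by
    rw [hR1]; exact Nat.floor_le (Real.exp_pos _).le
  have hR1one : 1 ≤ R1 := by
    rw [hR1]
    apply Nat.le_floor
    rw [Nat.cast_one]
    apply Real.one_le_exp; positivity
  have hcond := cond_holds ε h m j R1 (2 ^ h * α ^ j) hmh hj2 hx1 hR1one hR1le hZ
  have hτ : (3 / 4 : ℝ) ^ m ≤ (4 / 5) ^ m * (1 - 1 / 16) ^ m := by
    rw [← mul_pow]; norm_num
  have hb1 : (3 / 4 : ℝ) ^ m ≤ ε / 1024 := by
    refine le_trans ?_ hZ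
    have := pow_le_exp (1 / 4) (by norm_num) m
    have e : (1 - 1 / 4 : ℝ) = 3 / 4 := by norm_num
    rw [e] at this
    refine this.trans ?_
    rw [Real.exp_le_exp]; linarith
  have hlow : (3 / 4 : ℝ) ^ m ≤ 1 / 2 := by linarith
  have hsdp := mu_sdp φ hφ m j (ε / 4) α (1 / 16) hα0.le hcode (by norm_num) (by linarith) hj1
    ((1 / 8) ^ h) hξ hξ1 (by positivity) (by linarith) ((4 / 5) ^ m) (by positivity)
    (pow_le_one₀ (by norm_num) (by norm_num)) hτ hlow R1 hcond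
  -- the noise
  obtain ⟨N, hN⟩ : ∃ N : ℝ, N = Fintype.card (Fin h ⊕ Fin k) := ⟨_, rfl⟩
  have hNv : N = h + k := by rw [hN]; simp
  have hNh : (h : ℝ) ≤ N := by
    rw [hNv]
    have : (0 : ℝ) ≤ k := by positivity
    linarith
  have hNp : 0 < N := by linarith
  obtain ⟨t, ht⟩ : ∃ t, t = ⌈N * L / l⌉₊ := ⟨_, rfl⟩
  have ht1 : N * L / l ≤ t := by rw [ht]; exact Nat.le_ceil _
  have ht2 : (t : ℝ) < N * L / l + 1 := by
    rw [ht]; exact Nat.ceil_lt_add_one (by positivity)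
  refine ⟨φ, t, mu φ m j (ε / 4), ?_, ?_, ?_⟩
  · intro L' M'
    refine (value_le φ hφ t l L' M').trans ?_
    apply mul_le_mul_of_nonneg_right _ (by positivity)
    have h1 : 3 ^ l * Real.sqrt (1 / 2 ^ h) ≤ δ / 2 := by
      have h2 : Real.sqrt (1 / 2 ^ h) ≤ (1 / 4) ^ l := by
        rw [Real.sqrt_le_left (by positivity)]
        rw [← pow_mul, one_div]
        have h3 : ((1 / 4 : ℝ)) ^ (l * 2) = ((2 : ℝ) ^ (4 * l))⁻¹ := by
          rw [pow_mul 2 4 l, ← inv_pow, mul_comm l 2, pow_mul]; norm_num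
        rw [h3]
        apply inv_anti₀ (by positivity)
        exact pow_le_pow_right₀ (by norm_num) hl1
      calc 3 ^ l * Real.sqrt (1 / 2 ^ h) ≤ 3 ^ l * (1 / 4) ^ l := by gcongr
        _ = (1 - 1 / 4) ^ l := by rw [← mul_pow]; norm_num
        _ ≤ Real.exp (-(l * (1 / 4))) := pow_le_exp (1 / 4) (by norm_num) l
        _ ≤ Real.exp (-L) := by
            rw [Real.exp_le_exp, neg_le_neg_iff]
            have h4 : L ≤ ε * h / 240 / m0 := by
              rw [hm0h]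
              have : 0 < m0 := by linarith
              field_simp
              rfl
            have h5 : ε * h / 240 / m0 ≤ l * (1 / 4) := by
              have h6 : 0 < m0 := by linarith
              rw [div_div, div_le_iff₀ (by positivity)]
              have h7 : ε * h ≤ 1 * h := mul_le_mul_of_nonneg_right hε1.le hh0.le
              have h8 : l * (1 / 4) * (240 * 100) ≤ l * (1 / 4) * (240 * m0) := by
                apply mul_le_mul_of_nonneg_left _ (by positivity)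
                linarith
              linarith
            linarith
        _ = δ / 2 := hexpL
    have h2 : Real.exp (-(t * l / Fintype.card (Fin h ⊕ Fin k))) ≤ δ / 2 := by
      rw [← hexpL, Real.exp_le_exp, neg_le_neg_iff, ← hN, le_div_iff₀ hNp]
      have h3 := mul_le_mul_of_nonneg_right ht1 hlp.le
      have h4 : N * L / l * l = N * L := by field_simp
      linarith
    linarith
  · intro R hR
    have hRR1 : R ≤ R1 := by
      rw [hR1]
      apply Nat.le_floor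
      refine hR.trans ?_
      have h1 : ((2 : ℝ) ^ h) ^ (ε / (2 ^ 20 * L)) =
          Real.exp (h * Real.log 2 * (ε / (2 ^ 20 * L))) := by
        rw [Real.rpow_def_of_pos (by positivity), Real.log_pow]
      rw [h1, Real.exp_le_exp]
      have h2 : h * Real.log 2 * (ε / (2 ^ 20 * L)) = Real.log 2 * (240 * m0) / 2 ^ 20 := by
        have : h * Real.log 2 * (ε / (2 ^ 20 * L)) = Real.log 2 * (ε * h) / (2 ^ 20 * L) := by
          ring
        rw [this, hm0h]; field_simp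
      rw [h2]
      have h3 : Real.log 2 * (240 * m0) ≤ 0.7 * (240 * m0) := by
        apply mul_le_mul_of_nonneg_right (by linarith) (by positivity)
      linarith
    constructor
    · exact hsdp.psd
    · intro S hS
      exact hsdp.loc S (hS.trans hRR1)
  · refine le_trans ?_ (objective_ge φ hφ m j (ε / 4) α hα0.le hcode hj1 ((1 / 8) ^ h) hξ hξ1
      (by positivity) (by linarith) t)
    apply mul_le_mul_of_nonneg_right _ (by positivity)
    rw [← hN]
    have h1 : 2 * t * m / N ≤ ε / 8 := by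
      rw [div_le_iff₀ hNp]
      have h2 : (t : ℝ) * m ≤ (N * L / l + 1) * m := by
        apply mul_le_mul_of_nonneg_right ht2.le (by positivity)
      have h3 : N * L / l * m ≤ N * (ε / 48) := by
        have h4 : L * m ≤ (ε / 48) * l := by
          have h5 : L * m ≤ L * m0 := mul_le_mul_of_nonneg_left hmle hLp.le
          have h6 : L * m0 = ε * h / 240 := by rw [hm0h]; ring
          have h7 : ε * h ≤ ε * (5 * l) := mul_le_mul_of_nonneg_left hl2r hε0.le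
          linarith
        calc N * L / l * m = N * (L * m) / l := by ring
          _ ≤ N * ((ε / 48) * l) / l := by
              apply div_le_div_of_nonneg_right _ hlp.le
              exact mul_le_mul_of_nonneg_left h4 hNp.le
          _ = N * (ε / 48) := by field_simp
      have h4 : (m : ℝ) ≤ N * (ε / 160) := by
        have h5 : 240 * L * m0 ≤ ε * N := by
          rw [← hm0h]; exact mul_le_mul_of_nonneg_left hNh hε0.le
        have h6 : 240 * 0.69 * m0 ≤ 240 * L * m0 := by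
          apply mul_le_mul_of_nonneg_right _ hm0p
          linarith
        linarith
      linarith
    have h2 : (1 / 8 : ℝ) ^ h ≤ ε / 1024 := by
      refine le_trans ?_ hZ
      have := pow_le_exp (7 / 8) (by norm_num) h
      have e : (1 - 7 / 8 : ℝ) = 1 / 8 := by norm_num
      rw [e] at this
      refine this.trans ?_
      rw [Real.exp_le_exp]; linarith
    have h3 : 1 - ε / 4 ≤ 1 - 2 * t * m / N - (3 / 4) ^ m - 2 * (1 / 8) ^ h := by linarith
    have h4 : (1 - ε / 4) * (1 - ε / 4) ≤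
        (1 - ε / 4) * (1 - 2 * t * m / N - (3 / 4) ^ m - 2 * (1 / 8) ^ h) :=
      mul_le_mul_of_nonneg_left h3 (by linarith)
    nlinarith

end Pool.Agent.KS6_6.UG
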