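import Pool.Agent.KS6_6.UG.Kernel

set_option autoImplicit false

/-!
A positive semidefinite kernel which is almost orthogonal on a linear code is made exactly
orthogonal.
-/

namespace Pool.Agent.KS6_6.UG

open Finset

theorem walsh_zero {X : Type} (S : Finset X) : walsh S (0 : X → Bool) = 1 := by
  unfold walsh
  exact Finset.prod_eq_one fun i _ => rfl

theorem walsh_abs {X : Type} (S : Finset X) (x : X → Bool) : |walsh S x| = 1 := by
  unfold walsh
  rw [Finset.abs_prod]
  exact Finset.prod_eq_one fun i _ => sg_abs _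

theorem sum_walsh_set {X : Type} [Fintype X] [DecidableEq X] (x : X → Bool) :
    ∑ S : Finset X, walsh S x = if x = 0 then (2 : ℝ) ^ Fintype.card X else 0 := by
  have h := walsh_complete x (0 : X → Bool)
  simp only [walsh_zero, mul_one] at h
  exact h

theorem sum_walsh_pt {X : Type} [Fintype X] [DecidableEq X] (S : Finset X) :
    ∑ x : X → Bool, walsh S x = if S = ∅ then (2 : ℝ) ^ Fintype.card X else 0 := by
  have h := walsh_orth S (∅ : Finset X)
  simp only [walsh_empty, mul_one] at h
  exact h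

section

variable {X : Type} {h : ℕ}
  (hd : (Fin h → Bool) → X → Bool) (hadd : ∀ a b, hd (a + b) = hd a + hd b)
  (K : (X → Bool) → ℝ)

/-- Component of the kernel for a character of the code. -/
noncomputable def kc (c : Finset (Fin h)) (x : X → Bool) : ℝ :=
  (∑ d : Fin h → Bool, walsh c d * K (x + hd d)) / 2 ^ h

include hadd in
theorem hd_zero : hd 0 = 0 := by
  have h1 := hadd 0 0
  rw [add_zero] at h1
  have h2 := pi_add_self (hd 0)
  rw [h2] at h1
  exact h1

include hadd in
theorem kc_shift (c : Finset (Fin h)) (x : X → Bool) (b : Fin h → Bool) :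
    kc hd K c (x + hd b) = walsh c b * kc hd K c x := by
  unfold kc
  rw [← mul_div_assoc]
  congr 1
  rw [Finset.mul_sum]
  rw [← Equiv.sum_comp (Equiv.addRight b)
    (fun d => walsh c d * K (x + hd b + hd d))]
  refine Finset.sum_congr rfl fun d _ => ?_
  simp only [Equiv.coe_addRight]
  rw [walsh_add, hadd]
  have e : x + hd b + (hd d + hd b) = x + hd d := by
    calc x + hd b + (hd d + hd b) = x + hd d + (hd b + hd b) := by abel
      _ = x + hd d := by rw [pi_add_self, add_zero]
  rw [e]; ring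

include hadd in
theorem kc_psd (hK : PSDK K) (c : Finset (Fin h)) : PSDK (kc hd K c) := by
  intro ι _ f g
  have h1 := hK (ι × (Fin h → Bool)) (fun p => f p.1 * walsh c p.2) (fun p => g p.1 + hd p.2)
  have h2 : ∑ p : ι × (Fin h → Bool), ∑ p' : ι × (Fin h → Bool),
      (f p.1 * walsh c p.2) * (f p'.1 * walsh c p'.2) * K (g p.1 + hd p.2 + (g p'.1 + hd p'.2)) =
      (2 ^ h) ^ 2 * ∑ i, ∑ j, f i * f j * kc hd K c (g i + g j) := by
    have h3 : ∀ (i j : ι) (b : Fin h → Bool), ∑ d, walsh c d * walsh c b *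
        K (g i + hd d + (g j + hd b)) = 2 ^ h * kc hd K c (g i + g j) := by
      intro i j b
      unfold kc
      rw [mul_div_cancel₀ _ (by positivity)]
      rw [← Equiv.sum_comp (Equiv.addRight b)
        (fun d => walsh c d * K (g i + g j + hd d))]
      refine Finset.sum_congr rfl fun d _ => ?_
      simp only [Equiv.coe_addRight]
      rw [walsh_add, hadd]
      congr 2
      abel
    simp only [Fintype.sum_prod_type]
    have h4 : ∀ i : ι, ∑ d : Fin h → Bool, ∑ j : ι, ∑ b : Fin h → Bool,
        (f i * walsh c d) * (f j * walsh c b) * K (g i + hd d + (g j + hd b)) =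
        ∑ j : ι, (2 ^ h) ^ 2 * (f i * f j * kc hd K c (g i + g j)) := by
      intro i
      rw [Finset.sum_comm]
      refine Finset.sum_congr rfl fun j _ => ?_
      rw [Finset.sum_comm]
      have h5 : ∀ b : Fin h → Bool, ∑ d : Fin h → Bool,
          (f i * walsh c d) * (f j * walsh c b) * K (g i + hd d + (g j + hd b)) =
          f i * f j * (2 ^ h * kc hd K c (g i + g j)) := by
        intro b
        rw [← h3 i j b, Finset.mul_sum]
        exact Finset.sum_congr rfl fun d _ => by ring
      simp only [h5, Finset.sum_const, Finset.card_univ, nsmul_eq_mul, Fintype.card_fun,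
        Fintype.card_bool, Fintype.card_fin]
      push_cast
      ring
    simp only [h4, Finset.mul_sum]
  rw [h2] at h1
  have h3 : (0 : ℝ) < (2 ^ h) ^ 2 := by positivity
  exact nonneg_of_mul_nonneg_right h1 h3

theorem psdk_two (K : (X → Bool) → ℝ) (hK : PSDK K) (x : X → Bool) : |K x| ≤ K 0 := by
  have h1 := hK Bool (fun _ => 1) (fun b => if b then x else 0)
  have h2 := hK Bool (fun b => if b then -1 else 1) (fun b => if b then x else 0)
  simp only [Fintype.sum_bool, if_true, pi_add_self] at h1 h2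
  simp at h1 h2
  rw [abs_le]
  constructor <;> linarith

/-- Sum of the kernel over a coset of the code. -/
noncomputable def cosetSum (x : X → Bool) : ℝ := ∑ d, K (x + hd d)

/-- The orthogonalized kernel. -/
noncomputable def kap (x : X → Bool) : ℝ :=
  1 / 2 ^ h + ∑ c ∈ (Finset.univ : Finset (Finset (Fin h))).erase ∅,
    kc hd K c x / (2 ^ h * kc hd K c 0)

variable (hK : PSDK K) (hK1 : K 0 = 1) (ξ : ℝ)
  (hξ : ∑ d ∈ (Finset.univ : Finset (Fin h → Bool)).erase 0, |K (hd d)| ≤ ξ) (hξ1 : ξ < 1)

include hadd hK1 hξ in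
theorem kc_mass (c : Finset (Fin h)) : |2 ^ h * kc hd K c 0 - 1| ≤ ξ := by
  have h0 : (2 : ℝ) ^ h ≠ 0 := by positivity
  unfold kc
  rw [mul_div_cancel₀ _ h0, ← Finset.add_sum_erase _ _ (Finset.mem_univ (0 : Fin h → Bool)),
    walsh_zero, hd_zero hd hadd, add_zero, hK1, mul_one, add_sub_cancel_left]
  refine (Finset.abs_sum_le_sum_abs _ _).trans (le_trans (le_of_eq ?_) hξ)
  refine Finset.sum_congr rfl fun d _ => ?_
  rw [abs_mul, walsh_abs, one_mul, zero_add]

include hadd hK1 hξ hξ1 in
theorem kc_pos (c : Finset (Fin h)) : 0 < kc hd K c 0 := by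
  have h1 := kc_mass hd hadd K hK1 ξ hξ c
  have h2 := (abs_le.mp h1).1
  have h3 : 0 < 2 ^ h * kc hd K c 0 := by linarith
  exact (mul_pos_iff_of_pos_left (by positivity)).mp h3

include hadd hK hK1 hξ hξ1 in
theorem kap_psd : PSDK (kap hd K) := by
  have h1 : PSDK (fun _ : X → Bool => (1 : ℝ)) := by
    intro ι _ f g
    have : ∑ i, ∑ j, f i * f j * 1 = (∑ i, f i) ^ 2 := by
      simp only [mul_one, ← Finset.mul_sum]
      rw [sq, Finset.sum_mul]
    rw [this]
    exact sq_nonneg _
  have h2 : ∀ c, PSDK (fun x => kc hd K c x / (2 ^ h * kc hd K c 0)) := by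
    intro c
    have h3 := psdk_smul (1 / (2 ^ h * kc hd K c 0))
      (by have := kc_pos hd hadd K hK1 ξ hξ hξ1 c; positivity) _ (kc_psd hd hadd K hK c)
    intro ι _ f g
    have h4 := h3 ι f g
    simp only [one_div, inv_mul_eq_div] at h4
    exact h4
  intro ι _ f g
  have e1 : ∀ x, kap hd K x = 1 / 2 ^ h * 1 +
      ∑ c ∈ (Finset.univ : Finset (Finset (Fin h))).erase ∅,
        kc hd K c x / (2 ^ h * kc hd K c 0) := by
    intro x; rw [mul_one]; rfl
  simp only [e1, mul_add, Finset.sum_add_distrib]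
  apply add_nonneg
  · have := psdk_smul (1 / 2 ^ h : ℝ) (by positivity) _ h1 ι f g
    simpa using this
  · have := psdk_sum ((Finset.univ : Finset (Finset (Fin h))).erase ∅) _ (fun c _ => h2 c) ι f g
    exact this

include hadd hK1 hξ hξ1 in
theorem kap_code (d : Fin h → Bool) : kap hd K (hd d) = if d = 0 then 1 else 0 := by
  unfold kap
  have h0 : (2 : ℝ) ^ h ≠ 0 := by positivity
  have h1 : ∀ c, kc hd K c (hd d) / (2 ^ h * kc hd K c 0) = walsh c d / 2 ^ h := by
    intro c
    have h2 := kc_shift hd hadd K c 0 d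
    rw [zero_add] at h2
    rw [h2]
    have h3 := (kc_pos hd hadd K hK1 ξ hξ hξ1 c).ne'
    field_simp
  simp only [h1]
  rw [← Finset.sum_div, ← add_div]
  have h2 : 1 + ∑ c ∈ (Finset.univ : Finset (Finset (Fin h))).erase ∅, walsh c d =
      ∑ c : Finset (Fin h), walsh c d := by
    rw [← Finset.add_sum_erase _ _ (Finset.mem_univ (∅ : Finset (Fin h))), walsh_empty]
  rw [h2, sum_walsh_set, Fintype.card_fin]
  by_cases hd0 : d = 0
  · rw [if_pos hd0, if_pos hd0, div_self h0]
  · rw [if_neg hd0, if_neg hd0, zero_div]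

include hadd in
theorem kap_sum (x : X → Bool) : ∑ d, kap hd K (x + hd d) = 1 := by
  unfold kap
  have h0 : (2 : ℝ) ^ h ≠ 0 := by positivity
  rw [Finset.sum_add_distrib, Finset.sum_comm]
  have h1 : ∀ c ∈ (Finset.univ : Finset (Finset (Fin h))).erase ∅,
      ∑ d : Fin h → Bool, kc hd K c (x + hd d) / (2 ^ h * kc hd K c 0) = 0 := by
    intro c hc
    simp only [kc_shift hd hadd K c x]
    rw [← Finset.sum_div, ← Finset.sum_mul, sum_walsh_pt, if_neg (Finset.ne_of_mem_erase hc),
      zero_mul, zero_div]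
  rw [Finset.sum_congr rfl h1, Finset.sum_const_zero, add_zero, Finset.sum_const,
    Finset.card_univ, nsmul_eq_mul, Fintype.card_fun, Fintype.card_bool, Fintype.card_fin]
  push_cast
  field_simp

include hadd in
theorem sum_kc (x : X → Bool) : ∑ c, kc hd K c x = K x := by
  unfold kc
  rw [← Finset.sum_div, Finset.sum_comm]
  have h0 : (2 : ℝ) ^ h ≠ 0 := by positivity
  have h1 : ∀ d : Fin h → Bool, ∑ c : Finset (Fin h), walsh c d * K (x + hd d) =
      if d = 0 then 2 ^ h * K x else 0 := by
    intro d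
    rw [← Finset.sum_mul, sum_walsh_set, Fintype.card_fin]
    by_cases hd0 : d = 0
    · rw [if_pos hd0, if_pos hd0, hd0, hd_zero hd hadd, add_zero]
    · rw [if_neg hd0, if_neg hd0, zero_mul]
  simp only [h1, Finset.sum_ite_eq', Finset.mem_univ, if_true]
  field_simp

include hadd hK hK1 hξ hξ1 in
theorem kap_close (x : X → Bool) :
    |kap hd K x - (K x + (1 - cosetSum hd K x) / 2 ^ h)| ≤ ξ := by
  have h0 : (0 : ℝ) < 2 ^ h := by positivity
  have e0 : kc hd K ∅ x = cosetSum hd K x / 2 ^ h := by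
    unfold kc cosetSum
    simp only [walsh_empty, one_mul]
  have e1 : K x - cosetSum hd K x / 2 ^ h =
      ∑ c ∈ (Finset.univ : Finset (Finset (Fin h))).erase ∅, kc hd K c x := by
    rw [← e0, ← sum_kc hd hadd K x,
      ← Finset.add_sum_erase _ _ (Finset.mem_univ (∅ : Finset (Fin h)))]
    ring
  have e2 : kap hd K x - (K x + (1 - cosetSum hd K x) / 2 ^ h) =
      ∑ c ∈ (Finset.univ : Finset (Finset (Fin h))).erase ∅,
        (kc hd K c x / (2 ^ h * kc hd K c 0) - kc hd K c x) := by
    rw [Finset.sum_sub_distrib, ← e1]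
    unfold kap
    ring
  rw [e2]
  refine (Finset.abs_sum_le_sum_abs _ _).trans ?_
  have h1 : ∀ c ∈ (Finset.univ : Finset (Finset (Fin h))).erase ∅,
      |kc hd K c x / (2 ^ h * kc hd K c 0) - kc hd K c x| ≤ ξ / 2 ^ h := by
    intro c _
    have hp := kc_pos hd hadd K hK1 ξ hξ hξ1 c
    have hm := kc_mass hd hadd K hK1 ξ hξ c
    have hb := psdk_two _ (kc_psd hd hadd K hK c) x
    have e3 : kc hd K c x / (2 ^ h * kc hd K c 0) - kc hd K c x =
        (kc hd K c x / kc hd K c 0) * ((1 - 2 ^ h * kc hd K c 0) / 2 ^ h) := by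
      field_simp
    rw [e3, abs_mul, abs_div, abs_div, abs_of_pos h0, abs_of_pos hp, abs_sub_comm]
    calc |kc hd K c x| / kc hd K c 0 * (|2 ^ h * kc hd K c 0 - 1| / 2 ^ h)
        ≤ 1 * (ξ / 2 ^ h) := by
          apply mul_le_mul
          · rw [div_le_one hp]; exact hb
          · gcongr
          · positivity
          · norm_num
      _ = ξ / 2 ^ h := one_mul _
  have hξ0 : 0 ≤ ξ := le_trans (Finset.sum_nonneg fun _ _ => abs_nonneg _) hξ
  refine (Finset.sum_le_sum h1).trans ?_
  rw [Finset.sum_const, nsmul_eq_mul]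
  have h2 : (((Finset.univ : Finset (Finset (Fin h))).erase ∅).card : ℝ) ≤ 2 ^ h := by
    have h3 : ((Finset.univ : Finset (Finset (Fin h))).erase ∅).card ≤ 2 ^ h := by
      refine (Finset.card_erase_le).trans ?_
      rw [Finset.card_univ, Fintype.card_finset, Fintype.card_fin]
    exact_mod_cast h3
  calc (((Finset.univ : Finset (Finset (Fin h))).erase ∅).card : ℝ) * (ξ / 2 ^ h)
      ≤ 2 ^ h * (ξ / 2 ^ h) := by
        apply mul_le_mul_of_nonneg_right h2; positivity
    _ = ξ := by field_simp

include hadd in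
theorem cosetSum_shift (x : X → Bool) (b : Fin h → Bool) :
    cosetSum hd K (x + hd b) = cosetSum hd K x := by
  unfold cosetSum
  rw [← Equiv.sum_comp (Equiv.addRight b) (fun d => K (x + hd b + hd d))]
  refine Finset.sum_congr rfl fun d _ => ?_
  simp only [Equiv.coe_addRight]
  rw [hadd]
  congr 1
  calc x + hd b + (hd d + hd b) = x + hd d + (hd b + hd b) := by abel
    _ = x + hd d := by rw [pi_add_self, add_zero]

end

end Pool.Agent.KS6_6.UG
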