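import Pool.Agent.KS6_6.UG.Smooth

set_option autoImplicit false

/-!
Random labelings which are uniform on the classes of an equivalence relation up to given shifts.
-/

namespace Pool.Agent.KS6_6.UG

open Finset

section

variable {V A : Type} [Fintype V] [DecidableEq V] [Fintype A] [DecidableEq A] [AddCommGroup A]

/-- Representative of the class of a vertex. -/
noncomputable def rep (r : Setoid V) (u : V) : V := (Quotient.mk r u).out

omit [Fintype V] [DecidableEq V] in
theorem rep_rel (r : Setoid V) (u : V) : r (rep r u) u := Quotient.mk_out u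

omit [Fintype V] [DecidableEq V] in
theorem rep_eq (r : Setoid V) (u v : V) (h : r u v) : rep r u = rep r v := by
  unfold rep
  rw [Quotient.sound h]

omit [Fintype V] [DecidableEq V] in
theorem rep_ne (r : Setoid V) (u v : V) (h : ¬ r u v) : rep r u ≠ rep r v := by
  intro h1
  apply h
  have h2 := rep_rel r u
  have h3 := rep_rel r v
  rw [h1] at h2
  exact r.trans (r.symm h2) h3

/-- Labeling given by labels of the representatives. -/
noncomputable def spread (r : Setoid V) (D : V → V → A) (Y : V → A) (u : V) : A :=
  Y (rep r u) + D u (rep r u)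

/-- Law of the random labeling. -/
noncomputable def law (r : Setoid V) (D : V → V → A) (x : V → A) : ℝ :=
  (∑ Y : V → A, if spread r D Y = x then (1 : ℝ) else 0) /
    (Fintype.card A : ℝ) ^ Fintype.card V

theorem law_nonneg (r : Setoid V) (D : V → V → A) (x : V → A) : 0 ≤ law r D x := by
  unfold law
  apply div_nonneg _ (by positivity)
  apply Finset.sum_nonneg
  intro Y _
  split_ifs <;> norm_num

theorem sum_law (r : Setoid V) (D : V → V → A) (F : (V → A) → Prop) [DecidablePred F] :
    ∑ x, (if F x then law r D x else 0) =
      (∑ Y : V → A, if F (spread r D Y) then (1 : ℝ) else 0) /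
        (Fintype.card A : ℝ) ^ Fintype.card V := by
  have h1 : ∀ x, (if F x then law r D x else 0) =
      (∑ Y : V → A, if spread r D Y = x then (if F x then (1 : ℝ) else 0) else 0) /
        (Fintype.card A : ℝ) ^ Fintype.card V := by
    intro x
    unfold law
    by_cases h : F x
    · simp only [h, if_true]
    · simp only [h, if_false]
      simp
  simp only [h1]
  rw [← Finset.sum_div, Finset.sum_comm]
  congr 1
  refine Finset.sum_congr rfl fun Y _ => ?_
  rw [Finset.sum_ite_eq]
  simp

theorem law_sum (r : Setoid V) (D : V → V → A) : ∑ x, law r D x = 1 := by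
  have h := sum_law r D (fun _ => True)
  simp only [if_true] at h
  rw [h, Finset.sum_const, Finset.card_univ, nsmul_eq_mul, mul_one, Fintype.card_fun]
  push_cast
  have hq : (Fintype.card A : ℝ) ≠ 0 := by exact_mod_cast Fintype.card_ne_zero
  exact div_self (pow_ne_zero _ hq)

theorem law_one (r : Setoid V) (D : V → V → A) (u : V) (a : A) :
    ∑ x, (if x u = a then law r D x else 0) = 1 / Fintype.card A := by
  rw [sum_law r D (fun x => x u = a)]
  have hq : (Fintype.card A : ℝ) ≠ 0 := by exact_mod_cast Fintype.card_ne_zero
  have h1 : ∀ Y : V → A, (if spread r D Y u = a then (1 : ℝ) else 0) =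
      if Y (rep r u) = a - D u (rep r u) then 1 else 0 := by
    intro Y
    unfold spread
    simp only [eq_sub_iff_add_eq]
  simp only [h1]
  have h2 := sum_one_fix (V := V) (A := A) (rep r u) (a - D u (rep r u))
  rw [div_eq_div_iff (pow_ne_zero _ hq) hq, ← h2]
  ring

open Classical in
theorem law_two (r : Setoid V) (D : V → V → A)
    (hD : ∀ u v w, r u v → r v w → D u v + D v w = D u w) (u v : V) (a b : A) :
    marg (law r D) u v a b =
      if r u v then (if a = b + D u v then 1 / (Fintype.card A : ℝ) else 0)
      else 1 / (Fintype.card A : ℝ) ^ 2 := by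
  unfold marg
  rw [sum_law r D (fun x => x u = a ∧ x v = b)]
  have hq : (Fintype.card A : ℝ) ≠ 0 := by exact_mod_cast Fintype.card_ne_zero
  have h1 : ∀ Y : V → A, (if spread r D Y u = a ∧ spread r D Y v = b then (1 : ℝ) else 0) =
      if Y (rep r u) = a - D u (rep r u) ∧ Y (rep r v) = b - D v (rep r v) then 1 else 0 := by
    intro Y
    unfold spread
    simp only [eq_sub_iff_add_eq]
  simp only [h1]
  by_cases hr : r u v
  · rw [if_pos hr]
    have e1 : rep r u = rep r v := rep_eq r u v hr
    have e2 : D u (rep r v) = D u v + D v (rep r v) :=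
      (hD u v (rep r v) hr (r.symm (rep_rel r v))).symm
    simp only [e1]
    by_cases hab : a = b + D u v
    · rw [if_pos hab]
      have e3 : a - D u (rep r v) = b - D v (rep r v) := by
        rw [e2, hab]; abel
      simp only [e3, and_self]
      have h2 := sum_one_fix (V := V) (A := A) (rep r v) (b - D v (rep r v))
      rw [div_eq_div_iff (pow_ne_zero _ hq) hq, ← h2]
      ring
    · rw [if_neg hab]
      have : ∀ Y : V → A, (if Y (rep r v) = a - D u (rep r v) ∧
          Y (rep r v) = b - D v (rep r v) then (1 : ℝ) else 0) = 0 := by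
        intro Y
        rw [if_neg]
        rintro ⟨h3, h4⟩
        apply hab
        rw [h3, e2] at h4
        have h5 : a = b - D v (rep r v) + (D u v + D v (rep r v)) := by
          rw [← h4]; abel
        rw [h5]; abel
      simp only [this]
      simp
  · rw [if_neg hr]
    have e1 : rep r u ≠ rep r v := rep_ne r u v hr
    have h2 := sum_two_fix (V := V) (A := A) (rep r u) (rep r v) e1 (a - D u (rep r u))
      (b - D v (rep r v))
    rw [div_eq_div_iff (pow_ne_zero _ hq) (pow_ne_zero _ hq), ← h2]
    ring

open Classical in
/-- Mixtures of such laws. -/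
theorem cluster_mix {Ω : Type} [Fintype Ω] (w : Ω → ℝ) (hw0 : ∀ T, 0 ≤ w T)
    (hw1 : ∑ T, w T = 1) (r : Ω → Setoid V) (D : V → V → A)
    (hD : ∀ T u v w, r T u v → r T v w → D u v + D v w = D u w) :
    ∃ P : (V → A) → ℝ, (∀ x, 0 ≤ P x) ∧ ∑ x, P x = 1 ∧
      (∀ u a, ∑ x, (if x u = a then P x else 0) = 1 / Fintype.card A) ∧
      ∀ u v a b, marg P u v a b =
        (∑ T, w T * if r T u v then 1 else 0) *
          (if a = b + D u v then 1 / (Fintype.card A : ℝ) else 0) +
        (1 - ∑ T, w T * if r T u v then 1 else 0) / (Fintype.card A : ℝ) ^ 2 := by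
  have hmix : ∀ F : (V → A) → Prop, ∀ _ : DecidablePred F,
      ∑ x, (if F x then ∑ T, w T * law (r T) D x else 0) =
        ∑ T, w T * ∑ x, (if F x then law (r T) D x else 0) := by
    intro F _
    have h1 : ∀ x, (if F x then ∑ T, w T * law (r T) D x else 0) =
        ∑ T, w T * (if F x then law (r T) D x else 0) := by
      intro x
      by_cases h : F x <;> simp [h]
    simp only [h1]
    rw [Finset.sum_comm]
    exact Finset.sum_congr rfl fun T _ => by rw [Finset.mul_sum]
  refine ⟨fun x => ∑ T, w T * law (r T) D x, ?_, ?_, ?_, ?_⟩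
  · intro x
    exact Finset.sum_nonneg fun T _ => mul_nonneg (hw0 T) (law_nonneg _ _ _)
  · rw [Finset.sum_comm]
    simp only [← Finset.mul_sum, law_sum, mul_one, hw1]
  · intro u a
    rw [hmix (fun x => x u = a) inferInstance]
    simp only [law_one]
    rw [← Finset.sum_mul, hw1, one_mul]
  · intro u v a b
    unfold marg
    rw [hmix (fun x => x u = a ∧ x v = b) inferInstance]
    have h2 : ∀ T, ∑ x : V → A, (if x u = a ∧ x v = b then law (r T) D x else 0) =
        if r T u v then (if a = b + D u v then 1 / (Fintype.card A : ℝ) else 0)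
        else 1 / (Fintype.card A : ℝ) ^ 2 := fun T => law_two (r T) D (hD T) u v a b
    simp only [h2]
    generalize (if a = b + D u v then 1 / (Fintype.card A : ℝ) else 0) = X
    generalize (Fintype.card A : ℝ) ^ 2 = Z
    have h3 : ∀ T, w T * (if r T u v then X else 1 / Z) =
        (w T * if r T u v then 1 else 0) * X + (w T - w T * if r T u v then 1 else 0) * (1 / Z) := by
      intro T
      by_cases h : r T u v
      · simp only [if_pos h]; ring
      · simp only [if_neg h]; ring
    simp only [h3]
    rw [Finset.sum_add_distrib, ← Finset.sum_mul, ← Finset.sum_mul, Finset.sum_sub_distrib, hw1]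
    ring

end

end Pool.Agent.KS6_6.UG
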