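import Pool.Agent.KS6_6.UG.Game

set_option autoImplicit false

/-!
Value of the solution of the relaxation, and existence of the linear code.
-/

namespace Pool.Agent.KS6_6.UG

open Finset

section

variable {h k : ℕ} (φ : (Fin h → Bool) → (Fin k → Bool))
  (hφ : ∀ a b, φ (a + b) = φ a + φ b)
variable (m j : ℕ) (lam : ℝ)
variable [Nonempty (Fin h ⊕ Fin k)]
variable (α : ℝ) (hα0 : 0 ≤ α) (hcode : ∀ d, d ≠ 0 → |rho (pt φ 0 d)| ≤ α)
  (hj : 16 * j ≤ m) (ξ : ℝ)
  (hξ : 2 ^ h * α ^ (4 * j) ≤ ξ) (hξ1 : ξ < 1)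
  (hl0 : 0 ≤ lam) (hl1 : lam ≤ 1)

include hφ hcode hα0 hj hξ hξ1 in
theorem kap_noise {t : ℕ} (r : Fin t → (Fin h ⊕ Fin k) × Bool) :
    1 - 2 * t * m / Fintype.card (Fin h ⊕ Fin k) - (3 / 4) ^ m - 2 * ξ ≤
      kap (pt φ 0) (kx m (2 * j)) (nu r) := by
  have hq : (1 : ℝ) ≤ 2 ^ h := one_le_pow₀ (by norm_num)
  have hξ0 : 0 ≤ ξ := le_trans (by positivity) hξ
  have hm := code_mass φ α hα0 hcode m j hj ξ hξ
  have hk := kap_close (pt φ 0) (hd_add φ hφ) (kx m (2 * j)) (kx_psd m (2 * j))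
    (kx_zero m (2 * j) (by omega)) ξ hm hξ1 (nu r)
  have hk1 := (abs_le.mp hk).1
  -- the sum over the coset
  have hs : cosetSum (pt φ 0) (kx m (2 * j)) (nu r) ≤ 1 + ξ := by
    have h1 := psdk_two _ (kc_psd (pt φ 0) (hd_add φ hφ) (kx m (2 * j)) (kx_psd m (2 * j)) ∅) (nu r)
    have h2 := kc_mass (pt φ 0) (hd_add φ hφ) (kx m (2 * j))
      (kx_zero m (2 * j) (by omega)) ξ hm ∅
    have h3 : cosetSum (pt φ 0) (kx m (2 * j)) (nu r) =
        2 ^ h * kc (pt φ 0) (kx m (2 * j)) ∅ (nu r) := by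
      unfold kc cosetSum
      simp only [walsh_empty, one_mul]
      field_simp
    rw [h3]
    have h4 := (abs_le.mp h2).2
    have h5 : kc (pt φ 0) (kx m (2 * j)) ∅ (nu r) ≤ kc (pt φ 0) (kx m (2 * j)) ∅ 0 :=
      (le_abs_self _).trans h1
    have h6 := mul_le_mul_of_nonneg_left h5 (by linarith : (0 : ℝ) ≤ 2 ^ h)
    linarith
  have h1 : -ξ ≤ (1 - cosetSum (pt φ 0) (kx m (2 * j)) (nu r)) / 2 ^ h := by
    rw [le_div_iff₀ (by linarith)]
    have : ξ * 1 ≤ ξ * 2 ^ h := mul_le_mul_of_nonneg_left hq hξ0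
    linarith
  have h2 := kt_ge m (2 * j) (by omega) (rho (nu r) ^ 2) (sq_nonneg _) (rho_sq_le _)
  have h3 := rho_nu r
  have h4 : 1 - 2 * t * m / Fintype.card (Fin h ⊕ Fin k) ≤ ((1 + rho (nu r) ^ 2) / 2) ^ m := by
    have hr0 := abs_nonneg (rho (nu r))
    have hr1 := rho_abs (nu r)
    have h5 : |rho (nu r)| ≤ (1 + rho (nu r) ^ 2) / 2 := by
      rw [← sq_abs]
      nlinarith [sq_nonneg (1 - |rho (nu r)|)]
    have h6 : |rho (nu r)| ^ m ≤ ((1 + rho (nu r) ^ 2) / 2) ^ m := pow_le_pow_left₀ hr0 h5 m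
    have h7 : 1 + (m : ℝ) * (|rho (nu r)| - 1) ≤ (1 + (|rho (nu r)| - 1)) ^ m :=
      one_add_mul_le_pow (by linarith) m
    have h8 : (1 + (|rho (nu r)| - 1)) = |rho (nu r)| := by ring
    rw [h8] at h7
    have h9 : (m : ℝ) * (1 - |rho (nu r)|) ≤ m * (2 * t / Fintype.card (Fin h ⊕ Fin k)) :=
      mul_le_mul_of_nonneg_left h3 (by positivity)
    have h10 : (m : ℝ) * (2 * t / Fintype.card (Fin h ⊕ Fin k)) =
        2 * t * m / Fintype.card (Fin h ⊕ Fin k) := by ring
    linarith
  have h5 : kx m (2 * j) (nu r) = kt m (2 * j) (rho (nu r) ^ 2) := rfl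
  linarith

include hφ hcode hα0 hj hξ hξ1 hl0 hl1 in
theorem objective_ge (t : ℕ) :
    (1 - lam) * (1 - 2 * t * m / Fintype.card (Fin h ⊕ Fin k) - (3 / 4) ^ m - 2 * ξ) *
        Fintype.card (Edg h k t) ≤
      ∑ e : Edg h k t, ∑ b, mu φ m j lam (Sum.inl e.1, b) (Sum.inr (tgt φ e), prm e b) := by
  have h1 : ∀ e : Edg h k t,
      (1 - lam) * (1 - 2 * t * m / Fintype.card (Fin h ⊕ Fin k) - (3 / 4) ^ m - 2 * ξ) ≤
      ∑ b, mu φ m j lam (Sum.inl e.1, b) (Sum.inr (tgt φ e), prm e b) := by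
    intro e
    have h2 : ∀ b, (1 - lam) * (kap (pt φ 0) (kx m (2 * j)) (nu e.2) / 2 ^ h) ≤
        mu φ m j lam (Sum.inl e.1, b) (Sum.inr (tgt φ e), prm e b) := by
      intro b
      unfold mu mu0
      have h3 : prj (Sum.inl e.1 : (Fin k → Bool) ⊕ (Fin k → Bool)) = e.1 := rfl
      have h4 : prj (Sum.inr (tgt φ e) : (Fin k → Bool) ⊕ (Fin k → Bool)) = tgt φ e := rfl
      simp only [h3, h4]
      have h5 : pairw φ m j e.1 (tgt φ e) b (prm e b) =
          kap (pt φ 0) (kx m (2 * j)) (nu e.2) / 2 ^ h := by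
        unfold pairw
        have h6 : e.1 + tgt φ e = nuB e.2 + φ (nuA e.2) := by
          unfold tgt
          rw [← add_assoc, pi_add_self, zero_add]
        have h7 : b + prm e b = nuA e.2 := by
          unfold prm
          rw [Equiv.coe_addRight, ← add_assoc, pi_add_self, zero_add]
        rw [h6, h7, pt_noise]
      rw [h5]
      have h8 : 0 ≤ lam * (if e.1 = tgt φ e then (if b = prm e b then (1 : ℝ) / 2 ^ h else 0)
          else 1 / (2 ^ h) ^ 2) := by
        apply mul_nonneg hl0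
        split_ifs <;> positivity
      linarith
    refine le_trans ?_ (Finset.sum_le_sum fun b _ => h2 b)
    rw [Finset.sum_const, Finset.card_univ, nsmul_eq_mul, Fintype.card_fun, Fintype.card_bool,
      Fintype.card_fin]
    have h9 := kap_noise φ hφ m j α hα0 hcode hj ξ hξ hξ1 e.2
    have h10 := mul_le_mul_of_nonneg_left h9 (by linarith : 0 ≤ 1 - lam)
    refine h10.trans (le_of_eq ?_)
    push_cast
    field_simp
  have h2 := Finset.sum_le_sum fun e (_ : e ∈ (Finset.univ : Finset (Edg h k t))) => h1 e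
  refine le_trans (le_of_eq ?_) h2
  rw [Finset.sum_const, Finset.card_univ, nsmul_eq_mul]
  ring

end

section code

/-- Linear map with given images of the unit vectors. -/
def lin {h k : ℕ} (M : Fin h → (Fin k → Bool)) (d : Fin h → Bool) : Fin k → Bool :=
  ∑ i, if d i = true then M i else 0

theorem lin_add {h k : ℕ} (M : Fin h → (Fin k → Bool)) (a b : Fin h → Bool) :
    lin M (a + b) = lin M a + lin M b := by
  unfold lin
  rw [← Finset.sum_add_distrib]
  refine Finset.sum_congr rfl fun i _ => ?_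
  rw [Pi.add_apply]
  cases ha : a i <;> cases hb : b i
  · have : (false + false : Bool) = false := rfl
    rw [this, if_neg (by simp), add_zero]
  · have : (false + true : Bool) = true := rfl
    rw [this, if_pos rfl, if_neg (by simp), zero_add]
  · have : (true + false : Bool) = true := rfl
    rw [this, if_pos rfl, if_neg (by simp), add_zero]
  · have : (true + true : Bool) = false := rfl
    rw [this, if_neg (by simp), if_pos rfl, pi_add_self]

/-- Sum of signs. -/
noncomputable def sgs {k : ℕ} (y : Fin k → Bool) : ℝ := ∑ i, sg (y i)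

theorem exp_moment (k : ℕ) (l : ℝ) :
    ∑ y : Fin k → Bool, Real.exp (l * sgs y) ≤ 2 ^ k * Real.exp (l ^ 2 * k / 2) := by
  have h1 : ∀ y : Fin k → Bool, Real.exp (l * sgs y) = ∏ i, Real.exp (l * sg (y i)) := by
    intro y
    unfold sgs
    rw [Finset.mul_sum, Real.exp_sum]
  simp only [h1]
  rw [sum_prod_cube (fun _ b => Real.exp (l * sg b))]
  simp only [sg_true, sg_false, mul_one, mul_neg, Finset.prod_const, Finset.card_univ,
    Fintype.card_fin]
  have h2 : Real.exp (-l) + Real.exp l ≤ 2 * Real.exp (l ^ 2 / 2) := by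
    have := Real.cosh_le_exp_half_sq l
    rw [Real.cosh_eq] at this
    linarith
  calc (Real.exp (-l) + Real.exp l) ^ k ≤ (2 * Real.exp (l ^ 2 / 2)) ^ k :=
        pow_le_pow_left₀ (by positivity) h2 k
    _ = 2 ^ k * Real.exp (l ^ 2 * k / 2) := by
        rw [mul_pow, ← Real.exp_nat_mul]
        congr 2; ring

/-- A nonzero combination of random vectors is uniform. -/
theorem lin_avg {h k : ℕ} (d : Fin h → Bool) (hd : d ≠ 0) (g : (Fin k → Bool) → ℝ) :
    (2 : ℝ) ^ k * ∑ M : Fin h → (Fin k → Bool), g (lin M d) = (2 ^ k) ^ h * ∑ y, g y := by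
  obtain ⟨i, hi⟩ : ∃ i, d i = true := by
    by_contra hcon
    push Not at hcon
    apply hd
    funext i
    have := hcon i
    cases h1 : d i
    · rfl
    · exact absurd h1 this
  have h1 := sum_update (V := Fin h) (A := Fin k → Bool) i (fun M => g (lin M d))
  have hcard : (Fintype.card (Fin k → Bool) : ℝ) = 2 ^ k := by
    rw [Fintype.card_fun, Fintype.card_bool, Fintype.card_fin]; push_cast; rfl
  rw [hcard] at h1
  rw [h1]
  have h2 : ∀ M : Fin h → (Fin k → Bool), ∑ c, g (lin (Function.update M i c) d) = ∑ y, g y := by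
    intro M
    have h3 : ∀ c, lin (Function.update M i c) d =
        c + ∑ i' ∈ (Finset.univ : Finset (Fin h)).erase i, if d i' = true then M i' else 0 := by
      intro c
      unfold lin
      rw [← Finset.add_sum_erase _ _ (Finset.mem_univ i), Function.update_self, if_pos hi]
      congr 1
      refine Finset.sum_congr rfl fun i' hi' => ?_
      rw [Function.update_of_ne (Finset.ne_of_mem_erase hi')]
    simp only [h3]
    exact Equiv.sum_comp (Equiv.addRight _) g
  simp only [h2]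
  rw [Finset.sum_const, Finset.card_univ, nsmul_eq_mul, Fintype.card_fun, Fintype.card_fin,
    Fintype.card_fun, Fintype.card_bool, Fintype.card_fin]
  push_cast
  rfl

/-- Random linear codes are balanced. -/
theorem exists_lin (h k : ℕ) (η : ℝ) (hη : 0 < η) (hk : (h + 1) * Real.log 2 ≤ η ^ 2 * k / 2) :
    ∃ M : Fin h → (Fin k → Bool), ∀ d, d ≠ 0 → |sgs (lin M d)| ≤ η * k := by
  let G : (Fin h → (Fin k → Bool)) → ℝ := fun M =>
    ∑ d ∈ (Finset.univ : Finset (Fin h → Bool)).erase 0,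
      (Real.exp (η * sgs (lin M d)) + Real.exp (-η * sgs (lin M d)))
  have h2k : (0 : ℝ) < 2 ^ k := by positivity
  have htot : ∑ M, G M ≤ ∑ _M : Fin h → (Fin k → Bool),
      (2 : ℝ) ^ h * (2 * Real.exp (η ^ 2 * k / 2)) := by
    have h1 : ∀ d ∈ (Finset.univ : Finset (Fin h → Bool)).erase 0,
        ∑ M : Fin h → (Fin k → Bool),
          (Real.exp (η * sgs (lin M d)) + Real.exp (-η * sgs (lin M d))) ≤
        (2 ^ k) ^ h * (2 * Real.exp (η ^ 2 * k / 2)) := by
      intro d hd
      have h3 := lin_avg (k := k) d (Finset.ne_of_mem_erase hd)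
        (fun y => Real.exp (η * sgs y) + Real.exp (-η * sgs y))
      have h4 := exp_moment k η
      have h5 := exp_moment k (-η)
      have h6 : ∑ y : Fin k → Bool, (Real.exp (η * sgs y) + Real.exp (-η * sgs y)) ≤
          2 ^ k * (2 * Real.exp (η ^ 2 * k / 2)) := by
        rw [Finset.sum_add_distrib]
        have e : (-η) ^ 2 = η ^ 2 := by ring
        rw [e] at h5
        linarith
      have h7 : (2 : ℝ) ^ k * ∑ M : Fin h → (Fin k → Bool),
          (Real.exp (η * sgs (lin M d)) + Real.exp (-η * sgs (lin M d))) ≤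
          2 ^ k * ((2 ^ k) ^ h * (2 * Real.exp (η ^ 2 * k / 2))) := by
        rw [h3]
        calc ((2 : ℝ) ^ k) ^ h * ∑ y : Fin k → Bool,
              (Real.exp (η * sgs y) + Real.exp (-η * sgs y))
            ≤ (2 ^ k) ^ h * (2 ^ k * (2 * Real.exp (η ^ 2 * k / 2))) :=
              mul_le_mul_of_nonneg_left h6 (by positivity)
          _ = _ := by ring
      exact le_of_mul_le_mul_left h7 h2k
    simp only [G]
    rw [Finset.sum_comm]
    refine (Finset.sum_le_sum h1).trans ?_
    rw [Finset.sum_const, Finset.sum_const, nsmul_eq_mul, nsmul_eq_mul, Finset.card_univ,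
      Fintype.card_fun, Fintype.card_fin, Fintype.card_fun, Fintype.card_bool, Fintype.card_fin]
    push_cast
    have h3 : (((Finset.univ : Finset (Fin h → Bool)).erase 0).card : ℝ) ≤ 2 ^ h := by
      have h3 : ((Finset.univ : Finset (Fin h → Bool)).erase 0).card ≤ 2 ^ h := by
        refine (Finset.card_erase_le).trans ?_
        rw [Finset.card_univ, Fintype.card_fun, Fintype.card_bool, Fintype.card_fin]
      exact_mod_cast h3
    calc (((Finset.univ : Finset (Fin h → Bool)).erase 0).card : ℝ) *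
          ((2 ^ k) ^ h * (2 * Real.exp (η ^ 2 * k / 2)))
        ≤ 2 ^ h * ((2 ^ k) ^ h * (2 * Real.exp (η ^ 2 * k / 2))) :=
          mul_le_mul_of_nonneg_right h3 (by positivity)
      _ = _ := by ring
  obtain ⟨M, -, hM⟩ := Finset.exists_le_of_sum_le (Finset.univ_nonempty) htot
  refine ⟨M, fun d hd => ?_⟩
  have h1 : Real.exp (η * |sgs (lin M d)|) ≤ 2 ^ h * (2 * Real.exp (η ^ 2 * k / 2)) := by
    refine le_trans ?_ hM
    have h2 : Real.exp (η * sgs (lin M d)) + Real.exp (-η * sgs (lin M d)) ≤ G M := by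
      apply Finset.single_le_sum (f := fun d =>
        Real.exp (η * sgs (lin M d)) + Real.exp (-η * sgs (lin M d)))
      · intro i _; positivity
      · exact Finset.mem_erase.mpr ⟨hd, Finset.mem_univ d⟩
    refine le_trans ?_ h2
    rcases abs_cases (sgs (lin M d)) with ⟨h3, _⟩ | ⟨h3, _⟩
    · rw [h3]
      have := Real.exp_pos (-η * sgs (lin M d))
      linarith
    · rw [h3]
      have := Real.exp_pos (η * sgs (lin M d))
      have e : η * -sgs (lin M d) = -η * sgs (lin M d) := by ring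
      rw [e]
      linarith
  have h2 : 2 ^ h * (2 * Real.exp (η ^ 2 * k / 2)) =
      Real.exp ((h + 1) * Real.log 2 + η ^ 2 * k / 2) := by
    rw [Real.exp_add, add_mul, one_mul, Real.exp_add, Real.exp_log (by norm_num),
      Real.exp_nat_mul, Real.exp_log (by norm_num)]
    ring
  rw [h2, Real.exp_le_exp] at h1
  have h3 : η * |sgs (lin M d)| ≤ η * (η * k) := by
    calc η * |sgs (lin M d)| ≤ (h + 1) * Real.log 2 + η ^ 2 * k / 2 := h1
      _ ≤ η ^ 2 * k / 2 + η ^ 2 * k / 2 := by linarith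
      _ = η * (η * k) := by ring
  exact le_of_mul_le_mul_left h3 hη

/-- Existence of the code. -/
theorem exists_code (h k : ℕ) (hh : 1 ≤ h) (α : ℝ) (hα : 0 < α) (hα1 : α ≤ 1)
    (hk : 16 * h ≤ α ^ 2 * k) :
    ∃ φ : (Fin h → Bool) → (Fin k → Bool), (∀ a b, φ (a + b) = φ a + φ b) ∧
      ∀ d, d ≠ 0 → |rho (pt φ 0 d)| ≤ α := by
  have hh1 : (1 : ℝ) ≤ h := by exact_mod_cast hh
  have hlog : Real.log 2 ≤ 1 := by
    have := Real.log_two_lt_d9
    linarith
  obtain ⟨M, hM⟩ := exists_lin h k (α / 2) (by positivity) (by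
    have : (h + 1) * Real.log 2 ≤ (h + 1) * 1 := mul_le_mul_of_nonneg_left hlog (by positivity)
    have e : (α / 2) ^ 2 * k / 2 = α ^ 2 * k / 8 := by ring
    rw [e]
    linarith)
  refine ⟨lin M, lin_add M, fun d hd => ?_⟩
  unfold rho
  rw [Fintype.sum_sum_type]
  have h1 : ∑ i : Fin k, sg (pt (lin M) 0 d (Sum.inr i)) = sgs (lin M d) := by
    unfold sgs pt
    refine Finset.sum_congr rfl fun i _ => ?_
    simp
  have h2 : |∑ i : Fin h, sg (pt (lin M) 0 d (Sum.inl i))| ≤ h := by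
    refine (Finset.abs_sum_le_sum_abs _ _).trans ?_
    simp [sg_abs]
  rw [h1]
  have hNn : (Fintype.card (Fin h ⊕ Fin k) : ℝ) = h + k := by simp
  have hN : (0 : ℝ) < h + k := by positivity
  rw [hNn, abs_div, abs_of_pos hN, div_le_iff₀ hN]
  have h3 := hM d hd
  have h4 := abs_add_le (∑ i : Fin h, sg (pt (lin M) 0 d (Sum.inl i))) (sgs (lin M d))
  have hk0 : (0 : ℝ) ≤ k := by positivity
  have h5 : (h : ℝ) ≤ α / 2 * k := by
    have h6 : α ^ 2 * k ≤ α * k := by
      apply mul_le_mul_of_nonneg_right _ hk0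
      nlinarith
    linarith
  have h7 : 0 ≤ α * (h : ℝ) := by positivity
  linarith

end code

end Pool.Agent.KS6_6.UG
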