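import Pool.Agent.KS6_6.UG.Local

set_option autoImplicit false

/-!
Local distributions of labelings for the cosets of a linear code: probabilities.
-/

namespace Pool.Agent.KS6_6.UG

open Finset

section

variable {h k : ℕ} (φ : (Fin h → Bool) → (Fin k → Bool))
  (hφ : ∀ a b, φ (a + b) = φ a + φ b)
variable [Nonempty (Fin h ⊕ Fin k)]
variable (α a : ℝ) (hcode : ∀ d, d ≠ 0 → |rho (pt φ 0 d)| ≤ α) (ha0 : 0 ≤ a)
  (ha : 4 * a + α < 1) (m : ℕ)

open Classical in
/-- Probability of an event of random pairs of coordinates. -/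
noncomputable def prT (h k m : ℕ) (E : (Fin m → (Fin h ⊕ Fin k) × (Fin h ⊕ Fin k)) → Prop) : ℝ :=
  ∑ T : Fin m → (Fin h ⊕ Fin k) × (Fin h ⊕ Fin k),
    (1 / (Fintype.card (Fin h ⊕ Fin k) : ℝ) ^ (2 * m)) * (if E T then 1 else 0)

omit [Nonempty (Fin h ⊕ Fin k)] in
theorem prT_nonneg (E : (Fin m → (Fin h ⊕ Fin k) × (Fin h ⊕ Fin k)) → Prop) :
    0 ≤ prT h k m E := by
  unfold prT
  apply Finset.sum_nonneg
  intro T _
  split_ifs <;> positivity

omit [Nonempty (Fin h ⊕ Fin k)] in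
theorem prT_mono (E F : (Fin m → (Fin h ⊕ Fin k) × (Fin h ⊕ Fin k)) → Prop)
    (hEF : ∀ T, E T → F T) : prT h k m E ≤ prT h k m F := by
  unfold prT
  refine Finset.sum_le_sum fun T _ => ?_
  apply mul_le_mul_of_nonneg_left _ (by positivity)
  by_cases h1 : E T
  · rw [if_pos h1, if_pos (hEF T h1)]
  · rw [if_neg h1]; split_ifs <;> norm_num

omit [Nonempty (Fin h ⊕ Fin k)] in
theorem prT_or (E F G : (Fin m → (Fin h ⊕ Fin k) × (Fin h ⊕ Fin k)) → Prop)
    (hEF : ∀ T, E T → F T ∨ G T) : prT h k m E ≤ prT h k m F + prT h k m G := by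
  unfold prT
  rw [← Finset.sum_add_distrib]
  refine Finset.sum_le_sum fun T _ => ?_
  rw [← mul_add]
  apply mul_le_mul_of_nonneg_left _ (by positivity)
  by_cases h1 : E T
  · rw [if_pos h1]
    rcases hEF T h1 with h2 | h2
    · rw [if_pos h2]; split_ifs <;> norm_num
    · rw [if_pos h2]; split_ifs <;> norm_num
  · rw [if_neg h1]; split_ifs <;> norm_num

open Classical in
omit [Nonempty (Fin h ⊕ Fin k)] in
theorem prT_union {ι : Type} (s : Finset ι)
    (E : ι → (Fin m → (Fin h ⊕ Fin k) × (Fin h ⊕ Fin k)) → Prop)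
    (F : (Fin m → (Fin h ⊕ Fin k) × (Fin h ⊕ Fin k)) → Prop)
    (hF : ∀ T, F T → ∃ i ∈ s, E i T) : prT h k m F ≤ ∑ i ∈ s, prT h k m (E i) := by
  unfold prT
  rw [Finset.sum_comm]
  refine Finset.sum_le_sum fun T _ => ?_
  rw [← Finset.mul_sum]
  apply mul_le_mul_of_nonneg_left _ (by positivity)
  have h0 : ∀ i ∈ s, (0 : ℝ) ≤ if E i T then 1 else 0 := by
    intro i _; split_ifs <;> norm_num
  by_cases h1 : F T
  · rw [if_pos h1]
    obtain ⟨i, hi, h2⟩ := hF T h1
    calc (1 : ℝ) = if E i T then 1 else 0 := by rw [if_pos h2]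
      _ ≤ _ := Finset.single_le_sum h0 hi
  · rw [if_neg h1]
    exact Finset.sum_nonneg h0

theorem prT_agree (x : Fin h ⊕ Fin k → Bool) :
    prT h k m (fun T => Agree T x) = ((1 + rho x ^ 2) / 2) ^ m := by
  rw [← agree_prob m x]
  unfold prT
  refine Finset.sum_congr rfl fun T _ => ?_
  congr

include hφ hcode ha ha0 in
/-- The bad event is rare. -/
theorem prT_bad (ha1 : a ≤ 1) (S : Finset (Fin k → Bool)) :
    prT h k m (fun T => ¬ Good φ a S T) ≤ (S.card : ℝ) ^ 2 * (1 - a / 2) ^ m := by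
  have h1 := prT_union (h := h) (k := k) m (S ×ˢ S)
    (fun p T => ∃ d, a < far φ (p.1 + p.2) d ∧ far φ (p.1 + p.2) d ≤ 2 * a ∧
      Agree T (pt φ (p.1 + p.2) d)) (fun T => ¬ Good φ a S T) (by
      intro T hT
      unfold Good at hT
      push Not at hT
      obtain ⟨u, hu, v, hv, d, h1, h2, h3⟩ := hT
      exact ⟨(u, v), Finset.mem_product.mpr ⟨hu, hv⟩, d, h1, h2, h3⟩)
  refine h1.trans ?_
  have h2 : ∀ p ∈ S ×ˢ S, prT h k m (fun T => ∃ d, a < far φ (p.1 + p.2) d ∧
      far φ (p.1 + p.2) d ≤ 2 * a ∧ Agree T (pt φ (p.1 + p.2) d)) ≤ (1 - a / 2) ^ m := by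
    intro p _
    by_cases hx : ∃ d, a < far φ (p.1 + p.2) d ∧ far φ (p.1 + p.2) d ≤ 2 * a
    · obtain ⟨d, hd1, hd2⟩ := hx
      have h3 := prT_mono (h := h) (k := k) m (fun T => ∃ d, a < far φ (p.1 + p.2) d ∧
        far φ (p.1 + p.2) d ≤ 2 * a ∧ Agree T (pt φ (p.1 + p.2) d))
        (fun T => Agree T (pt φ (p.1 + p.2) d)) (by
          rintro T ⟨d', h4, h5, h6⟩
          have := far_unique φ hφ α a hcode ha _ d' d h5 hd2
          rw [← this]; exact h6)
      refine h3.trans ?_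
      rw [prT_agree]
      apply pow_le_pow_left₀
      · have := sq_nonneg (rho (pt φ (p.1 + p.2) d))
        linarith
      · unfold far at hd1
        have h4 : |rho (pt φ (p.1 + p.2) d)| ≤ 1 - a := by linarith
        have h5 : rho (pt φ (p.1 + p.2) d) ^ 2 ≤ (1 - a) ^ 2 := by
          rw [← sq_abs]
          exact pow_le_pow_left₀ (abs_nonneg _) h4 2
        nlinarith
    · have h3 : prT h k m (fun T => ∃ d, a < far φ (p.1 + p.2) d ∧
        far φ (p.1 + p.2) d ≤ 2 * a ∧ Agree T (pt φ (p.1 + p.2) d)) ≤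
        prT h k m (fun T => False) := by
        apply prT_mono
        rintro T ⟨d, h4, h5, _⟩
        exact hx ⟨d, h4, h5⟩
      have h4 : prT h k m (fun T => False) = 0 := by
        unfold prT
        simp
      rw [h4] at h3
      refine h3.trans ?_
      apply pow_nonneg; linarith
  refine (Finset.sum_le_sum h2).trans (le_of_eq ?_)
  rw [Finset.sum_const, Finset.card_product, nsmul_eq_mul]
  push_cast
  ring

open Classical in
/-- Probability that two vertices are related. -/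
noncomputable def pRel (S : Finset (Fin k → Bool)) (u v : Fin k → Bool) : ℝ :=
  prT h k m (fun T => Rel φ a S (some T) u v)

include hφ hcode ha ha0 in
theorem pRel_le (S : Finset (Fin k → Bool)) (u v : Fin k → Bool) (huv : u ≠ v)
    (d : Fin h → Bool) (hd : far φ (u + v) d ≤ a) :
    pRel φ a m S u v ≤ ((1 + rho (pt φ (u + v) d) ^ 2) / 2) ^ m := by
  rw [← prT_agree]
  apply prT_mono
  intro T hT
  rcases hT with h1 | ⟨T0, h1, hu, hv, hg, d', h5, h6⟩
  · exact absurd h1 huv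
  · have h2 := Option.some.inj h1
    have h3 := far_unique φ hφ α a hcode ha _ d' d (by linarith) (by linarith)
    rw [h2, ← h3]; exact h6

theorem pRel_zero (S : Finset (Fin k → Bool)) (u v : Fin k → Bool) (huv : u ≠ v)
    (hd : ¬ ∃ d, far φ (u + v) d ≤ a) : pRel φ a m S u v = 0 := by
  apply le_antisymm _ (prT_nonneg m _)
  have h3 : pRel φ a m S u v ≤ prT h k m (fun _ => False) := by
    apply prT_mono
    intro T hT
    rcases hT with h1 | ⟨T0, h1, hu, hv, hg, d', h5, h6⟩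
    · exact huv h1
    · exact hd ⟨d', h5⟩
  refine h3.trans (le_of_eq ?_)
  unfold prT
  simp

include hφ hcode ha ha0 in
theorem pRel_ge (ha1 : a ≤ 1) (S : Finset (Fin k → Bool)) (u v : Fin k → Bool) (hu : u ∈ S)
    (hv : v ∈ S) (d : Fin h → Bool) (hd : far φ (u + v) d ≤ a) :
    ((1 + rho (pt φ (u + v) d) ^ 2) / 2) ^ m - (S.card : ℝ) ^ 2 * (1 - a / 2) ^ m ≤
      pRel φ a m S u v := by
  have h1 := prT_bad φ hφ α a hcode ha0 ha m ha1 S
  have h2 := prT_or (h := h) (k := k) m (fun T => Agree T (pt φ (u + v) d))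
    (fun T => Rel φ a S (some T) u v) (fun T => ¬ Good φ a S T) (by
      intro T hT
      by_cases hg : Good φ a S T
      · exact Or.inl (Or.inr ⟨T, rfl, hu, hv, hg, d, hd, hT⟩)
      · exact Or.inr hg)
  rw [prT_agree] at h2
  unfold pRel
  linarith

theorem prT_true : prT h k m (fun _ => True) = 1 := by
  have h1 := prT_agree (h := h) (k := k) m 0
  rw [rho_zero] at h1
  norm_num at h1
  rw [← h1]
  unfold prT
  refine Finset.sum_congr rfl fun T _ => ?_
  rw [if_pos trivial, if_pos (agree_zero T)]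

include hφ hcode ha ha0 in
/-- The random labeling of the set `S`. -/
theorem base_dist (S : Finset (Fin k → Bool)) (τ : ℝ) (hτ0 : 0 ≤ τ) (hτ1 : τ ≤ 1) :
    ∃ P : ((Fin k → Bool) → (Fin h → Bool)) → ℝ, (∀ x, 0 ≤ P x) ∧ ∑ x, P x = 1 ∧
      (∀ u a, ∑ x, (if x u = a then P x else 0) = 1 / 2 ^ h) ∧
      ∀ u v, u ≠ v → ∀ b b', marg P u v b b' =
        ((1 - τ) * pRel φ a m S u v) * (if b = b' + shift φ a u v then 1 / 2 ^ h else 0) +
        (1 - (1 - τ) * pRel φ a m S u v) / (2 ^ h) ^ 2 := by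
  classical
  let w : Option (Fin m → (Fin h ⊕ Fin k) × (Fin h ⊕ Fin k)) → ℝ := fun T =>
    T.elim τ (fun _ => (1 - τ) * (1 / (Fintype.card (Fin h ⊕ Fin k) : ℝ) ^ (2 * m)))
  have hw0 : ∀ T, 0 ≤ w T := by
    intro T
    rcases T with _ | T
    · exact hτ0
    · have : 0 ≤ 1 - τ := by linarith
      simp only [w, Option.elim]
      positivity
  have hcardA : (Fintype.card (Fin h → Bool) : ℝ) = 2 ^ h := by
    rw [Fintype.card_fun, Fintype.card_bool, Fintype.card_fin]; push_cast; rfl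
  have hT1 : ∑ _T : Fin m → (Fin h ⊕ Fin k) × (Fin h ⊕ Fin k),
      (1 / (Fintype.card (Fin h ⊕ Fin k) : ℝ) ^ (2 * m)) = 1 := by
    have h1 := prT_true (h := h) (k := k) m
    unfold prT at h1
    simpa using h1
  have hw1 : ∑ T, w T = 1 := by
    rw [Fintype.sum_option]
    simp only [w, Option.elim]
    rw [← Finset.mul_sum, hT1]
    ring
  obtain ⟨P, hP0, hP1, hP2, hP3⟩ := cluster_mix (V := Fin k → Bool) (A := Fin h → Bool)
    w hw0 hw1 (fun T => relS φ hφ a S T) (shift φ a)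
    (fun T u v w h1 h2 => shift_add φ hφ α a hcode ha0 ha S T u v w h1 h2)
  refine ⟨P, hP0, hP1, ?_, ?_⟩
  · intro u b
    rw [hP2 u b, hcardA]
  · intro u v huv b b'
    rw [hP3 u v b b', hcardA]
    have h1 : ∑ T, w T * (if (relS φ hφ a S T) u v then 1 else 0) =
        (1 - τ) * pRel φ a m S u v := by
      rw [Fintype.sum_option]
      have h2 : ¬ (relS φ hφ a S (none : Option (Fin m → (Fin h ⊕ Fin k) × (Fin h ⊕ Fin k)))) u v := by
        rintro (h3 | ⟨T0, h3, _⟩)
        · exact huv h3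
        · cases h3
      rw [if_neg h2, mul_zero, zero_add]
      unfold pRel prT
      rw [Finset.mul_sum]
      refine Finset.sum_congr rfl fun T _ => ?_
      simp only [w, Option.elim]
      rw [mul_assoc]
      congr
    rw [h1]

end

end Pool.Agent.KS6_6.UG
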