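import Pool.Agent.KS6_6.UG.Relax

set_option autoImplicit false

/-!
The unique games: value and value of the relaxation.
-/

namespace Pool.Agent.KS6_6.UG

open Finset

section noise

variable {X : Type} [Fintype X] [DecidableEq X]

/-- One step of the noise. -/
def stp (p : X × Bool) : X → Bool := fun i => if i = p.1 then p.2 else false

/-- The noise. -/
def nu {t : ℕ} (r : Fin t → X × Bool) : X → Bool := ∑ l, stp (r l)

omit [DecidableEq X] [Fintype X] in
theorem walsh_fsum {ι : Type} (s : Finset ι) (S : Finset X) (g : ι → X → Bool) :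
    walsh S (∑ l ∈ s, g l) = ∏ l ∈ s, walsh S (g l) := by
  classical
  induction s using Finset.induction_on with
  | empty =>
    rw [Finset.sum_empty, Finset.prod_empty]
    unfold walsh
    exact Finset.prod_eq_one fun i _ => rfl
  | insert a s ha ih =>
    rw [Finset.sum_insert ha, Finset.prod_insert ha, walsh_add, ih]

omit [Fintype X] in
theorem walsh_stp (S : Finset X) (p : X × Bool) :
    walsh S (stp p) = if p.1 ∈ S ∧ p.2 = true then -1 else 1 := by
  unfold walsh stp
  by_cases h1 : p.1 ∈ S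
  · rw [← Finset.mul_prod_erase S _ h1]
    have h2 : ∏ i ∈ S.erase p.1, sg (if i = p.1 then p.2 else false) = 1 := by
      apply Finset.prod_eq_one
      intro i hi
      rw [if_neg (Finset.ne_of_mem_erase hi)]
      rfl
    rw [h2, if_pos rfl, mul_one]
    cases h3 : p.2 <;> simp [h1]
  · rw [if_neg (fun h => h1 h.1)]
    apply Finset.prod_eq_one
    intro i hi
    have : i ≠ p.1 := fun h => h1 (h ▸ hi)
    rw [if_neg this]
    rfl

theorem sum_walsh_nu (t : ℕ) (S : Finset X) :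
    ∑ r : Fin t → X × Bool, walsh S (nu r) =
      (2 * (Fintype.card X : ℝ)) ^ t * (1 - S.card / Fintype.card X) ^ t := by
  have h1 : ∀ r : Fin t → X × Bool, walsh S (nu r) = ∏ l, walsh S (stp (r l)) :=
    fun r => walsh_fsum _ S _
  simp only [h1]
  rw [← Fintype.sum_pow (fun p : X × Bool => walsh S (stp p)), ← mul_pow]
  congr 1
  rw [Fintype.sum_prod_type]
  have h2 : ∀ i : X, ∑ b : Bool, walsh S (stp (i, b)) = 2 - 2 * (if i ∈ S then 1 else 0) := by
    intro i
    rw [Fintype.sum_bool, walsh_stp, walsh_stp]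
    by_cases h : i ∈ S <;> simp [h] <;> norm_num
  simp only [h2]
  rw [Finset.sum_sub_distrib, ← Finset.mul_sum, Finset.sum_ite_mem, Finset.univ_inter]
  simp only [Finset.sum_const, Finset.card_univ, nsmul_eq_mul, mul_one]
  rcases isEmpty_or_nonempty X with he | he
  · have : S = ∅ := Finset.eq_empty_of_isEmpty S
    subst this
    simp
  · have : (Fintype.card X : ℝ) ≠ 0 := by exact_mod_cast Fintype.card_ne_zero
    field_simp

theorem rho_stp [Nonempty X] (p : X × Bool) : 1 - |rho (stp p)| ≤ 2 / Fintype.card X := by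
  have hN : (0 : ℝ) < Fintype.card X := by exact_mod_cast Fintype.card_pos
  have h1 : ∑ i, sg (stp p i) = Fintype.card X - (if p.2 = true then 2 else 0) := by
    have h2 : ∀ i, sg (stp p i) = 1 - (if i = p.1 then (if p.2 = true then 2 else 0) else 0) := by
      intro i
      unfold stp
      by_cases h : i = p.1
      · rw [if_pos h, if_pos h]
        cases p.2 <;> simp [sg]; norm_num
      · rw [if_neg h, if_neg h]
        simp [sg]
    simp only [h2]
    rw [Finset.sum_sub_distrib, Finset.sum_ite_eq', if_pos (Finset.mem_univ _)]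
    simp
  have h3 : rho (stp p) ≤ |rho (stp p)| := le_abs_self _
  have h4 : rho (stp p) = 1 - (if p.2 = true then 2 else 0) / Fintype.card X := by
    unfold rho
    rw [h1]
    field_simp
  have h5 : (if p.2 = true then (2 : ℝ) else 0) / Fintype.card X ≤ 2 / Fintype.card X := by
    apply div_le_div_of_nonneg_right _ hN.le
    split_ifs <;> norm_num
  linarith

theorem rho_nu [Nonempty X] {t : ℕ} (r : Fin t → X × Bool) :
    1 - |rho (nu r)| ≤ 2 * t / Fintype.card X := by
  have h := Finset.le_sum_of_subadditive (fun x : X → Bool => 1 - |rho x|)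
    (by rw [rho_zero]; simp) (fun x y => rho_tri x y) Finset.univ (fun l => stp (r l))
  refine h.trans ?_
  refine (Finset.sum_le_sum fun l _ => rho_stp (r l)).trans (le_of_eq ?_)
  rw [Finset.sum_const, Finset.card_univ, nsmul_eq_mul, Fintype.card_fin]
  ring

end noise

section

variable {h k : ℕ} (φ : (Fin h → Bool) → (Fin k → Bool))
  (hφ : ∀ a b, φ (a + b) = φ a + φ b)

/-- Label part of the noise. -/
def nuA {t : ℕ} (r : Fin t → (Fin h ⊕ Fin k) × Bool) : Fin h → Bool := fun i => nu r (Sum.inl i)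

/-- Vertex part of the noise. -/
def nuB {t : ℕ} (r : Fin t → (Fin h ⊕ Fin k) × Bool) : Fin k → Bool := fun i => nu r (Sum.inr i)

/-- Edges. -/
abbrev Edg (h k t : ℕ) := (Fin k → Bool) × (Fin t → (Fin h ⊕ Fin k) × Bool)

/-- Target. -/
def tgt {t : ℕ} (e : Edg h k t) : Fin k → Bool := e.1 + (nuB e.2 + φ (nuA e.2))

/-- Constraint. -/
def prm {t : ℕ} (e : Edg h k t) : Equiv.Perm (Fin h → Bool) := Equiv.addRight (nuA e.2)

theorem pt_noise {t : ℕ} (r : Fin t → (Fin h ⊕ Fin k) × Bool) :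
    pt φ (nuB r + φ (nuA r)) (nuA r) = nu r := by
  unfold pt
  rw [add_assoc, pi_add_self, add_zero]
  funext i
  rcases i with i | i <;> rfl

/-- Indicator function of the points chosen by a labeling. -/
def chs (L : (Fin k → Bool) → (Fin h → Bool)) (x : Fin h ⊕ Fin k → Bool) : ℝ :=
  if L ((fun i => x (Sum.inr i)) + φ (fun i => x (Sum.inl i))) = (fun i => x (Sum.inl i))
  then 1 else 0

theorem chs_pt (L : (Fin k → Bool) → (Fin h → Bool)) (u : Fin k → Bool) (b : Fin h → Bool) :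
    chs φ L (pt φ u b) = if L u = b then 1 else 0 := by
  unfold chs pt
  have h1 : ((fun i => Sum.elim b (u + φ b) (Sum.inr i)) : Fin k → Bool) = u + φ b := rfl
  have h2 : ((fun i => Sum.elim b (u + φ b) (Sum.inl i)) : Fin h → Bool) = b := rfl
  rw [h1, h2, add_assoc, pi_add_self, add_zero]

/-- The points are the pairs of vertices and labels. -/
def ptEquiv : ((Fin k → Bool) × (Fin h → Bool)) ≃ (Fin h ⊕ Fin k → Bool) where
  toFun p := pt φ p.1 p.2
  invFun x := ((fun i => x (Sum.inr i)) + φ (fun i => x (Sum.inl i)), fun i => x (Sum.inl i))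
  left_inv p := by
    obtain ⟨u, b⟩ := p
    have h1 : ((fun i => pt φ u b (Sum.inr i)) : Fin k → Bool) = u + φ b := rfl
    have h2 : ((fun i => pt φ u b (Sum.inl i)) : Fin h → Bool) = b := rfl
    simp only [h1, h2]
    rw [add_assoc, pi_add_self, add_zero]
  right_inv x := by
    unfold pt
    simp only
    rw [add_assoc, pi_add_self, add_zero]
    funext i
    rcases i with i | i <;> rfl

theorem sum_pt (F : (Fin h ⊕ Fin k → Bool) → ℝ) : ∑ x, F x = ∑ u, ∑ b, F (pt φ u b) := by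
  rw [← Equiv.sum_comp (ptEquiv φ) F, Fintype.sum_prod_type]
  rfl

theorem sum_chs (L : (Fin k → Bool) → (Fin h → Bool)) : ∑ x, chs φ L x = 2 ^ k := by
  rw [sum_pt φ]
  simp only [chs_pt, Finset.sum_ite_eq, Finset.mem_univ, if_true, Finset.sum_const,
    Finset.card_univ, nsmul_eq_mul, mul_one, Fintype.card_fun, Fintype.card_bool, Fintype.card_fin]
  push_cast; rfl

include hφ in
theorem count_sat {t : ℕ} (L M : (Fin k → Bool) → (Fin h → Bool)) :
    ((Finset.univ.filter fun e : Edg h k t => prm e (L e.1) = M (tgt φ e)).card : ℝ) =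
      ∑ x, ∑ r : Fin t → (Fin h ⊕ Fin k) × Bool, chs φ L x * chs φ M (x + nu r) := by
  rw [sum_pt φ]
  have h1 : ∀ u : Fin k → Bool, ∑ b, ∑ r : Fin t → (Fin h ⊕ Fin k) × Bool,
      chs φ L (pt φ u b) * chs φ M (pt φ u b + nu r) =
      ∑ r : Fin t → (Fin h ⊕ Fin k) × Bool,
        (if prm (u, r) (L u) = M (tgt φ (u, r)) then (1 : ℝ) else 0) := by
    intro u
    rw [Finset.sum_comm]
    refine Finset.sum_congr rfl fun r _ => ?_
    have h2 : ∀ b, chs φ L (pt φ u b) * chs φ M (pt φ u b + nu r) =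
        if L u = b then (if M (tgt φ (u, r)) = b + nuA r then 1 else 0) else 0 := by
      intro b
      rw [chs_pt]
      by_cases hb : L u = b
      · rw [if_pos hb, if_pos hb, one_mul]
        rw [← pt_noise φ r, pt_add φ hφ, chs_pt]
        rfl
      · rw [if_neg hb, if_neg hb, zero_mul]
    simp only [h2, Finset.sum_ite_eq, Finset.mem_univ, if_true]
    have h3 : (M (tgt φ (u, r)) = L u + nuA r) ↔ prm (u, r) (L u) = M (tgt φ (u, r)) := by
      unfold prm
      simp only [Equiv.coe_addRight]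
      exact eq_comm
    simp only [h3]
  simp only [h1]
  rw [← Fintype.sum_prod_type' (f := fun (u : Fin k → Bool)
    (r : Fin t → (Fin h ⊕ Fin k) × Bool) =>
      (if prm (u, r) (L u) = M (tgt φ (u, r)) then (1 : ℝ) else 0)), ← Finset.sum_filter]
  simp

include hφ in
/-- Soundness. -/
theorem value_le [Nonempty (Fin h ⊕ Fin k)] (t l : ℕ) (L M : (Fin k → Bool) → (Fin h → Bool)) :
    ((Finset.univ.filter fun e : Edg h k t => prm e (L e.1) = M (tgt φ e)).card : ℝ) ≤
      (3 ^ l * Real.sqrt (1 / 2 ^ h) + Real.exp (-(t * l / Fintype.card (Fin h ⊕ Fin k)))) *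
        Fintype.card (Edg h k t) := by
  set N : ℝ := (Fintype.card (Fin h ⊕ Fin k) : ℝ) with hN
  have hN0 : 0 < N := by rw [hN]; exact_mod_cast Fintype.card_pos
  have hNn : Fintype.card (Fin h ⊕ Fin k) = h + k := by simp
  rw [count_sat φ hφ]
  have h2N : (0 : ℝ) < 2 ^ Fintype.card (Fin h ⊕ Fin k) := by positivity
  have hc := conv_formula (nu : (Fin t → (Fin h ⊕ Fin k) × Bool) → _) (chs φ L) (chs φ M)
  have e0 : ∑ x, ∑ r : Fin t → (Fin h ⊕ Fin k) × Bool, chs φ L x * chs φ M (x + nu r) =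
      ∑ x, ∑ r : Fin t → (Fin h ⊕ Fin k) × Bool, chs φ L x *
        chs φ M (fun i => xor (x i) (nu r i)) := rfl
  rw [div_eq_iff h2N.ne'] at hc
  rw [e0, hc]
  obtain ⟨ρ, hρ⟩ : ∃ ρ : ℝ, ρ = Real.exp (-(t / N)) := ⟨_, rfl⟩
  have hρ0 : 0 ≤ ρ := by rw [hρ]; positivity
  have hρ1 : ρ ≤ 1 := by
    rw [hρ, Real.exp_le_one_iff]
    have : 0 ≤ (t : ℝ) / N := by positivity
    linarith
  obtain ⟨μ, hμ⟩ : ∃ μ : ℝ, μ = 1 / 2 ^ h := ⟨_, rfl⟩
  have hμ0 : 0 ≤ μ := by rw [hμ]; positivity
  have hτ2 : Real.sqrt μ ^ 2 = μ := Real.sq_sqrt hμ0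
  have h01 : ∀ (L : (Fin k → Bool) → (Fin h → Bool)) x, chs φ L x = 0 ∨ chs φ L x = 1 := by
    intro L x
    unfold chs
    split_ifs <;> simp
  have hdens : ∀ L : (Fin k → Bool) → (Fin h → Bool),
      (∑ x, chs φ L x) / 2 ^ Fintype.card (Fin h ⊕ Fin k) = μ := by
    intro L
    rw [sum_chs, hNn, pow_add, hμ]
    field_simp
  have hstab : ∀ L : (Fin k → Bool) → (Fin h → Bool), ∑ S, ρ ^ S.card * fc (chs φ L) S ^ 2 ≤
      (3 ^ l * Real.sqrt μ + ρ ^ l) * μ := fun L =>
    stab_small (chs φ L) (h01 L) μ (Real.sqrt μ) ρ (hdens L) (Real.sqrt_nonneg _) hτ2 hρ0 hρ1 l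
  have hterm : ∀ S : Finset (Fin h ⊕ Fin k),
      (∑ r : Fin t → (Fin h ⊕ Fin k) × Bool, walsh S (nu r)) *
        (fc (chs φ L) S * fc (chs φ M) S) ≤
      (2 * N) ^ t * ((ρ ^ S.card * fc (chs φ L) S ^ 2 + ρ ^ S.card * fc (chs φ M) S ^ 2) / 2) := by
    intro S
    rw [sum_walsh_nu, ← hN]
    have hSN : (S.card : ℝ) ≤ N := by
      rw [hN]; exact_mod_cast Finset.card_le_univ S
    have e1 : 0 ≤ 1 - (S.card : ℝ) / N := by
      rw [sub_nonneg, div_le_one hN0]; exact hSN
    have e2 : (1 - (S.card : ℝ) / N) ^ t ≤ ρ ^ S.card := by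
      have e3 : 1 - (S.card : ℝ) / N ≤ Real.exp (-(S.card / N)) := by
        have := Real.add_one_le_exp (-(S.card / N : ℝ))
        linarith
      calc (1 - (S.card : ℝ) / N) ^ t ≤ Real.exp (-(S.card / N)) ^ t :=
            pow_le_pow_left₀ e1 e3 t
        _ = ρ ^ S.card := by
            rw [hρ, ← Real.exp_nat_mul, ← Real.exp_nat_mul]
            congr 1; ring
    have e4 : fc (chs φ L) S * fc (chs φ M) S ≤
        (fc (chs φ L) S ^ 2 + fc (chs φ M) S ^ 2) / 2 := by
      nlinarith [sq_nonneg (fc (chs φ L) S - fc (chs φ M) S)]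
    have e5 : 0 ≤ (1 - (S.card : ℝ) / N) ^ t := pow_nonneg e1 t
    have e6 : 0 ≤ (fc (chs φ L) S ^ 2 + fc (chs φ M) S ^ 2) / 2 := by positivity
    calc (2 * N) ^ t * (1 - (S.card : ℝ) / N) ^ t * (fc (chs φ L) S * fc (chs φ M) S)
        = (2 * N) ^ t * ((1 - (S.card : ℝ) / N) ^ t * (fc (chs φ L) S * fc (chs φ M) S)) := by ring
      _ ≤ (2 * N) ^ t * (ρ ^ S.card * ((fc (chs φ L) S ^ 2 + fc (chs φ M) S ^ 2) / 2)) := by
          apply mul_le_mul_of_nonneg_left _ (by positivity)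
          calc (1 - (S.card : ℝ) / N) ^ t * (fc (chs φ L) S * fc (chs φ M) S)
              ≤ (1 - (S.card : ℝ) / N) ^ t * ((fc (chs φ L) S ^ 2 + fc (chs φ M) S ^ 2) / 2) :=
                mul_le_mul_of_nonneg_left e4 e5
            _ ≤ ρ ^ S.card * ((fc (chs φ L) S ^ 2 + fc (chs φ M) S ^ 2) / 2) :=
                mul_le_mul_of_nonneg_right e2 e6
      _ = _ := by ring
  have hsum := Finset.sum_le_sum fun S (_ : S ∈ (Finset.univ : Finset (Finset (Fin h ⊕ Fin k)))) =>
    hterm S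
  rw [← Finset.mul_sum, ← Finset.sum_div, Finset.sum_add_distrib] at hsum
  have hL := hstab L
  have hM := hstab M
  have hρl : ρ ^ l = Real.exp (-(t * l / N)) := by
    rw [hρ, ← Real.exp_nat_mul]
    congr 1; ring
  have hcardE : (Fintype.card (Edg h k t) : ℝ) = 2 ^ k * (2 * N) ^ t := by
    unfold Edg
    rw [Fintype.card_prod, Fintype.card_fun, Fintype.card_fun, Fintype.card_prod]
    simp only [Fintype.card_fin, Fintype.card_bool]
    push_cast
    rw [← hN]
    ring
  have hfin : (2 : ℝ) ^ Fintype.card (Fin h ⊕ Fin k) * μ = 2 ^ k := by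
    rw [hNn, pow_add, hμ]; field_simp
  have hX : (∑ S, ρ ^ S.card * fc (chs φ L) S ^ 2 + ∑ S, ρ ^ S.card * fc (chs φ M) S ^ 2) / 2 ≤
      (3 ^ l * Real.sqrt μ + ρ ^ l) * μ := by linarith
  calc (∑ S : Finset (Fin h ⊕ Fin k), (∑ r : Fin t → (Fin h ⊕ Fin k) × Bool, walsh S (nu r)) *
        (fc (chs φ L) S * fc (chs φ M) S)) * 2 ^ Fintype.card (Fin h ⊕ Fin k)
      ≤ ((2 * N) ^ t * ((3 ^ l * Real.sqrt μ + ρ ^ l) * μ)) *
          2 ^ Fintype.card (Fin h ⊕ Fin k) := by
        apply mul_le_mul_of_nonneg_right _ h2N.le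
        refine hsum.trans ?_
        exact mul_le_mul_of_nonneg_left hX (by positivity)
    _ = (3 ^ l * Real.sqrt μ + ρ ^ l) * (((2 : ℝ) ^ Fintype.card (Fin h ⊕ Fin k) * μ) *
          (2 * N) ^ t) := by ring
    _ = _ := by rw [hfin, hρl, hcardE, hμ]

end

end Pool.Agent.KS6_6.UG
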