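import Pool.Agent.KS6_6.UG.Walsh

set_option autoImplicit false

/-!
The mean sign on the cube, positive semidefinite kernels, and random pairs of coordinates.
-/

namespace Pool.Agent.KS6_6.UG

open Finset

section

variable {X : Type} [Fintype X] [DecidableEq X]

/-- Mean sign of the coordinates. -/
noncomputable def rho (x : X → Bool) : ℝ := (∑ i, sg (x i)) / Fintype.card X

/-- Positive semidefinite translation invariant kernels. -/
def PSDK (K : (X → Bool) → ℝ) : Prop :=
  ∀ (ι : Type) [Fintype ι] (f : ι → ℝ) (g : ι → X → Bool),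
    0 ≤ ∑ i, ∑ j, f i * f j * K (g i + g j)

omit [DecidableEq X] in
theorem rho_zero [Nonempty X] : rho (0 : X → Bool) = 1 := by
  unfold rho
  have h : ∀ i : X, sg ((0 : X → Bool) i) = 1 := fun _ => rfl
  simp only [h, Finset.sum_const, Finset.card_univ, nsmul_eq_mul, mul_one]
  exact div_self (by exact_mod_cast Fintype.card_ne_zero)

theorem sg_abs (b : Bool) : |sg b| = 1 := by cases b <;> simp [sg]

omit [DecidableEq X] in
theorem rho_abs [Nonempty X] (x : X → Bool) : |rho x| ≤ 1 := by
  unfold rho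
  have hN : (0 : ℝ) < Fintype.card X := by exact_mod_cast Fintype.card_pos
  rw [abs_div, abs_of_pos hN, div_le_one hN]
  refine (Finset.abs_sum_le_sum_abs _ _).trans ?_
  simp [sg_abs]

omit [DecidableEq X] in
theorem rho_sq_le [Nonempty X] (x : X → Bool) : rho x ^ 2 ≤ 1 := by
  rw [← sq_abs]
  exact pow_le_one₀ (abs_nonneg _) (rho_abs x)

omit [DecidableEq X] in
/-- The quantity `1 - |rho|` is subadditive. -/
theorem rho_tri [Nonempty X] (x y : X → Bool) :
    1 - |rho (x + y)| ≤ (1 - |rho x|) + (1 - |rho y|) := by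
  have hN : (0 : ℝ) < Fintype.card X := by exact_mod_cast Fintype.card_pos
  have hs : ∀ z : ℝ, ∃ s : ℝ, (s = 1 ∨ s = -1) ∧ s * z = |z| := by
    intro z
    rcases le_total 0 z with h | h
    · exact ⟨1, Or.inl rfl, by rw [abs_of_nonneg h, one_mul]⟩
    · exact ⟨-1, Or.inr rfl, by rw [abs_of_nonpos h]; ring⟩
  obtain ⟨s, hs1, hs2⟩ := hs (rho x)
  obtain ⟨s', hs1', hs2'⟩ := hs (rho y)
  have h1 : s * s' * rho (x + y) ≤ |rho (x + y)| := by
    have : |s * s'| = 1 := by
      rw [abs_mul]
      rcases hs1 with h | h <;> rcases hs1' with h' | h' <;> rw [h, h'] <;> simp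
    calc s * s' * rho (x + y) ≤ |s * s' * rho (x + y)| := le_abs_self _
      _ = |rho (x + y)| := by rw [abs_mul, this, one_mul]
  have h2 : ∀ i, 1 - s * s' * sg ((x + y) i) ≤ (1 - s * sg (x i)) + (1 - s' * sg (y i)) := by
    intro i
    rw [Pi.add_apply, sg_add]
    rcases hs1 with h | h <;> rcases hs1' with h' | h' <;> rw [h, h'] <;>
      cases x i <;> cases y i <;> simp [sg]
  have h3 := Finset.sum_le_sum fun i (_ : i ∈ (Finset.univ : Finset X)) => h2 i
  simp only [Finset.sum_sub_distrib, Finset.sum_add_distrib, ← Finset.mul_sum, Finset.sum_const,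
    Finset.card_univ, nsmul_eq_mul, mul_one] at h3
  have e : ∀ z : X → Bool, ∑ i, sg (z i) = Fintype.card X * rho z := by
    intro z; unfold rho; field_simp
  rw [e, e, e] at h3
  have h4 : (Fintype.card X : ℝ) * (1 - s * s' * rho (x + y)) ≤
      Fintype.card X * ((1 - s * rho x) + (1 - s' * rho y)) := by linarith
  have h5 := le_of_mul_le_mul_left h4 hN
  rw [hs2, hs2'] at h5
  linarith

omit [DecidableEq X] in
theorem psdk_pow (j : ℕ) : PSDK (fun x : X → Bool => rho x ^ j) := by
  intro ι _ f g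
  have h1 : ∀ i i', rho (g i + g i') ^ j =
      (∑ T : Fin j → X, (∏ l, sg (g i (T l))) * ∏ l, sg (g i' (T l))) /
        (Fintype.card X : ℝ) ^ j := by
    intro i i'
    unfold rho
    rw [div_pow, Fintype.sum_pow]
    congr 1
    refine Finset.sum_congr rfl fun T _ => ?_
    rw [← Finset.prod_mul_distrib]
    exact Finset.prod_congr rfl fun l _ => by rw [Pi.add_apply, sg_add]
  have h2 : ∑ i, ∑ i', f i * f i' * rho (g i + g i') ^ j =
      (∑ T : Fin j → X, (∑ i, f i * ∏ l, sg (g i (T l))) ^ 2) / (Fintype.card X : ℝ) ^ j := by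
    simp only [h1]
    have h3 : ∀ i i', f i * f i' * ((∑ T : Fin j → X, (∏ l, sg (g i (T l))) *
        ∏ l, sg (g i' (T l))) / (Fintype.card X : ℝ) ^ j) =
        (∑ T : Fin j → X, (f i * ∏ l, sg (g i (T l))) * (f i' * ∏ l, sg (g i' (T l)))) /
          (Fintype.card X : ℝ) ^ j := by
      intro i i'
      rw [← mul_div_assoc, Finset.mul_sum]
      congr 1
      exact Finset.sum_congr rfl fun T _ => by ring
    simp only [h3, ← Finset.sum_div]
    congr 1
    have h4 : ∀ i, ∑ i', ∑ T : Fin j → X, (f i * ∏ l, sg (g i (T l))) *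
        (f i' * ∏ l, sg (g i' (T l))) = ∑ T : Fin j → X, (f i * ∏ l, sg (g i (T l))) *
        ∑ i', (f i' * ∏ l, sg (g i' (T l))) := by
      intro i
      rw [Finset.sum_comm]
      exact Finset.sum_congr rfl fun T _ => by rw [Finset.mul_sum]
    simp only [h4]
    rw [Finset.sum_comm]
    exact Finset.sum_congr rfl fun T _ => by rw [← Finset.sum_mul, sq]
  simp only
  rw [h2]
  exact div_nonneg (Finset.sum_nonneg fun _ _ => sq_nonneg _) (by positivity)

omit [Fintype X] [DecidableEq X] in
theorem psdk_smul (c : ℝ) (hc : 0 ≤ c) (K : (X → Bool) → ℝ) (hK : PSDK K) :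
    PSDK (fun x => c * K x) := by
  intro ι _ f g
  have : ∑ i, ∑ j, f i * f j * (c * K (g i + g j)) = c * ∑ i, ∑ j, f i * f j * K (g i + g j) := by
    rw [Finset.mul_sum]
    refine Finset.sum_congr rfl fun i _ => ?_
    rw [Finset.mul_sum]
    exact Finset.sum_congr rfl fun j _ => by ring
  rw [this]
  exact mul_nonneg hc (hK ι f g)

omit [Fintype X] [DecidableEq X] in
theorem psdk_sum {J : Type} (s : Finset J) (K : J → (X → Bool) → ℝ) (hK : ∀ l ∈ s, PSDK (K l)) :
    PSDK (fun x => ∑ l ∈ s, K l x) := by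
  intro ι _ f g
  have : ∑ i, ∑ j, f i * f j * ∑ l ∈ s, K l (g i + g j) =
      ∑ l ∈ s, ∑ i, ∑ j, f i * f j * K l (g i + g j) := by
    simp only [Finset.mul_sum]
    have h1 : ∀ i, ∑ j, ∑ l ∈ s, f i * f j * K l (g i + g j) =
        ∑ l ∈ s, ∑ j, f i * f j * K l (g i + g j) := fun i => Finset.sum_comm
    simp only [h1]
    rw [Finset.sum_comm]
  rw [this]
  exact Finset.sum_nonneg fun l hl => hK l hl ι f g

omit [DecidableEq X] in
/-- Bessel type inequality for almost orthogonal points. -/
theorem code_sum [Nonempty X] {ι : Type} [Fintype ι] [DecidableEq ι] (y : ι → X → Bool) (j : ℕ)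
    (β : ℝ)
    (hβ : 0 ≤ β) (hy : ∀ i i', i ≠ i' → |rho (y i + y i')| ^ j ≤ β) (x : X → Bool) :
    ∑ i, rho (x + y i) ^ (2 * j) ≤ 1 + Fintype.card ι * β := by
  set L : ℝ := 1 + Fintype.card ι * β with hL
  have hL1 : 1 ≤ L := by
    have : (0 : ℝ) ≤ Fintype.card ι * β := by positivity
    linarith
  let c : ι → ℝ := fun i => rho (x + y i) ^ j
  have hC : ∑ i, rho (x + y i) ^ (2 * j) = ∑ i, c i ^ 2 := by
    refine Finset.sum_congr rfl fun i _ => ?_
    simp only [c]; rw [← pow_mul, mul_comm]
  rw [hC]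
  set C := ∑ i, c i ^ 2 with hCdef
  have hC0 : 0 ≤ C := Finset.sum_nonneg fun _ _ => sq_nonneg _
  have h := psdk_pow (X := X) j (Option ι) (fun o => o.elim L (fun i => - c i))
    (fun o => o.elim x y)
  simp only [Fintype.sum_option, Option.elim] at h
  have e0 : rho (x + x) ^ j = 1 := by rw [pi_add_self, rho_zero, one_pow]
  have e1 : ∀ i, rho (x + y i) ^ j = c i := fun i => rfl
  have e2 : ∀ i, rho (y i + x) ^ j = c i := fun i => by rw [add_comm]
  simp only [e0, e1, e2, mul_one] at h
  have h2 : ∑ i, ∑ i', -c i * -c i' * rho (y i + y i') ^ j ≤ L * C := by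
    have h3 : ∀ i i', -c i * -c i' * rho (y i + y i') ^ j ≤
        (if i = i' then c i ^ 2 else 0) + β * (|c i| * |c i'|) := by
      intro i i'
      by_cases hii : i = i'
      · subst hii
        rw [if_pos rfl, pi_add_self, rho_zero, one_pow]
        have : 0 ≤ β * (|c i| * |c i|) := by positivity
        nlinarith
      · rw [if_neg hii, zero_add]
        calc -c i * -c i' * rho (y i + y i') ^ j ≤ |(-c i * -c i') * rho (y i + y i') ^ j| :=
              le_abs_self _
          _ = |rho (y i + y i')| ^ j * (|c i| * |c i'|) := by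
              rw [abs_mul, abs_mul, abs_neg, abs_neg, abs_pow (rho (y i + y i'))]; ring
          _ ≤ β * (|c i| * |c i'|) := by
              apply mul_le_mul_of_nonneg_right (hy i i' hii); positivity
    have h4 : ∑ i, ∑ i', -c i * -c i' * rho (y i + y i') ^ j ≤
        ∑ i, ∑ i', ((if i = i' then c i ^ 2 else 0) + β * (|c i| * |c i'|)) :=
      Finset.sum_le_sum fun i _ => Finset.sum_le_sum fun i' _ => h3 i i'
    refine h4.trans ?_
    have h5 : ∑ i, ∑ i', ((if i = i' then c i ^ 2 else 0) + β * (|c i| * |c i'|)) =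
        C + β * (∑ i, |c i|) ^ 2 := by
      simp only [Finset.sum_add_distrib, Finset.sum_ite_eq, Finset.mem_univ, if_true]
      rw [hCdef]
      congr 1
      simp only [← Finset.mul_sum]
      rw [sq, Finset.sum_mul]
    rw [h5]
    have h6 : (∑ i, |c i|) ^ 2 ≤ Fintype.card ι * C := by
      have := sq_sum_le_card_mul_sum_sq (s := (Finset.univ : Finset ι)) (f := fun i => |c i|)
      simp only [sq_abs, Finset.card_univ] at this
      exact this
    calc C + β * (∑ i, |c i|) ^ 2 ≤ C + β * (Fintype.card ι * C) := by gcongr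
      _ = L * C := by rw [hL]; ring
  have h7 : ∑ i, L * -c i * c i = -(L * C) := by
    rw [hCdef, Finset.mul_sum, ← Finset.sum_neg_distrib]
    exact Finset.sum_congr rfl fun i _ => by ring
  have h8 : ∑ i, (-c i * L * c i + ∑ i', -c i * -c i' * rho (y i + y i') ^ j) =
      -(L * C) + ∑ i, ∑ i', -c i * -c i' * rho (y i + y i') ^ j := by
    rw [Finset.sum_add_distrib, ← h7]
    congr 1
    exact Finset.sum_congr rfl fun i _ => by ring
  rw [h7, h8] at h
  nlinarith

/-- All pairs of coordinates in `T` have equal values. -/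
def Agree {m : ℕ} (T : Fin m → X × X) (x : X → Bool) : Prop := ∀ j, x (T j).1 = x (T j).2

instance {m : ℕ} (T : Fin m → X × X) (x : X → Bool) : Decidable (Agree T x) := by
  unfold Agree; infer_instance

omit [Fintype X] [DecidableEq X] in
theorem agree_zero {m : ℕ} (T : Fin m → X × X) : Agree T 0 := fun _ => rfl

omit [Fintype X] [DecidableEq X] in
theorem agree_add {m : ℕ} (T : Fin m → X × X) (x y : X → Bool) (hx : Agree T x)
    (hy : Agree T y) : Agree T (x + y) := by
  intro j
  rw [Pi.add_apply, Pi.add_apply, hx j, hy j]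

omit [DecidableEq X] in
theorem agree_prob [Nonempty X] (m : ℕ) (x : X → Bool) :
    ∑ T : Fin m → X × X, (1 / (Fintype.card X : ℝ) ^ (2 * m)) * (if Agree T x then 1 else 0) =
      ((1 + rho x ^ 2) / 2) ^ m := by
  have hN : (0 : ℝ) < Fintype.card X := by exact_mod_cast Fintype.card_pos
  rw [← Finset.mul_sum]
  have h1 : ∀ T : Fin m → X × X, (if Agree T x then (1 : ℝ) else 0) =
      ∏ j, ((1 + sg (x (T j).1) * sg (x (T j).2)) / 2) := by
    intro T
    by_cases h : Agree T x
    · rw [if_pos h, Finset.prod_eq_one]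
      intro j _
      rw [h j, sg_mul_self]; norm_num
    · rw [if_neg h]
      unfold Agree at h
      push Not at h
      obtain ⟨j, hj⟩ := h
      symm
      apply Finset.prod_eq_zero (Finset.mem_univ j)
      cases h1 : x (T j).1 <;> cases h2 : x (T j).2 <;> simp [h1, h2] at hj ⊢
  simp only [h1]
  rw [← Fintype.sum_pow (fun p : X × X => (1 + sg (x p.1) * sg (x p.2)) / 2)]
  have h2 : ∑ p : X × X, (1 + sg (x p.1) * sg (x p.2)) / 2 =
      (Fintype.card X : ℝ) ^ 2 * ((1 + rho x ^ 2) / 2) := by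
    rw [← Finset.sum_div, Finset.sum_add_distrib, Fintype.sum_prod_type]
    have h3 : ∑ i : X, ∑ i' : X, sg (x i) * sg (x i') = (∑ i, sg (x i)) ^ 2 := by
      simp only [← Finset.mul_sum]
      rw [sq, Finset.sum_mul]
    have h4 : ∑ p : X × X, sg (x p.1) * sg (x p.2) = (∑ i, sg (x i)) ^ 2 := by
      rw [Fintype.sum_prod_type, h3]
    rw [h4]
    simp only [Finset.sum_const, Finset.card_univ, nsmul_eq_mul, mul_one]
    unfold rho
    field_simp
  rw [h2, mul_pow, ← pow_mul]
  field_simp

end

end Pool.Agent.KS6_6.UG
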