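import Pool.Agent.KS6_6.UG.Trunc
import Pool.Agent.KS6_6.UG.Cluster

set_option autoImplicit false

/-!
Local distributions of labelings for the cosets of a linear code.
-/

namespace Pool.Agent.KS6_6.UG

open Finset

/-- The point with label `a` of the vertex `u`. -/
def pt {h k : ℕ} (φ : (Fin h → Bool) → (Fin k → Bool)) (u : Fin k → Bool) (a : Fin h → Bool) :
    Fin h ⊕ Fin k → Bool := Sum.elim a (u + φ a)

section

variable {h k : ℕ} (φ : (Fin h → Bool) → (Fin k → Bool))
  (hφ : ∀ a b, φ (a + b) = φ a + φ b)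

include hφ in
theorem pt_add (u v : Fin k → Bool) (a b : Fin h → Bool) :
    pt φ u a + pt φ v b = pt φ (u + v) (a + b) := by
  unfold pt
  rw [hφ]
  funext i
  rcases i with i | i
  · rfl
  · simp only [Pi.add_apply, Sum.elim_inr]
    abel

theorem add_self_cancel {Y : Type} (u v w : Y → Bool) : (u + v) + (v + w) = u + w := by
  calc (u + v) + (v + w) = u + w + (v + v) := by abel
    _ = u + w := by rw [pi_add_self, add_zero]

/-- Distance of a point from the constants, normalized. -/
noncomputable def far (u : Fin k → Bool) (d : Fin h → Bool) : ℝ := 1 - |rho (pt φ u d)|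

variable [Nonempty (Fin h ⊕ Fin k)]

include hφ in
theorem far_add (u v : Fin k → Bool) (a b : Fin h → Bool) :
    far φ (u + v) (a + b) ≤ far φ u a + far φ v b := by
  unfold far
  rw [← pt_add φ hφ]
  exact rho_tri _ _

include hφ in
theorem phi_zero : φ 0 = 0 := by
  have h1 := hφ 0 0
  rw [add_zero] at h1
  rw [h1, pi_add_self]

include hφ in
theorem pt_zero : pt φ 0 0 = 0 := by
  unfold pt
  rw [phi_zero φ hφ, add_zero]
  funext i
  rcases i with i | i <;> rfl

include hφ in
theorem far_zero : far φ 0 0 = 0 := by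
  unfold far
  rw [pt_zero φ hφ, rho_zero, abs_one, sub_self]

variable (α a : ℝ) (hcode : ∀ d, d ≠ 0 → |rho (pt φ 0 d)| ≤ α) (ha0 : 0 ≤ a)
  (ha : 4 * a + α < 1)

include hφ hcode ha in
theorem far_unique (z : Fin k → Bool) (d d' : Fin h → Bool) (h1 : far φ z d ≤ 2 * a)
    (h2 : far φ z d' ≤ 2 * a) : d = d' := by
  by_contra hne
  have h3 := far_add φ hφ z z d d'
  rw [pi_add_self] at h3
  have h4 : d + d' ≠ 0 := by
    intro h5
    apply hne
    calc d = d + d' + d' := by
          calc d = d + (d' + d') := by rw [pi_add_self, add_zero]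
            _ = d + d' + d' := by abel
      _ = d' := by rw [h5, zero_add]
  have h5 := hcode _ h4
  unfold far at h1 h2 h3
  linarith

open Classical in
/-- The shift between the labels of two close vertices. -/
noncomputable def shift (u v : Fin k → Bool) : Fin h → Bool :=
  if hx : ∃ d, far φ (u + v) d ≤ a then hx.choose else 0

include hφ hcode ha ha0 in
theorem shift_eq (u v : Fin k → Bool) (d : Fin h → Bool) (hd : far φ (u + v) d ≤ a) :
    shift φ a u v = d := by
  have hx : ∃ d, far φ (u + v) d ≤ a := ⟨d, hd⟩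
  unfold shift
  rw [dif_pos hx]
  have h1 := hx.choose_spec
  exact far_unique φ hφ α a hcode ha (u + v) _ _ (by linarith) (by linarith)

/-- No pair of vertices of `S` at intermediate distance agrees on `T`. -/
def Good {m : ℕ} (S : Finset (Fin k → Bool)) (T : Fin m → (Fin h ⊕ Fin k) × (Fin h ⊕ Fin k)) :
    Prop :=
  ∀ u ∈ S, ∀ v ∈ S, ∀ d, a < far φ (u + v) d → far φ (u + v) d ≤ 2 * a →
    ¬ Agree T (pt φ (u + v) d)

/-- The relation of close vertices which agree on `T`. -/
def Rel {m : ℕ} (S : Finset (Fin k → Bool))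
    (T : Option (Fin m → (Fin h ⊕ Fin k) × (Fin h ⊕ Fin k))) (u v : Fin k → Bool) : Prop :=
  u = v ∨ ∃ T0, T = some T0 ∧ u ∈ S ∧ v ∈ S ∧ Good φ a S T0 ∧
    ∃ d, far φ (u + v) d ≤ a ∧ Agree T0 (pt φ (u + v) d)

include hφ in
theorem rel_equiv {m : ℕ} (S : Finset (Fin k → Bool))
    (T : Option (Fin m → (Fin h ⊕ Fin k) × (Fin h ⊕ Fin k))) : Equivalence (Rel φ a S T) := by
  refine ⟨fun u => Or.inl rfl, ?_, ?_⟩
  · intro u v h1
    rcases h1 with h1 | ⟨T0, h1, h2, h3, h4, d, h5, h6⟩
    · exact Or.inl h1.symm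
    · refine Or.inr ⟨T0, h1, h3, h2, h4, d, ?_, ?_⟩
      · rw [add_comm]; exact h5
      · rw [add_comm]; exact h6
  · intro u v w h1 h2
    rcases h1 with h1 | ⟨T0, h1, hu, hv, hg, d, h5, h6⟩
    · rw [h1]; exact h2
    rcases h2 with h2 | ⟨T1, h1', hv', hw, hg', d', h5', h6'⟩
    · rw [← h2]; exact Or.inr ⟨T0, h1, hu, hv, hg, d, h5, h6⟩
    have hT : T0 = T1 := by
      rw [h1] at h1'
      exact Option.some.inj h1'
    subst hT
    have e1 : (u + v) + (v + w) = u + w := add_self_cancel u v w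
    have h7 := far_add φ hφ (u + v) (v + w) d d'
    rw [e1] at h7
    have h8 := agree_add T0 _ _ h6 h6'
    rw [pt_add φ hφ, e1] at h8
    refine Or.inr ⟨T0, h1, hu, hw, hg, d + d', ?_, h8⟩
    by_contra hcon
    push Not at hcon
    exact hg u hu w hw (d + d') hcon (by linarith) h8

/-- The equivalence relation. -/
def relS {m : ℕ} (S : Finset (Fin k → Bool))
    (T : Option (Fin m → (Fin h ⊕ Fin k) × (Fin h ⊕ Fin k))) : Setoid (Fin k → Bool) :=
  ⟨Rel φ a S T, rel_equiv φ hφ a S T⟩

include hφ hcode ha ha0 in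
theorem rel_shift {m : ℕ} (S : Finset (Fin k → Bool))
    (T : Option (Fin m → (Fin h ⊕ Fin k) × (Fin h ⊕ Fin k))) (u v : Fin k → Bool)
    (hr : Rel φ a S T u v) : far φ (u + v) (shift φ a u v) ≤ a := by
  rcases hr with h1 | ⟨T0, h1, hu, hv, hg, d, h5, h6⟩
  · subst h1
    have h2 : far φ (u + u) 0 ≤ a := by rw [pi_add_self, far_zero φ hφ]; exact ha0
    rw [shift_eq φ hφ α a hcode ha0 ha u u 0 h2]
    exact h2
  · rw [shift_eq φ hφ α a hcode ha0 ha u v d h5]
    exact h5

include hφ hcode ha ha0 in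
theorem shift_add {m : ℕ} (S : Finset (Fin k → Bool))
    (T : Option (Fin m → (Fin h ⊕ Fin k) × (Fin h ⊕ Fin k))) (u v w : Fin k → Bool)
    (h1 : Rel φ a S T u v) (h2 : Rel φ a S T v w) :
    shift φ a u v + shift φ a v w = shift φ a u w := by
  have h3 := rel_shift φ hφ α a hcode ha0 ha S T u v h1
  have h4 := rel_shift φ hφ α a hcode ha0 ha S T v w h2
  have h5 := rel_shift φ hφ α a hcode ha0 ha S T u w ((rel_equiv φ hφ a S T).trans h1 h2)
  have h6 := far_add φ hφ (u + v) (v + w) (shift φ a u v) (shift φ a v w)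
  rw [add_self_cancel] at h6
  exact far_unique φ hφ α a hcode ha (u + w) _ _ (by linarith) (by linarith)

end

end Pool.Agent.KS6_6.UG
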