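import Mathlib

set_option autoImplicit false

/-!
Local distributions of labelings with prescribed pair marginals: correction of small errors.
-/

namespace Pool.Agent.KS6_6.UG

open Finset

section

variable {V A : Type} [Fintype V] [DecidableEq V] [Fintype A] [DecidableEq A]

/-- Weight of the labelings with `x u = a` and `x v = b`. -/
noncomputable def marg (P : (V → A) → ℝ) (u v : V) (a b : A) : ℝ :=
  ∑ x : V → A, if x u = a ∧ x v = b then P x else 0

omit [DecidableEq A] in
theorem sum_update (w : V) (G : (V → A) → ℝ) :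
    (Fintype.card A : ℝ) * ∑ x, G x = ∑ x, ∑ c, G (Function.update x w c) := by
  have h1 : ∑ p : (V → A) × A, G (Function.update p.1 w p.2) = ∑ p : (V → A) × A, G p.1 := by
    let e : ((V → A) × A) ≃ ((V → A) × A) :=
      { toFun := fun p => (Function.update p.1 w p.2, p.1 w)
        invFun := fun p => (Function.update p.1 w p.2, p.1 w)
        left_inv := fun p => by
          obtain ⟨x, c⟩ := p
          simp
        right_inv := fun p => by
          obtain ⟨x, c⟩ := p
          simp }
    exact Equiv.sum_comp e (fun p => G p.1)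
  rw [Fintype.sum_prod_type, Fintype.sum_prod_type] at h1
  rw [h1]
  simp only [Finset.sum_const, Finset.card_univ, nsmul_eq_mul]
  rw [Finset.mul_sum]

theorem sum_one_fix (u : V) (a : A) :
    (Fintype.card A : ℝ) * ∑ x : V → A, (if x u = a then (1 : ℝ) else 0) =
      (Fintype.card A : ℝ) ^ Fintype.card V := by
  rw [sum_update u]
  simp only [Function.update_self, Finset.sum_ite_eq', Finset.mem_univ, if_true]
  simp

theorem sum_two_fix (u v : V) (huv : u ≠ v) (a b : A) :
    (Fintype.card A : ℝ) ^ 2 * ∑ x : V → A, (if x u = a ∧ x v = b then (1 : ℝ) else 0) =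
      (Fintype.card A : ℝ) ^ Fintype.card V := by
  rw [sq, mul_assoc, sum_update u]
  have h : ∀ x : V → A, ∑ c, (if Function.update x u c u = a ∧ Function.update x u c v = b
      then (1 : ℝ) else 0) = if x v = b then 1 else 0 := by
    intro x
    have h1 : ∀ c, (if Function.update x u c u = a ∧ Function.update x u c v = b
      then (1 : ℝ) else 0) = if c = a then (if x v = b then 1 else 0) else 0 := by
      intro c
      rw [Function.update_self, Function.update_of_ne huv.symm]
      by_cases h1 : c = a <;> by_cases h2 : x v = b <;> simp [h1, h2]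
    simp only [h1, Finset.sum_ite_eq', Finset.mem_univ, if_true]
  simp only [h]
  exact sum_one_fix v b

/-- A function of two coordinates with vanishing marginals. -/
theorem sum_free (g : A → A → ℝ) (h1 : ∀ a, ∑ b, g a b = 0) (u' v' : V) (huv : u' ≠ v')
    (H : (V → A) → ℝ) (hH : ∀ x c, H (Function.update x v' c) = H x) [Nonempty A] :
    ∑ x : V → A, H x * g (x u') (x v') = 0 := by
  have hq : (Fintype.card A : ℝ) ≠ 0 := by
    exact_mod_cast Fintype.card_ne_zero
  apply mul_left_cancel₀ hq
  rw [sum_update v', mul_zero]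
  apply Finset.sum_eq_zero
  intro x _
  simp only [hH, Function.update_self, Function.update_of_ne huv]
  rw [← Finset.mul_sum, h1, mul_zero]

theorem sum_free' (g : A → A → ℝ) (h2 : ∀ b, ∑ a, g a b = 0) (u' v' : V) (huv : u' ≠ v')
    (H : (V → A) → ℝ) (hH : ∀ x c, H (Function.update x u' c) = H x) [Nonempty A] :
    ∑ x : V → A, H x * g (x u') (x v') = 0 :=
  sum_free (fun a b => g b a) h2 v' u' huv.symm H hH

theorem sum_marg (P : (V → A) → ℝ) (u v : V) (a : A) :
    ∑ b, marg P u v a b = ∑ x, if x u = a then P x else 0 := by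
  unfold marg
  rw [Finset.sum_comm]
  refine Finset.sum_congr rfl fun x _ => ?_
  by_cases h : x u = a
  · simp [h]
  · simp [h]

theorem marg_symm (P : (V → A) → ℝ) (u v : V) (a b : A) : marg P u v a b = marg P v u b a := by
  unfold marg
  refine Finset.sum_congr rfl fun x _ => ?_
  simp only [and_comm]

theorem marg_self (P : (V → A) → ℝ) (u : V) (a b : A) :
    marg P u u a b = if a = b then ∑ x, (if x u = a then P x else 0) else 0 := by
  unfold marg
  by_cases h : a = b
  · subst h
    simp
  · rw [if_neg h]
    apply Finset.sum_eq_zero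
    intro x _
    rw [if_neg]
    rintro ⟨h1, h2⟩
    exact h (h1.symm.trans h2)

/-- Correction of small one-sided errors in the pair marginals. -/
theorem smoothing [Nonempty A] (S : Finset V) (P : (V → A) → ℝ) (hP0 : ∀ x, 0 ≤ P x)
    (hP1 : ∑ x, P x = 1)
    (q : ℝ) (hq : q = Fintype.card A)
    (hone : ∀ u ∈ S, ∀ a, ∑ x, (if x u = a then P x else 0) = 1 / q)
    (M : V → V → A → A → ℝ) (hM1 : ∀ u v a, ∑ b, M u v a b = 1 / q)
    (hMs : ∀ u v a b, M u v a b = M v u b a)
    (lam : ℝ) (hl0 : 0 ≤ lam) (hl1 : lam ≤ 1)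
    (hle : ∀ u ∈ S, ∀ v ∈ S, u ≠ v → ∀ a b,
      marg P u v a b ≤ M u v a b + lam / (q ^ 2 * (S.card : ℝ) ^ 2)) :
    ∃ P' : (V → A) → ℝ, (∀ x, 0 ≤ P' x) ∧ ∑ x, P' x = 1 ∧
      (∀ u ∈ S, ∀ v ∈ S, u ≠ v → ∀ a b,
        marg P' u v a b = (1 - lam) * M u v a b + lam / q ^ 2) ∧
      (∀ u ∈ S, ∀ a, ∑ x, (if x u = a then P' x else 0) = 1 / q) := by
  have hq0 : (0 : ℝ) < q := by
    rw [hq]; exact_mod_cast Fintype.card_pos
  set n := Fintype.card V with hn
  have hqn : (0 : ℝ) < q ^ n := by positivity
  -- the correction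
  let g : V → V → A → A → ℝ := fun u v a b => M u v a b - marg P u v a b
  have hg1 : ∀ u ∈ S, ∀ v, ∀ a, ∑ b, g u v a b = 0 := by
    intro u hu v a
    simp only [g, Finset.sum_sub_distrib, hM1, sum_marg, hone u hu, sub_self]
  have hgs : ∀ u v a b, g u v a b = g v u b a := by
    intro u v a b
    simp only [g]
    rw [hMs, marg_symm]
  have hg2 : ∀ v ∈ S, ∀ u, ∀ b, ∑ a, g u v a b = 0 := by
    intro v hv u b
    simp only [hgs u v]
    exact hg1 v hv u b
  let c : ℝ := (1 - lam) * q ^ 2 / 2
  have hc0 : 0 ≤ c := by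
    have : 0 ≤ 1 - lam := by linarith
    positivity
  let G : (V → A) → ℝ := fun x => ∑ p ∈ S.offDiag, g p.1 p.2 (x p.1) (x p.2)
  let P' : (V → A) → ℝ := fun x => (1 - lam) * P x + (lam + c * G x) / q ^ n
  have hcardfun : (Fintype.card (V → A) : ℝ) = q ^ n := by
    rw [Fintype.card_fun, hq]; push_cast; rfl
  -- general sums against `G`
  have hsumG : ∀ H : (V → A) → ℝ, ∑ x, H x * G x =
      ∑ p ∈ S.offDiag, ∑ x, H x * g p.1 p.2 (x p.1) (x p.2) := by
    intro H
    simp only [G, Finset.mul_sum]
    rw [Finset.sum_comm]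
  have hsum0 : ∑ x, G x = 0 := by
    have := hsumG (fun _ => 1)
    simp only [one_mul] at this
    rw [this]
    apply Finset.sum_eq_zero
    intro p hp
    rw [Finset.mem_offDiag] at hp
    have := sum_free (g p.1 p.2) (hg1 p.1 hp.1 p.2) p.1 p.2 hp.2.2 (fun _ => 1) (fun _ _ => rfl)
    simpa using this
  have hsum1 : ∀ u a, ∑ x, (if x u = a then (1 : ℝ) else 0) * G x = 0 := by
    intro u a
    rw [hsumG]
    apply Finset.sum_eq_zero
    intro p hp
    rw [Finset.mem_offDiag] at hp
    by_cases h : p.2 = u
    · apply sum_free' (g p.1 p.2) (hg2 p.2 hp.2.1 p.1) p.1 p.2 hp.2.2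
      intro x d
      have : u ≠ p.1 := fun h' => hp.2.2 (h'.symm.trans h.symm)
      rw [Function.update_of_ne this]
    · apply sum_free (g p.1 p.2) (hg1 p.1 hp.1 p.2) p.1 p.2 hp.2.2
      intro x d
      rw [Function.update_of_ne (Ne.symm h)]
  have hsum2 : ∀ u ∈ S, ∀ v ∈ S, u ≠ v → ∀ a b,
      ∑ x, (if x u = a ∧ x v = b then (1 : ℝ) else 0) * G x = 2 * g u v a b * (q ^ n / q ^ 2) := by
    intro u hu v hv huv a b
    rw [hsumG]
    have key : ∀ p ∈ S.offDiag, ∑ x : V → A, (if x u = a ∧ x v = b then (1 : ℝ) else 0) *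
        g p.1 p.2 (x p.1) (x p.2) =
        (if p = (u, v) then g u v a b * (q ^ n / q ^ 2) else 0) +
        (if p = (v, u) then g u v a b * (q ^ n / q ^ 2) else 0) := by
      intro p hp
      rw [Finset.mem_offDiag] at hp
      have hcount : ∑ x : V → A, (if x u = a ∧ x v = b then (1 : ℝ) else 0) = q ^ n / q ^ 2 := by
        rw [eq_div_iff (by positivity), mul_comm, hq]
        exact sum_two_fix u v huv a b
      by_cases h1 : p = (u, v)
      · have h2 : p ≠ (v, u) := by
          rw [h1]; intro h; exact huv (Prod.mk.inj h).1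
        rw [if_pos h1, if_neg h2, add_zero, ← hcount, Finset.mul_sum]
        refine Finset.sum_congr rfl fun x _ => ?_
        rw [h1]
        by_cases h3 : x u = a ∧ x v = b
        · rw [if_pos h3, h3.1, h3.2]; ring
        · rw [if_neg h3]; ring
      · by_cases h2 : p = (v, u)
        · rw [if_neg h1, if_pos h2, zero_add, ← hcount, Finset.mul_sum]
          refine Finset.sum_congr rfl fun x _ => ?_
          rw [h2]
          by_cases h3 : x u = a ∧ x v = b
          · rw [if_pos h3]
            simp only
            rw [h3.1, h3.2, hgs v u b a]; ring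
          · rw [if_neg h3]; ring
        · rw [if_neg h1, if_neg h2, add_zero]
          by_cases h3 : p.2 = u ∨ p.2 = v
          · -- then `p.1` is free
            have h4 : p.1 ≠ u ∧ p.1 ≠ v := by
              constructor
              · intro h5
                rcases h3 with h6 | h6
                · exact hp.2.2 (h5.trans h6.symm)
                · exact h1 (Prod.ext h5 h6)
              · intro h5
                rcases h3 with h6 | h6
                · exact h2 (Prod.ext h5 h6)
                · exact hp.2.2 (h5.trans h6.symm)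
            apply sum_free' (g p.1 p.2) (hg2 p.2 hp.2.1 p.1) p.1 p.2 hp.2.2
            intro x d
            rw [Function.update_of_ne h4.1.symm, Function.update_of_ne h4.2.symm]
          · push Not at h3
            apply sum_free (g p.1 p.2) (hg1 p.1 hp.1 p.2) p.1 p.2 hp.2.2
            intro x d
            rw [Function.update_of_ne h3.1.symm, Function.update_of_ne h3.2.symm]
    rw [Finset.sum_congr rfl key, Finset.sum_add_distrib, Finset.sum_ite_eq',
      Finset.sum_ite_eq', if_pos, if_pos]
    · ring
    · rw [Finset.mem_offDiag]; exact ⟨hv, hu, huv.symm⟩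
    · rw [Finset.mem_offDiag]; exact ⟨hu, hv, huv⟩
  refine ⟨P', ?_, ?_, ?_, ?_⟩
  · intro x
    have h1 : 0 ≤ (1 - lam) * P x := mul_nonneg (by linarith) (hP0 x)
    have h2 : -(lam / q ^ 2) ≤ G x := by
      by_cases hS : S.offDiag = ∅
      · simp only [G, hS, Finset.sum_empty]
        have : 0 ≤ lam / q ^ 2 := by positivity
        linarith
      · have hSne : 0 < S.card := by
          rw [Finset.card_pos]
          obtain ⟨p, hp⟩ := Finset.nonempty_iff_ne_empty.mpr hS
          exact ⟨p.1, (Finset.mem_offDiag.mp hp).1⟩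
        have hS0 : (0 : ℝ) < S.card := by exact_mod_cast hSne
        have h3 : ∀ p ∈ S.offDiag, -(lam / (q ^ 2 * (S.card : ℝ) ^ 2)) ≤
            g p.1 p.2 (x p.1) (x p.2) := by
          intro p hp
          rw [Finset.mem_offDiag] at hp
          have := hle p.1 hp.1 p.2 hp.2.1 hp.2.2 (x p.1) (x p.2)
          simp only [g]
          linarith
        have h4 := Finset.card_nsmul_le_sum S.offDiag
          (fun p => g p.1 p.2 (x p.1) (x p.2)) _ h3
        rw [nsmul_eq_mul] at h4
        refine le_trans ?_ h4
        have h5 : (S.offDiag.card : ℝ) ≤ (S.card : ℝ) ^ 2 := by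
          rw [Finset.offDiag_card]
          have : S.card * S.card - S.card ≤ S.card ^ 2 := by
            rw [sq]; exact Nat.sub_le _ _
          exact_mod_cast this
        have h6 : (S.offDiag.card : ℝ) * (lam / (q ^ 2 * (S.card : ℝ) ^ 2)) ≤ lam / q ^ 2 := by
          calc (S.offDiag.card : ℝ) * (lam / (q ^ 2 * (S.card : ℝ) ^ 2))
              ≤ (S.card : ℝ) ^ 2 * (lam / (q ^ 2 * (S.card : ℝ) ^ 2)) := by
                apply mul_le_mul_of_nonneg_right h5; positivity
            _ = lam / q ^ 2 := by field_simp
        linarith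
    have h3 : 0 ≤ lam + c * G x := by
      have h4 : c * -(lam / q ^ 2) ≤ c * G x := mul_le_mul_of_nonneg_left h2 hc0
      have h5 : c * -(lam / q ^ 2) = -((1 - lam) / 2 * lam) := by
        simp only [c]; field_simp
      have h6 : (1 - lam) / 2 * lam ≤ lam := by nlinarith
      linarith
    have : 0 ≤ (lam + c * G x) / q ^ n := div_nonneg h3 hqn.le
    simp only [P']
    linarith
  · simp only [P']
    rw [Finset.sum_add_distrib, ← Finset.mul_sum, hP1, ← Finset.sum_div, Finset.sum_add_distrib,
      ← Finset.mul_sum, hsum0, Finset.sum_const, Finset.card_univ, nsmul_eq_mul, hcardfun]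
    field_simp
    ring
  · intro u hu v hv huv a b
    have h1 : marg P' u v a b = (1 - lam) * marg P u v a b +
        (lam * ∑ x : V → A, (if x u = a ∧ x v = b then (1 : ℝ) else 0) +
          c * ∑ x : V → A, (if x u = a ∧ x v = b then (1 : ℝ) else 0) * G x) / q ^ n := by
      unfold marg
      rw [Finset.mul_sum, Finset.mul_sum, Finset.mul_sum, ← Finset.sum_add_distrib,
        Finset.sum_div, ← Finset.sum_add_distrib]
      refine Finset.sum_congr rfl fun x _ => ?_
      by_cases h : x u = a ∧ x v = b
      · simp only [if_pos h, P']; ring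
      · simp only [if_neg h]; ring
    have hcount : ∑ x : V → A, (if x u = a ∧ x v = b then (1 : ℝ) else 0) = q ^ n / q ^ 2 := by
      rw [eq_div_iff (by positivity), mul_comm, hq]
      exact sum_two_fix u v huv a b
    rw [h1, hcount, hsum2 u hu v hv huv a b]
    simp only [c, g]
    field_simp
    ring
  · intro u hu a
    have h1 : ∑ x, (if x u = a then P' x else 0) = (1 - lam) * ∑ x, (if x u = a then P x else 0) +
        (lam * ∑ x : V → A, (if x u = a then (1 : ℝ) else 0) +
          c * ∑ x : V → A, (if x u = a then (1 : ℝ) else 0) * G x) / q ^ n := by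
      rw [Finset.mul_sum, Finset.mul_sum, Finset.mul_sum, ← Finset.sum_add_distrib,
        Finset.sum_div, ← Finset.sum_add_distrib]
      refine Finset.sum_congr rfl fun x _ => ?_
      by_cases h : x u = a
      · simp only [if_pos h, P']; ring
      · simp only [if_neg h]; ring
    have hcount : ∑ x : V → A, (if x u = a then (1 : ℝ) else 0) = q ^ n / q := by
      rw [eq_div_iff (by positivity), mul_comm, hq]
      exact sum_one_fix u a
    rw [h1, hcount, hsum1 u a, hone u hu a]
    field_simp
    ring

end

end Pool.Agent.KS6_6.UG
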