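import Pool.Agent.KS6_6.UG.Ortho

set_option autoImplicit false

/-!
The kernel `((1 + s) / 2) ^ m` without its terms of low degree, `s` the square of the mean sign.
-/

namespace Pool.Agent.KS6_6.UG

open Finset

/-- Weight of the terms of degree at least `j`. -/
noncomputable def topw (m j : ℕ) : ℝ := ∑ i ∈ Finset.Icc j m, (m.choose i : ℝ)

/-- The truncated polynomial. -/
noncomputable def kt (m j : ℕ) (s : ℝ) : ℝ :=
  (∑ i ∈ Finset.Icc j m, (m.choose i : ℝ) * s ^ i) / topw m j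

theorem topw_pos (m j : ℕ) (hj : j ≤ m) : 0 < topw m j := by
  unfold topw
  apply Finset.sum_pos
  · intro i hi
    exact_mod_cast Nat.choose_pos (Finset.mem_Icc.mp hi).2
  · exact ⟨j, Finset.mem_Icc.mpr ⟨le_rfl, hj⟩⟩

theorem full_eq (m j : ℕ) (hj : j ≤ m) (s : ℝ) :
    (1 + s) ^ m = ∑ i ∈ Finset.range j, (m.choose i : ℝ) * s ^ i + topw m j * kt m j s := by
  have h1 : topw m j * kt m j s = ∑ i ∈ Finset.Icc j m, (m.choose i : ℝ) * s ^ i := by
    unfold kt
    rw [mul_div_cancel₀ _ (topw_pos m j hj).ne']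
  have h2 : Finset.Icc j m = Finset.Ico j (m + 1) := by
    ext i; simp only [Finset.mem_Icc, Finset.mem_Ico]; omega
  rw [h1, h2, Finset.sum_range_add_sum_Ico _ (by omega : j ≤ m + 1), add_comm 1 s, add_pow]
  refine Finset.sum_congr rfl fun i _ => ?_
  rw [one_pow, mul_one, mul_comm]

theorem kt_nonneg (m j : ℕ) (s : ℝ) (hs : 0 ≤ s) : 0 ≤ kt m j s := by
  unfold kt topw
  apply div_nonneg <;> exact Finset.sum_nonneg fun _ _ => by positivity

theorem kt_one (m j : ℕ) (hj : j ≤ m) : kt m j 1 = 1 := by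
  unfold kt
  simp only [one_pow, mul_one]
  exact div_self (topw_pos m j hj).ne'

theorem kt_le_pow (m j : ℕ) (hj : j ≤ m) (s : ℝ) (hs : 0 ≤ s) (hs1 : s ≤ 1) :
    kt m j s ≤ s ^ j := by
  unfold kt
  rw [div_le_iff₀ (topw_pos m j hj), topw, Finset.mul_sum]
  refine Finset.sum_le_sum fun i hi => ?_
  rw [mul_comm]
  apply mul_le_mul_of_nonneg_right _ (by positivity)
  exact pow_le_pow_of_le_one hs hs1 (Finset.mem_Icc.mp hi).1

theorem topw_le (m j : ℕ) : topw m j ≤ 2 ^ m := by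
  unfold topw
  have h := Nat.sum_range_choose m
  have h1 : ∑ i ∈ Finset.Icc j m, (m.choose i : ℝ) ≤ ∑ i ∈ Finset.range (m + 1), (m.choose i : ℝ) := by
    apply Finset.sum_le_sum_of_subset_of_nonneg
    · intro i hi
      rw [Finset.mem_range]
      have := (Finset.mem_Icc.mp hi).2
      omega
    · intro i _ _; positivity
  refine h1.trans (le_of_eq ?_)
  exact_mod_cast h

theorem low_le (m j : ℕ) (hj : 8 * j ≤ m) :
    ∑ i ∈ Finset.range j, (m.choose i : ℝ) ≤ (3 / 4) ^ m * 2 ^ m := by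
  have h1 : ∑ i ∈ Finset.range j, (m.choose i : ℝ) ≤
      ∑ i ∈ Finset.range (m + 1), 8 ^ j * ((1 / 8 : ℝ) ^ i * 1 ^ (m - i) * (m.choose i : ℝ)) := by
    have h2 : ∑ i ∈ Finset.range j, (m.choose i : ℝ) ≤
        ∑ i ∈ Finset.range j, 8 ^ j * ((1 / 8 : ℝ) ^ i * 1 ^ (m - i) * (m.choose i : ℝ)) := by
      refine Finset.sum_le_sum fun i hi => ?_
      have h3 : (1 : ℝ) ≤ 8 ^ j * (1 / 8 : ℝ) ^ i := by
        rw [one_div, inv_pow, ← div_eq_mul_inv, le_div_iff₀ (by positivity), one_mul]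
        exact pow_le_pow_right₀ (by norm_num) (Finset.mem_range.mp hi).le
      have h4 : (0 : ℝ) ≤ m.choose i := by positivity
      rw [one_pow, mul_one]
      calc (m.choose i : ℝ) = 1 * m.choose i := (one_mul _).symm
        _ ≤ (8 ^ j * (1 / 8 : ℝ) ^ i) * m.choose i := mul_le_mul_of_nonneg_right h3 h4
        _ = _ := by ring
    refine h2.trans ?_
    apply Finset.sum_le_sum_of_subset_of_nonneg
    · intro i hi
      rw [Finset.mem_range] at hi ⊢
      omega
    · intro i _ _; positivity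
  refine h1.trans ?_
  rw [← Finset.mul_sum, ← add_pow]
  have h5 : (8 : ℝ) ^ j ≤ (4 / 3) ^ m := by
    calc (8 : ℝ) ^ j ≤ ((4 / 3) ^ 8) ^ j := by
          apply pow_le_pow_left₀ (by norm_num); norm_num
      _ = (4 / 3) ^ (8 * j) := by rw [← pow_mul]
      _ ≤ (4 / 3) ^ m := pow_le_pow_right₀ (by norm_num) hj
  calc (8 : ℝ) ^ j * (1 / 8 + 1) ^ m ≤ (4 / 3) ^ m * (1 / 8 + 1) ^ m := by gcongr
    _ = (3 / 4) ^ m * 2 ^ m := by
        rw [← mul_pow, ← mul_pow]; norm_num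

theorem kt_ge (m j : ℕ) (hj : 8 * j ≤ m) (s : ℝ) (hs : 0 ≤ s) (hs1 : s ≤ 1) :
    ((1 + s) / 2) ^ m - (3 / 4) ^ m ≤ kt m j s := by
  have hjm : j ≤ m := by omega
  have h1 := full_eq m j hjm s
  have h2 := low_le m j hj
  have h3 : ∑ i ∈ Finset.range j, (m.choose i : ℝ) * s ^ i ≤
      ∑ i ∈ Finset.range j, (m.choose i : ℝ) := by
    refine Finset.sum_le_sum fun i _ => ?_
    have : s ^ i ≤ 1 := pow_le_one₀ hs hs1
    have h4 : (0 : ℝ) ≤ m.choose i := by positivity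
    nlinarith
  have h5 := topw_pos m j hjm
  have h6 := topw_le m j
  have h7 := kt_nonneg m j s hs
  have h8 : (1 + s) ^ m ≤ (3 / 4) ^ m * 2 ^ m + 2 ^ m * kt m j s := by
    have : topw m j * kt m j s ≤ 2 ^ m * kt m j s := mul_le_mul_of_nonneg_right h6 h7
    linarith
  rw [div_pow, sub_le_iff_le_add, div_le_iff₀ (by positivity)]
  linarith

theorem kt_le (m j : ℕ) (hj : 8 * j ≤ m) (s : ℝ) (hs : 0 ≤ s) (hs1 : s ≤ 1)
    (hlow : (3 / 4 : ℝ) ^ m ≤ 1 / 2) :
    kt m j s ≤ ((1 + s) / 2) ^ m + 2 * (3 / 4) ^ m := by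
  have hjm : j ≤ m := by omega
  have h1 := full_eq m j hjm s
  have h2 := low_le m j hj
  have h3 : 0 ≤ ∑ i ∈ Finset.range j, (m.choose i : ℝ) * s ^ i :=
    Finset.sum_nonneg fun _ _ => by positivity
  have h7 := kt_nonneg m j s hs
  -- lower bound for `topw`
  have h4 := full_eq m j hjm 1
  rw [kt_one m j hjm, mul_one] at h4
  simp only [one_pow, mul_one] at h4
  have h5 : (1 - (3 / 4) ^ m) * 2 ^ m ≤ topw m j := by
    have : (1 + 1 : ℝ) ^ m = 2 ^ m := by norm_num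
    rw [this] at h4
    linarith
  have h6 : (1 - (3 / 4) ^ m) * 2 ^ m * kt m j s ≤ (1 + s) ^ m := by
    have := mul_le_mul_of_nonneg_right h5 h7
    linarith
  have h8 : (1 - (3 / 4) ^ m) * kt m j s ≤ ((1 + s) / 2) ^ m := by
    rw [div_pow (1 + s), le_div_iff₀ (by positivity)]
    linarith
  have h9 : kt m j s ≤ 1 := (kt_le_pow m j hjm s hs hs1).trans (pow_le_one₀ hs hs1)
  have h10 : (3 / 4 : ℝ) ^ m * kt m j s ≤ (3 / 4) ^ m :=
    mul_le_of_le_one_right (by positivity) h9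
  have h11 : (0 : ℝ) ≤ (3 / 4) ^ m := by positivity
  linarith

section

variable {X : Type} [Fintype X] [DecidableEq X]

/-- The kernel. -/
noncomputable def kx (m j : ℕ) (x : X → Bool) : ℝ := kt m j (rho x ^ 2)

omit [DecidableEq X] in
theorem kx_psd (m j : ℕ) : PSDK (kx m j : (X → Bool) → ℝ) := by
  have h1 : PSDK (fun x : X → Bool => ∑ i ∈ Finset.Icc j m,
      (m.choose i : ℝ) / topw m j * rho x ^ (2 * i)) := by
    apply psdk_sum
    intro i _
    apply psdk_smul _ _ _ (psdk_pow (2 * i))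
    apply div_nonneg (by positivity)
    unfold topw
    exact Finset.sum_nonneg fun _ _ => by positivity
  have h2 : (kx m j : (X → Bool) → ℝ) = fun x : X → Bool => ∑ i ∈ Finset.Icc j m,
      (m.choose i : ℝ) / topw m j * rho x ^ (2 * i) := by
    funext x
    unfold kx kt
    rw [Finset.sum_div]
    refine Finset.sum_congr rfl fun i _ => ?_
    rw [← pow_mul]; ring
  rw [h2]; exact h1

omit [DecidableEq X] in
theorem kx_zero [Nonempty X] (m j : ℕ) (hj : j ≤ m) : kx m j (0 : X → Bool) = 1 := by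
  unfold kx
  rw [rho_zero, one_pow, kt_one m j hj]

omit [DecidableEq X] in
theorem kx_nonneg (m j : ℕ) (x : X → Bool) : 0 ≤ kx m j x := kt_nonneg m j _ (sq_nonneg _)

omit [DecidableEq X] in
/-- The part of a coset of the code at a distance. -/
theorem rest_le [Nonempty X] {h : ℕ} (hd : (Fin h → Bool) → X → Bool)
    (hadd : ∀ a b, hd (a + b) = hd a + hd b) (α : ℝ) (hα : 0 ≤ α)
    (hcode : ∀ d, d ≠ 0 → |rho (hd d)| ≤ α) (m j : ℕ) (hj : 2 * j ≤ m) (x : X → Bool)
    (s : Finset (Fin h → Bool)) (θ : ℝ) (hθ : 0 ≤ θ)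
    (hs : ∀ d ∈ s, |rho (x + hd d)| ≤ θ) :
    ∑ d ∈ s, kx m (2 * j) (x + hd d) ≤ θ ^ (2 * j) * (1 + 2 ^ h * α ^ j) := by
  have h1 : ∀ d ∈ s, kx m (2 * j) (x + hd d) ≤ θ ^ (2 * j) * rho (x + hd d) ^ (2 * j) := by
    intro d hd'
    unfold kx
    refine (kt_le_pow m (2 * j) hj _ (sq_nonneg _) (rho_sq_le _)).trans ?_
    have e : (rho (x + hd d) ^ 2) ^ (2 * j) =
        |rho (x + hd d)| ^ (2 * j) * rho (x + hd d) ^ (2 * j) := by
      rw [pow_mul (rho (x + hd d)) 2 j, ← sq_abs, ← pow_mul, ← pow_mul, ← pow_add]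
      congr 1; ring
    rw [e]
    apply mul_le_mul_of_nonneg_right
    · exact pow_le_pow_left₀ (abs_nonneg _) (hs d hd') _
    · rw [pow_mul]; positivity
  have h2 : ∀ d, 0 ≤ rho (x + hd d) ^ (2 * j) := by
    intro d; rw [pow_mul]; positivity
  have h3 := code_sum (X := X) hd j (α ^ j) (by positivity) (by
    intro i i' hii
    rw [← hadd]
    apply pow_le_pow_left₀ (abs_nonneg _)
    apply hcode
    intro h4
    apply hii
    calc i = i + (i' + i') := by rw [pi_add_self, add_zero]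
      _ = (i + i') + i' := by abel
      _ = i' := by rw [h4, zero_add]) x
  calc ∑ d ∈ s, kx m (2 * j) (x + hd d)
      ≤ ∑ d ∈ s, θ ^ (2 * j) * rho (x + hd d) ^ (2 * j) := Finset.sum_le_sum h1
    _ = θ ^ (2 * j) * ∑ d ∈ s, rho (x + hd d) ^ (2 * j) := by rw [Finset.mul_sum]
    _ ≤ θ ^ (2 * j) * ∑ d, rho (x + hd d) ^ (2 * j) := by
        apply mul_le_mul_of_nonneg_left _ (by positivity)
        apply Finset.sum_le_sum_of_subset_of_nonneg (Finset.subset_univ _)
        intro d _ _; exact h2 d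
    _ ≤ θ ^ (2 * j) * (1 + 2 ^ h * α ^ j) := by
        apply mul_le_mul_of_nonneg_left _ (by positivity)
        refine h3.trans (le_of_eq ?_)
        rw [Fintype.card_fun, Fintype.card_bool, Fintype.card_fin]
        push_cast; ring

end

end Pool.Agent.KS6_6.UG
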