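import Mathlib

/-!
Walsh functions on the cube `X → Bool`, convolution operators and the two-to-four
hypercontractive inequality.
-/

set_option autoImplicit false

namespace Pool.Agent.KS6_6.UG

open Finset

/-- Sign of a bit. -/
def sg (b : Bool) : ℝ := if b then -1 else 1

@[simp] theorem sg_true : sg true = -1 := rfl
@[simp] theorem sg_false : sg false = 1 := rfl

theorem sg_mul_self (b : Bool) : sg b * sg b = 1 := by cases b <;> simp

theorem sg_xor (a b : Bool) : sg (xor a b) = sg a * sg b := by cases a <;> cases b <;> simp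

section

variable {X : Type} [Fintype X] [DecidableEq X]

/-- Walsh function. -/
def walsh (S : Finset X) (x : X → Bool) : ℝ := ∏ i ∈ S, sg (x i)

omit [Fintype X] [DecidableEq X] in
@[simp] theorem walsh_empty (x : X → Bool) : walsh (∅ : Finset X) x = 1 := by simp [walsh]

omit [Fintype X] [DecidableEq X] in
theorem walsh_xor (S : Finset X) (x y : X → Bool) :
    walsh S (fun i => xor (x i) (y i)) = walsh S x * walsh S y := by
  simp only [walsh, sg_xor, Finset.prod_mul_distrib]

omit [Fintype X] [DecidableEq X] in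
theorem walsh_mul_self (S : Finset X) (x : X → Bool) : walsh S x * walsh S x = 1 := by
  simp only [walsh, ← Finset.prod_mul_distrib, sg_mul_self, Finset.prod_const_one]

omit [Fintype X] [DecidableEq X] in
theorem walsh_sq (S : Finset X) (x : X → Bool) : walsh S x ^ 2 = 1 := by
  rw [sq, walsh_mul_self]

theorem sum_prod_cube (f : X → Bool → ℝ) :
    ∑ x : X → Bool, ∏ i, f i (x i) = ∏ i, (f i true + f i false) := by
  have h := Finset.prod_univ_sum (fun _ : X => (Finset.univ : Finset Bool)) f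
  rw [Fintype.piFinset_univ] at h
  rw [← h]
  exact Finset.prod_congr rfl fun i _ => by simp

theorem walsh_univ (S : Finset X) (x : X → Bool) :
    walsh S x = ∏ i, (if i ∈ S then sg (x i) else 1) := by
  rw [walsh, Finset.prod_ite_mem, Finset.univ_inter]

theorem walsh_orth (S T : Finset X) :
    ∑ x, walsh S x * walsh T x = if S = T then (2 : ℝ) ^ Fintype.card X else 0 := by
  have h1 : ∀ x : X → Bool, walsh S x * walsh T x =
      ∏ i, ((if i ∈ S then sg (x i) else 1) * (if i ∈ T then sg (x i) else 1)) := by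
    intro x
    rw [walsh_univ, walsh_univ, ← Finset.prod_mul_distrib]
  simp only [h1]
  rw [sum_prod_cube (fun i b => (if i ∈ S then sg b else 1) * (if i ∈ T then sg b else 1))]
  by_cases h : S = T
  · subst h
    rw [if_pos rfl]
    have : ∀ i : X, ((if i ∈ S then sg true else 1) * (if i ∈ S then sg true else 1) +
        (if i ∈ S then sg false else 1) * (if i ∈ S then sg false else 1) : ℝ) = 2 := by
      intro i
      by_cases hi : i ∈ S <;> simp [hi] <;> norm_num
    simp only [this]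
    simp
  · rw [if_neg h]
    have : ∃ i, ¬ (i ∈ S ↔ i ∈ T) := by
      by_contra hcon
      push Not at hcon
      exact h (Finset.ext hcon)
    obtain ⟨i, hi⟩ := this
    apply Finset.prod_eq_zero (Finset.mem_univ i)
    by_cases h1 : i ∈ S <;> by_cases h2 : i ∈ T <;> simp [h1, h2] at hi ⊢

omit [DecidableEq X] in
theorem walsh_complete (x y : X → Bool) :
    ∑ S : Finset X, walsh S x * walsh S y = if x = y then (2 : ℝ) ^ Fintype.card X else 0 := by
  have h1 : ∀ S : Finset X, walsh S x * walsh S y = ∏ i ∈ S, (sg (x i) * sg (y i)) := by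
    intro S
    rw [walsh, walsh, ← Finset.prod_mul_distrib]
  simp only [h1]
  have h2 : ∑ S : Finset X, ∏ i ∈ S, (sg (x i) * sg (y i)) =
      ∏ i, (1 + sg (x i) * sg (y i)) := by
    rw [Finset.prod_one_add]
    rw [Finset.powerset_univ]
  rw [h2]
  by_cases h : x = y
  · subst h
    rw [if_pos rfl]
    have : ∀ i, (1 + sg (x i) * sg (x i) : ℝ) = 2 := by
      intro i; rw [sg_mul_self]; norm_num
    simp only [this]
    simp
  · rw [if_neg h]
    have : ∃ i, x i ≠ y i := by
      by_contra hcon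
      push Not at hcon
      exact h (funext hcon)
    obtain ⟨i, hi⟩ := this
    apply Finset.prod_eq_zero (Finset.mem_univ i)
    cases hx : x i <;> cases hy : y i <;> simp [hx, hy] at hi ⊢

/-- Walsh coefficient. -/
noncomputable def fc (f : (X → Bool) → ℝ) (S : Finset X) : ℝ :=
  (∑ x, f x * walsh S x) / 2 ^ Fintype.card X

theorem fc_inv (f : (X → Bool) → ℝ) (x : X → Bool) :
    f x = ∑ S, fc f S * walsh S x := by
  have h0 : (2 : ℝ) ^ Fintype.card X ≠ 0 := by positivity
  have h : ∑ S, fc f S * walsh S x = (∑ S : Finset X, ∑ y, f y * (walsh S y * walsh S x)) /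
      2 ^ Fintype.card X := by
    rw [Finset.sum_div]
    refine Finset.sum_congr rfl fun S _ => ?_
    rw [fc, div_mul_eq_mul_div, Finset.sum_mul]
    congr 1
    exact Finset.sum_congr rfl fun y _ => by ring
  rw [h, Finset.sum_comm]
  have h2 : ∀ y, ∑ S : Finset X, f y * (walsh S y * walsh S x) =
      f y * (if y = x then (2 : ℝ) ^ Fintype.card X else 0) := by
    intro y
    rw [← Finset.mul_sum, walsh_complete]
  simp only [h2]
  simp [h0]

theorem fc_walsh (S T : Finset X) : fc (walsh S) T = if S = T then 1 else 0 := by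
  have h0 : (2 : ℝ) ^ Fintype.card X ≠ 0 := by positivity
  rw [fc, walsh_orth]
  by_cases h : S = T
  · simp [h, h0]
  · simp [h]

/-- Parseval. -/
theorem parseval (f g : (X → Bool) → ℝ) :
    ∑ S, fc f S * fc g S = (∑ x, f x * g x) / 2 ^ Fintype.card X := by
  have h : ∀ x, f x * g x = ∑ S, fc g S * (f x * walsh S x) := by
    intro x
    conv_lhs => rw [fc_inv g x]
    rw [Finset.mul_sum]
    exact Finset.sum_congr rfl fun S _ => by ring
  simp only [h]
  rw [Finset.sum_comm, Finset.sum_div]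
  refine Finset.sum_congr rfl fun S _ => ?_
  rw [← Finset.mul_sum, fc]
  ring

/-- Convolution with the image of the uniform measure on `R` under `flip`. -/
theorem conv_formula {R : Type} [Fintype R] (flip : R → X → Bool) (f g : (X → Bool) → ℝ) :
    (∑ x, ∑ r, f x * g (fun i => xor (x i) (flip r i))) / 2 ^ Fintype.card X =
      ∑ S, (∑ r, walsh S (flip r)) * (fc f S * fc g S) := by
  have h : ∀ r, (∑ x, f x * g (fun i => xor (x i) (flip r i))) / 2 ^ Fintype.card X =
      ∑ S, walsh S (flip r) * (fc f S * fc g S) := by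
    intro r
    rw [← parseval]
    refine Finset.sum_congr rfl fun S _ => ?_
    have : fc (fun x => g (fun i => xor (x i) (flip r i))) S = walsh S (flip r) * fc g S := by
      rw [fc, fc, ← mul_div_assoc]
      congr 1
      rw [Finset.mul_sum]
      let e : Equiv.Perm (X → Bool) :=
        { toFun := fun x i => xor (x i) (flip r i)
          invFun := fun x i => xor (x i) (flip r i)
          left_inv := fun x => by funext i; simp
          right_inv := fun x => by funext i; simp }
      rw [← Equiv.sum_comp e (fun x => walsh S (flip r) * (g x * walsh S x))]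
      refine Finset.sum_congr rfl fun x _ => ?_
      have h1 : walsh S (e x) = walsh S x * walsh S (flip r) := walsh_xor S x (flip r)
      rw [h1]
      have h2 := walsh_mul_self S (flip r)
      have h3 : g (e x) = g (fun i => xor (x i) (flip r i)) := rfl
      rw [h3]
      calc g (fun i => xor (x i) (flip r i)) * walsh S x
          = (walsh S (flip r) * walsh S (flip r)) *
            (g (fun i => xor (x i) (flip r i)) * walsh S x) := by rw [h2, one_mul]
        _ = _ := by ring
    rw [this]; ring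
  rw [Finset.sum_comm, Finset.sum_div]
  simp only [h]
  rw [Finset.sum_comm]
  exact Finset.sum_congr rfl fun S _ => by rw [Finset.sum_mul]

/-- The polynomial `∑_{S ⊆ A} r^|S| c_S w_S`. -/
noncomputable def wpoly (r : ℝ) (c : Finset X → ℝ) (A : Finset X) (x : X → Bool) : ℝ :=
  ∑ S ∈ A.powerset, r ^ S.card * c S * walsh S x

omit [Fintype X] in
theorem wpoly_insert (r : ℝ) (c : Finset X → ℝ) (A : Finset X) (a : X) (ha : a ∉ A)
    (x : X → Bool) :
    wpoly r c (insert a A) x =
      wpoly r c A x + r * sg (x a) * wpoly r (fun S => c (insert a S)) A x := by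
  rw [wpoly, Finset.sum_powerset_insert ha, wpoly, wpoly, Finset.mul_sum]
  congr 1
  refine Finset.sum_congr rfl fun S hS => ?_
  have haS : a ∉ S := fun h => ha (Finset.mem_powerset.mp hS h)
  rw [Finset.card_insert_of_notMem haS, walsh, Finset.prod_insert haS, walsh]
  ring

omit [Fintype X] [DecidableEq X] in
theorem wpoly_congr (r : ℝ) (c : Finset X → ℝ) (A : Finset X) (x y : X → Bool)
    (h : ∀ i ∈ A, x i = y i) : wpoly r c A x = wpoly r c A y := by
  rw [wpoly, wpoly]
  refine Finset.sum_congr rfl fun S hS => ?_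
  congr 1
  rw [walsh, walsh]
  exact Finset.prod_congr rfl fun i hi => by rw [h i (Finset.mem_powerset.mp hS hi)]

/-- Two-to-four hypercontractive inequality (Bonami). -/
theorem bonami (r : ℝ) (hr : r ^ 2 = 1 / 3) (A : Finset X) :
    ∀ c : Finset X → ℝ, (∑ x, wpoly r c A x ^ 4) / 2 ^ Fintype.card X ≤
      (∑ S ∈ A.powerset, c S ^ 2) ^ 2 := by
  induction A using Finset.induction_on with
  | empty =>
    intro c
    have : ∀ x : X → Bool, wpoly r c ∅ x ^ 4 = c ∅ ^ 4 := by
      intro x; simp [wpoly]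
    simp only [this]
    simp
    apply le_of_eq; ring
  | @insert a A ha ih =>
    intro c
    have h0 : (0 : ℝ) < 2 ^ Fintype.card X := by positivity
    set N : ℝ := 2 ^ Fintype.card X with hN
    set c' : Finset X → ℝ := fun S => c (insert a S) with hc'
    set P : (X → Bool) → ℝ := wpoly r c A with hP
    set Q : (X → Bool) → ℝ := wpoly r c' A with hQ
    -- flipping the coordinate `a`
    let e : Equiv.Perm (X → Bool) :=
      { toFun := fun x => Function.update x a (!(x a))
        invFun := fun x => Function.update x a (!(x a))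
        left_inv := fun x => by simp
        right_inv := fun x => by simp }
    have hPe : ∀ x, P (e x) = P x := by
      intro x
      apply wpoly_congr
      intro i hi
      have : i ≠ a := fun h => ha (h ▸ hi)
      simp [e, this]
    have hQe : ∀ x, Q (e x) = Q x := by
      intro x
      apply wpoly_congr
      intro i hi
      have : i ≠ a := fun h => ha (h ▸ hi)
      simp [e, this]
    have hse : ∀ x, sg ((e x) a) = - sg (x a) := by
      intro x
      simp only [e, Equiv.coe_fn_mk, Function.update_self]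
      cases x a <;> simp
    have hs2 : ∀ x : X → Bool, sg (x a) ^ 2 = 1 := fun x => by rw [sq, sg_mul_self]
    have hsum : 2 * ∑ x, wpoly r c (insert a A) x ^ 4 =
        2 * ∑ x, (P x ^ 4 + 2 * (P x ^ 2 * Q x ^ 2) + 1 / 9 * Q x ^ 4) := by
      have h1 : ∑ x, wpoly r c (insert a A) x ^ 4 = ∑ x, wpoly r c (insert a A) (e x) ^ 4 :=
        (Equiv.sum_comp e (fun x => wpoly r c (insert a A) x ^ 4)).symm
      rw [two_mul]
      nth_rewrite 2 [h1]
      rw [← Finset.sum_add_distrib, Finset.mul_sum]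
      refine Finset.sum_congr rfl fun x _ => ?_
      rw [wpoly_insert r c A a ha, wpoly_insert r c A a ha]
      have e1 : wpoly r c A (e x) = P x := hPe x
      have e2 : wpoly r (fun S => c (insert a S)) A (e x) = Q x := hQe x
      have e3 : wpoly r c A x = P x := rfl
      have e4 : wpoly r (fun S => c (insert a S)) A x = Q x := rfl
      rw [e1, e2, e3, e4, hse]
      have h2 := hs2 x
      set s := sg (x a)
      have h4 : r ^ 4 = 1 / 9 := by
        calc r ^ 4 = (r ^ 2) ^ 2 := by ring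
          _ = 1 / 9 := by rw [hr]; norm_num
      have h5 : s ^ 4 = 1 := by
        calc s ^ 4 = (s ^ 2) ^ 2 := by ring
          _ = 1 := by rw [h2]; norm_num
      have : (P x + r * s * Q x) ^ 4 + (P x + r * -s * Q x) ^ 4 =
          2 * (P x ^ 4 + 6 * (r ^ 2 * s ^ 2) * (P x ^ 2 * Q x ^ 2) +
            r ^ 4 * s ^ 4 * Q x ^ 4) := by ring
      rw [this, hr, h2, h4, h5]
      ring
    have hsum' : ∑ x, wpoly r c (insert a A) x ^ 4 =
        ∑ x, P x ^ 4 + 2 * ∑ x, P x ^ 2 * Q x ^ 2 + 1 / 9 * ∑ x, Q x ^ 4 := by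
      have := mul_left_cancel₀ two_ne_zero hsum
      rw [this, Finset.sum_add_distrib, Finset.sum_add_distrib, Finset.mul_sum, Finset.mul_sum]
    set p : ℝ := ∑ S ∈ A.powerset, c S ^ 2 with hp
    set q : ℝ := ∑ S ∈ A.powerset, c' S ^ 2 with hq
    have hp0 : 0 ≤ p := Finset.sum_nonneg fun _ _ => sq_nonneg _
    have hq0 : 0 ≤ q := Finset.sum_nonneg fun _ _ => sq_nonneg _
    have hPQ : (∑ x, P x ^ 2 * Q x ^ 2) / N ≤ p * q := by
      have h1 := Finset.sum_mul_sq_le_sq_mul_sq Finset.univ (fun x => P x ^ 2) (fun x => Q x ^ 2)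
      have e1 : ∑ x, (P x ^ 2) ^ 2 = ∑ x, P x ^ 4 :=
        Finset.sum_congr rfl fun x _ => by ring
      have e2 : ∑ x, (Q x ^ 2) ^ 2 = ∑ x, Q x ^ 4 :=
        Finset.sum_congr rfl fun x _ => by ring
      rw [e1, e2] at h1
      have h2 : ((∑ x, P x ^ 2 * Q x ^ 2) / N) ^ 2 ≤ (p * q) ^ 2 := by
        calc ((∑ x, P x ^ 2 * Q x ^ 2) / N) ^ 2
            = (∑ x, P x ^ 2 * Q x ^ 2) ^ 2 / N ^ 2 := by rw [div_pow]
          _ ≤ (∑ x, P x ^ 4) * (∑ x, Q x ^ 4) / N ^ 2 := by gcongr
          _ = ((∑ x, P x ^ 4) / N) * ((∑ x, Q x ^ 4) / N) := by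
              rw [sq, mul_div_mul_comm]
          _ ≤ p ^ 2 * q ^ 2 := by
              apply mul_le_mul (ih c) (ih c') _ (sq_nonneg _)
              exact div_nonneg (Finset.sum_nonneg fun _ _ => by positivity) h0.le
          _ = (p * q) ^ 2 := by ring
      exact (le_abs_self _).trans (abs_le_of_sq_le_sq h2 (mul_nonneg hp0 hq0))
    have hps : ∑ S ∈ (insert a A).powerset, c S ^ 2 = p + q := by
      rw [Finset.sum_powerset_insert ha]
    rw [hsum', hps]
    have i1 := ih c
    have i2 := ih c'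
    have : (∑ x, P x ^ 4 + 2 * ∑ x, P x ^ 2 * Q x ^ 2 + 1 / 9 * ∑ x, Q x ^ 4) / N =
        (∑ x, P x ^ 4) / N + 2 * ((∑ x, P x ^ 2 * Q x ^ 2) / N) +
          1 / 9 * ((∑ x, Q x ^ 4) / N) := by ring
    rw [this]
    change (∑ x, P x ^ 4) / N ≤ p ^ 2 at i1
    change (∑ x, Q x ^ 4) / N ≤ q ^ 2 at i2
    nlinarith [sq_nonneg q, mul_nonneg hp0 hq0]

/-- Small-set estimate: for the indicator function `f` of a set of density `μ`,
`∑_S 3^{-|S|} f̂(S)² ≤ μ^{3/2}`, in squared form. -/
theorem small_set (f : (X → Bool) → ℝ) (hf : ∀ x, f x = 0 ∨ f x = 1) :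
    (∑ S, (1 / 3 : ℝ) ^ S.card * fc f S ^ 2) ^ 2 ≤
      ((∑ x, f x) / 2 ^ Fintype.card X) ^ 3 := by
  have h0 : (0 : ℝ) < 2 ^ Fintype.card X := by positivity
  set N : ℝ := 2 ^ Fintype.card X with hN
  obtain ⟨r, hr⟩ : ∃ r : ℝ, r ^ 2 = 1 / 3 := ⟨Real.sqrt (1 / 3), Real.sq_sqrt (by norm_num)⟩
  have hr2 : ∀ n : ℕ, r ^ n * r ^ n = (1 / 3 : ℝ) ^ n := by
    intro n; rw [← mul_pow, ← sq, hr]
  set W : ℝ := ∑ S, (1 / 3 : ℝ) ^ S.card * fc f S ^ 2 with hW
  have hW0 : 0 ≤ W := Finset.sum_nonneg fun _ _ => by positivity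
  -- `u = T² f`
  let c : Finset X → ℝ := fun S => r ^ S.card * fc f S
  let u : (X → Bool) → ℝ := wpoly r c Finset.univ
  have hu4 : (∑ x, u x ^ 4) / N ≤ W ^ 2 := by
    have h := bonami r hr Finset.univ c
    have e : ∑ S ∈ (Finset.univ : Finset X).powerset, c S ^ 2 = W := by
      rw [Finset.powerset_univ]
      refine Finset.sum_congr rfl fun S _ => ?_
      simp only [c]
      rw [mul_pow, sq (r ^ S.card), hr2]
    rw [e] at h
    exact h
  have hfu : (∑ x, f x * u x) / N = W := by
    have hu : ∀ x, u x = ∑ S, r ^ S.card * c S * walsh S x := by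
      intro x
      simp only [u, wpoly, Finset.powerset_univ]
    simp only [hu, Finset.mul_sum]
    rw [Finset.sum_comm, Finset.sum_div]
    refine Finset.sum_congr rfl fun S _ => ?_
    have : ∀ x, f x * (r ^ S.card * c S * walsh S x) =
        (r ^ S.card * c S) * (f x * walsh S x) := fun x => by ring
    simp only [this]
    rw [← Finset.mul_sum, mul_div_assoc]
    have : (∑ x, f x * walsh S x) / N = fc f S := rfl
    rw [this]
    simp only [c]
    calc r ^ S.card * (r ^ S.card * fc f S) * fc f S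
        = (r ^ S.card * r ^ S.card) * fc f S ^ 2 := by ring
      _ = _ := by rw [hr2]
  have hff : ∀ x, f x * f x = f x := by
    intro x; rcases hf x with h | h <;> rw [h] <;> norm_num
  set m : ℝ := (∑ x, f x) / N with hm
  have hf0 : ∀ x, 0 ≤ f x := by
    intro x; rcases hf x with h | h <;> rw [h]; norm_num
  have hm0 : 0 ≤ m := div_nonneg (Finset.sum_nonneg fun x _ => hf0 x) h0.le
  -- `(E f u)² ≤ m E f u²`
  have hA : W ^ 2 ≤ m * ((∑ x, f x * u x ^ 2) / N) := by
    have h1 := Finset.sum_mul_sq_le_sq_mul_sq Finset.univ f (fun x => f x * u x)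
    have e1 : ∑ x, f x * (f x * u x) = ∑ x, f x * u x :=
      Finset.sum_congr rfl fun x _ => by rw [← mul_assoc, hff]
    have e2 : ∑ x, f x ^ 2 = ∑ x, f x := Finset.sum_congr rfl fun x _ => by rw [sq, hff]
    have e3 : ∑ x, (f x * u x) ^ 2 = ∑ x, f x * u x ^ 2 :=
      Finset.sum_congr rfl fun x _ => by rw [mul_pow, sq (f x), hff]
    rw [e1, e2, e3] at h1
    rw [← hfu, hm, div_pow, div_mul_div_comm, ← sq]
    gcongr
  have hB : ((∑ x, f x * u x ^ 2) / N) ^ 2 ≤ m * W ^ 2 := by
    have h1 := Finset.sum_mul_sq_le_sq_mul_sq Finset.univ f (fun x => f x * u x ^ 2)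
    have e1 : ∑ x, f x * (f x * u x ^ 2) = ∑ x, f x * u x ^ 2 :=
      Finset.sum_congr rfl fun x _ => by rw [← mul_assoc, hff]
    have e2 : ∑ x, f x ^ 2 = ∑ x, f x := Finset.sum_congr rfl fun x _ => by rw [sq, hff]
    have e3 : ∑ x, (f x * u x ^ 2) ^ 2 ≤ ∑ x, u x ^ 4 := by
      refine Finset.sum_le_sum fun x _ => ?_
      rcases hf x with h | h <;> rw [h]
      · have : 0 ≤ u x ^ 4 := by positivity
        simpa using this
      · apply le_of_eq; ring
    rw [e1, e2] at h1
    calc ((∑ x, f x * u x ^ 2) / N) ^ 2 = (∑ x, f x * u x ^ 2) ^ 2 / N ^ 2 := by rw [div_pow]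
      _ ≤ ((∑ x, f x) * ∑ x, u x ^ 4) / N ^ 2 := by
          gcongr
          exact h1.trans (mul_le_mul_of_nonneg_left e3
            (Finset.sum_nonneg fun x _ => hf0 x))
      _ = m * ((∑ x, u x ^ 4) / N) := by rw [hm, sq, mul_div_mul_comm]
      _ ≤ m * W ^ 2 := mul_le_mul_of_nonneg_left hu4 hm0
  -- conclude
  set Z : ℝ := (∑ x, f x * u x ^ 2) / N with hZ
  have hZ0 : 0 ≤ Z := div_nonneg (Finset.sum_nonneg fun x _ =>
    mul_nonneg (hf0 x) (sq_nonneg _)) h0.le
  have hfin : W ^ 2 * W ^ 2 ≤ m ^ 3 * W ^ 2 := by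
    calc W ^ 2 * W ^ 2 ≤ (m * Z) * (m * Z) :=
          mul_le_mul hA hA (sq_nonneg _) (mul_nonneg hm0 hZ0)
      _ = m ^ 2 * Z ^ 2 := by ring
      _ ≤ m ^ 2 * (m * W ^ 2) := mul_le_mul_of_nonneg_left hB (sq_nonneg _)
      _ = m ^ 3 * W ^ 2 := by ring
  rcases eq_or_lt_of_le (sq_nonneg W) with hz | hpos
  · rw [← hz]; positivity
  · exact le_of_mul_le_mul_right hfin hpos

end

section Bits

theorem bool_add_self (a : Bool) : a + a = 0 := by cases a <;> rfl

theorem sg_add (a b : Bool) : sg (a + b) = sg a * sg b := by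
  cases a <;> cases b <;> simp [sg] <;> decide

theorem sg_zero : sg 0 = 1 := rfl

theorem sg_one : sg 1 = -1 := rfl

theorem pi_add_self {X : Type} (x : X → Bool) : x + x = 0 := by
  funext i; exact bool_add_self _

theorem walsh_add {X : Type} (S : Finset X) (x y : X → Bool) :
    walsh S (x + y) = walsh S x * walsh S y := walsh_xor S x y

end Bits

/-- Noise stability of small sets. -/
theorem stab_small {X : Type} [Fintype X] [DecidableEq X] (f : (X → Bool) → ℝ)
    (hf : ∀ x, f x = 0 ∨ f x = 1) (μ τ ρ : ℝ) (hμ : (∑ x, f x) / 2 ^ Fintype.card X = μ)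
    (hτ0 : 0 ≤ τ) (hτ : τ ^ 2 = μ) (hρ0 : 0 ≤ ρ) (hρ1 : ρ ≤ 1) (j : ℕ) :
    ∑ S, ρ ^ S.card * fc f S ^ 2 ≤ (3 ^ j * τ + ρ ^ j) * μ := by
  have h0 : (0 : ℝ) < 2 ^ Fintype.card X := by positivity
  have hμ0 : 0 ≤ μ := hτ ▸ sq_nonneg τ
  have h1 := small_set f hf
  rw [hμ] at h1
  have h2 : ∑ S, (1 / 3 : ℝ) ^ S.card * fc f S ^ 2 ≤ μ * τ := by
    have h3 : (∑ S, (1 / 3 : ℝ) ^ S.card * fc f S ^ 2) ^ 2 ≤ (μ * τ) ^ 2 := by
      refine h1.trans (le_of_eq ?_)
      rw [mul_pow, hτ]; ring
    exact (le_abs_self _).trans (abs_le_of_sq_le_sq h3 (mul_nonneg hμ0 hτ0))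
  have h4 : ∑ S, fc f S ^ 2 = μ := by
    have h5 := parseval f f
    simp only [← sq] at h5
    rw [h5, ← hμ]
    congr 1
    refine Finset.sum_congr rfl fun x _ => ?_
    rcases hf x with h | h <;> rw [h] <;> norm_num
  have h6 : ∀ S : Finset X, ρ ^ S.card * fc f S ^ 2 ≤
      3 ^ j * ((1 / 3 : ℝ) ^ S.card * fc f S ^ 2) + ρ ^ j * fc f S ^ 2 := by
    intro S
    have h7 : ρ ^ S.card ≤ 3 ^ j * (1 / 3 : ℝ) ^ S.card + ρ ^ j := by
      by_cases hc : S.card ≤ j
      · have e1 : ρ ^ S.card ≤ 1 := pow_le_one₀ hρ0 hρ1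
        have e2 : (1 : ℝ) ≤ 3 ^ j * (1 / 3 : ℝ) ^ S.card := by
          rw [one_div, inv_pow, ← div_eq_mul_inv, le_div_iff₀ (by positivity), one_mul]
          exact pow_le_pow_right₀ (by norm_num) hc
        have e3 : 0 ≤ ρ ^ j := by positivity
        linarith
      · have e1 : ρ ^ S.card ≤ ρ ^ j := pow_le_pow_of_le_one hρ0 hρ1 (by omega)
        have e2 : (0 : ℝ) ≤ 3 ^ j * (1 / 3 : ℝ) ^ S.card := by positivity
        linarith
    have := mul_le_mul_of_nonneg_right h7 (sq_nonneg (fc f S))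
    linarith
  calc ∑ S, ρ ^ S.card * fc f S ^ 2
      ≤ ∑ S, (3 ^ j * ((1 / 3 : ℝ) ^ S.card * fc f S ^ 2) + ρ ^ j * fc f S ^ 2) :=
        Finset.sum_le_sum fun S _ => h6 S
    _ = 3 ^ j * ∑ S, (1 / 3 : ℝ) ^ S.card * fc f S ^ 2 + ρ ^ j * μ := by
        rw [Finset.sum_add_distrib, ← Finset.mul_sum, ← Finset.mul_sum, h4]
    _ ≤ 3 ^ j * (μ * τ) + ρ ^ j * μ := by
        have : (0 : ℝ) ≤ 3 ^ j := by positivity
        have := mul_le_mul_of_nonneg_left h2 this
        linarith
    _ = _ := by ring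


end Pool.Agent.KS6_6.UG
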